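import Mathlib

/-!
Power series in the unit disc.
-/

set_option autoImplicit false

open Finset Metric Filter Topology

namespace Pool.Agent.H758R2.Besov

/-- The function `z ↦ ∑ a_k z^k` defined by a sequence of coefficients. -/
noncomputable def ev (a : ℕ → ℂ) (z : ℂ) : ℂ := ∑' k : ℕ, a k * z ^ k

/-- `a` is the sequence of Taylor coefficients of an analytic function on the open unit disc: the
power series `∑ a_k z^k` converges for all `|z| < 1`. -/
def IsDisc (a : ℕ → ℂ) : Prop := ∀ z : ℂ, ‖z‖ < 1 → Summable fun k : ℕ => a k * z ^ k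

lemma IsDisc.abs {a : ℕ → ℂ} (ha : IsDisc a) {r : ℝ} (h0 : 0 ≤ r) (h1 : r < 1) :
    Summable fun k : ℕ => ‖a k‖ * r ^ k := by
  obtain ⟨ρ, hρ1, hρ2⟩ := exists_between h1
  have hρ0 : 0 < ρ := lt_of_le_of_lt h0 hρ1
  have hs := ha (ρ : ℂ) (by rwa [Complex.norm_real, Real.norm_of_nonneg hρ0.le])
  have ht := hs.tendsto_atTop_zero
  have hb : ∃ C, ∀ k, ‖a k * (ρ : ℂ) ^ k‖ ≤ C := by
    have := ht.norm.bddAbove_range
    obtain ⟨C, hC⟩ := this
    exact ⟨C, fun k => hC ⟨k, rfl⟩⟩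
  obtain ⟨C, hC⟩ := hb
  have hq : r / ρ < 1 := by rwa [div_lt_one hρ0]
  refine Summable.of_nonneg_of_le (fun k => by positivity) (fun k => ?_)
    ((summable_geometric_of_lt_one (by positivity) hq).mul_left C)
  have h2 := hC k
  rw [norm_mul, norm_pow, Complex.norm_real, Real.norm_of_nonneg hρ0.le] at h2
  rw [div_pow, mul_div_assoc', le_div_iff₀ (by positivity)]
  nlinarith [mul_le_mul_of_nonneg_left h2 (pow_nonneg h0 k)]

lemma IsDisc.of_abs {a : ℕ → ℂ}
    (h : ∀ r : ℝ, 0 ≤ r → r < 1 → Summable fun k : ℕ => ‖a k‖ * r ^ k) : IsDisc a := by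
  intro z hz
  apply Summable.of_norm
  simpa [norm_mul, norm_pow] using h ‖z‖ (norm_nonneg _) hz

lemma IsDisc.of_le {a : ℕ → ℂ} {C : ℝ} {c : ℝ} (h : ∀ k, ‖a k‖ ≤ C * ((k : ℝ) + 1) ^ c) :
    IsDisc a := by
  apply IsDisc.of_abs
  intro r h0 h1
  obtain ⟨m, hm⟩ := exists_nat_ge c
  have h2 : Summable fun k : ℕ => C * (((k : ℝ) + 1) ^ m * r ^ k) := by
    apply Summable.mul_left
    rcases h0.eq_or_lt with h3 | h3
    · subst h3
      apply summable_of_ne_finset_zero (s := {0})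
      intro k hk
      have : k ≠ 0 := by simpa using hk
      simp [this]
    · have h4 : Summable fun k : ℕ => ((k : ℝ) ^ m * r ^ k : ℝ) :=
        summable_pow_mul_geometric_of_norm_lt_one m (by rwa [Real.norm_of_nonneg h0])
      have h5 := (summable_nat_add_iff 1).2 h4
      have h6 := h5.mul_left r⁻¹
      refine h6.congr fun k => ?_
      push_cast
      rw [pow_succ]
      field_simp
  have hC : 0 ≤ C := by
    have := (norm_nonneg _).trans (h 0)
    simpa using this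
  refine Summable.of_nonneg_of_le (fun k => by positivity) (fun k => ?_) h2
  rw [← mul_assoc]
  gcongr
  refine (h k).trans ?_
  gcongr
  have h7 : (1 : ℝ) ≤ (k : ℝ) + 1 := by linarith [(Nat.cast_nonneg k : (0:ℝ) ≤ k)]
  calc ((k : ℝ) + 1) ^ c ≤ ((k : ℝ) + 1) ^ (m : ℝ) := Real.rpow_le_rpow_of_exponent_le h7 hm
    _ = _ := Real.rpow_natCast _ _

lemma ev_add {a b : ℕ → ℂ} (ha : IsDisc a) (hb : IsDisc b) {z : ℂ} (hz : ‖z‖ < 1) :
    ev (a + b) z = ev a z + ev b z := by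
  unfold ev
  rw [← (ha z hz).tsum_add (hb z hz)]
  congr 1
  ext k
  simp [add_mul]

lemma ev_smul (c : ℂ) (a : ℕ → ℂ) (z : ℂ) : ev (c • a) z = c * ev a z := by
  unfold ev
  rw [← tsum_mul_left]
  congr 1
  ext k
  simp [mul_assoc]

lemma IsDisc.add {a b : ℕ → ℂ} (ha : IsDisc a) (hb : IsDisc b) : IsDisc (a + b) := by
  intro z hz
  refine ((ha z hz).add (hb z hz)).congr fun k => ?_
  simp [add_mul]

lemma IsDisc.smul {a : ℕ → ℂ} (ha : IsDisc a) (c : ℂ) : IsDisc (c • a) := by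
  intro z hz
  refine ((ha z hz).mul_left c).congr fun k => ?_
  simp [mul_assoc]

lemma IsDisc.zero : IsDisc 0 := by
  intro z hz
  simp

/-- coefficients of the derivative -/
def dd (a : ℕ → ℂ) (k : ℕ) : ℂ := ((k : ℂ) + 1) * a (k + 1)

lemma IsDisc.dd {a : ℕ → ℂ} (ha : IsDisc a) : IsDisc (dd a) := by
  apply IsDisc.of_abs
  intro r h0 h1
  obtain ⟨ρ, hρ1, hρ2⟩ := exists_between h1
  have hρ0 : 0 < ρ := lt_of_le_of_lt h0 hρ1
  have h2 := (summable_nat_add_iff 1).2 (ha.abs hρ0.le hρ2)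
  have hb : ∃ C, ∀ k, ‖a (k + 1)‖ * ρ ^ (k + 1) ≤ C := by
    obtain ⟨C, hC⟩ := h2.tendsto_atTop_zero.bddAbove_range
    exact ⟨C, fun k => hC ⟨k, rfl⟩⟩
  obtain ⟨C, hC⟩ := hb
  have hC0 : 0 ≤ C := le_trans (by positivity) (hC 0)
  have hq : r / ρ < 1 := by rwa [div_lt_one hρ0]
  have hq0 : 0 ≤ r / ρ := by positivity
  have h3 : Summable fun k : ℕ => ((k : ℝ) ^ 1 * (r / ρ) ^ k : ℝ) :=
    summable_pow_mul_geometric_of_norm_lt_one 1 (by rwa [Real.norm_of_nonneg hq0])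
  have h4 := (h3.add (summable_geometric_of_lt_one hq0 hq)).mul_left (C / ρ)
  refine Summable.of_nonneg_of_le (fun k => by positivity) (fun k => ?_) h4
  have h5 : ‖Besov.dd a k‖ = ((k : ℝ) + 1) * ‖a (k + 1)‖ := by
    unfold Besov.dd
    rw [norm_mul]
    congr 1
    have : ((k : ℂ) + 1) = (((k : ℝ) + 1 : ℝ) : ℂ) := by push_cast; rfl
    rw [this, Complex.norm_real, Real.norm_of_nonneg (by positivity)]
  rw [h5]
  have h6 : ‖a (k + 1)‖ ≤ C / ρ ^ (k + 1) := by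
    rw [le_div_iff₀ (by positivity)]; exact hC k
  calc ((k : ℝ) + 1) * ‖a (k + 1)‖ * r ^ k ≤ ((k : ℝ) + 1) * (C / ρ ^ (k + 1)) * r ^ k := by
        gcongr
    _ = C / ρ * ((k : ℝ) ^ 1 * (r / ρ) ^ k + (r / ρ) ^ k) := by
        rw [div_pow, pow_succ]
        field_simp

lemma hasDerivAt_ev {a : ℕ → ℂ} (ha : IsDisc a) {z : ℂ} (hz : ‖z‖ < 1) :
    HasDerivAt (ev a) (ev (dd a) z) z := by
  obtain ⟨ρ, hρ1, hρ2⟩ := exists_between hz
  have hρ0 : 0 < ρ := lt_of_le_of_lt (norm_nonneg _) hρ1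
  have hsum := ha.dd.abs hρ0.le hρ2
  -- shift
  let u : ℕ → ℝ := fun k => ‖a k‖ * (k * ρ ^ (k - 1))
  have hu : Summable u := by
    rw [← summable_nat_add_iff 1]
    refine hsum.congr fun k => ?_
    simp only [u, dd, norm_mul]
    have : ‖((k : ℂ) + 1)‖ = (k : ℝ) + 1 := by
      have h : ((k : ℂ) + 1) = (((k : ℝ) + 1 : ℝ) : ℂ) := by push_cast; rfl
      rw [h, Complex.norm_real, Real.norm_of_nonneg (by positivity)]
    rw [this, Nat.add_sub_cancel]
    push_cast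
    ring
  have key := hasDerivAt_tsum_of_isPreconnected (𝕜 := ℂ) (g := fun k z => a k * z ^ k)
    (g' := fun k z => a k * (k * z ^ (k - 1))) (t := ball (0 : ℂ) ρ) (y₀ := 0) (y := z) hu
    isOpen_ball (convex_ball (0 : ℂ) ρ).isPreconnected
    (fun k y _ => (hasDerivAt_pow k y).const_mul (a k))
    (fun k y hy => by
      have hy' : ‖y‖ < ρ := by simpa using hy
      rw [norm_mul, norm_mul, norm_pow, Complex.norm_natCast]
      show ‖a k‖ * (↑k * ‖y‖ ^ (k - 1)) ≤ ‖a k‖ * ((k:ℝ) * ρ ^ (k - 1))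
      gcongr)
    (mem_ball_self hρ0) (ha 0 (by simp)) (by simpa using hρ1)
  have h2 : ∑' k : ℕ, a k * (k * z ^ (k - 1)) = ev (dd a) z := by
    have h3 : Summable fun k : ℕ => a k * (k * z ^ (k - 1)) := by
      apply Summable.of_norm_bounded hu
      intro k
      rw [norm_mul, norm_mul, norm_pow, Complex.norm_natCast]
      show ‖a k‖ * (↑k * ‖z‖ ^ (k - 1)) ≤ ‖a k‖ * ((k:ℝ) * ρ ^ (k - 1))
      gcongr
    rw [h3.tsum_eq_zero_add]
    unfold ev dd
    simp only [Nat.cast_zero, zero_mul, mul_zero, zero_add, Nat.add_sub_cancel]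
    congr 1
    ext k
    push_cast
    ring
  rw [← h2]
  exact key

/-- coefficients of the `n`-th derivative -/
def ddn (n : ℕ) (a : ℕ → ℂ) (k : ℕ) : ℂ := ((k + 1).ascFactorial n : ℂ) * a (k + n)

lemma ddn_succ (n : ℕ) (a : ℕ → ℂ) : dd (ddn n a) = ddn (n + 1) a := by
  ext k
  unfold dd ddn
  have h1 : ((k + 1).ascFactorial (n + 1) : ℂ) = ((k : ℂ) + 1) * ((k + 2).ascFactorial n : ℂ) := by
    have h := Nat.succ_ascFactorial (k + 1) n
    rw [Nat.ascFactorial_succ, ← h]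
    push_cast
    rfl
  have h2 : k + 1 + n = k + (n + 1) := by ring
  rw [h1, h2, show k + 1 + 1 = k + 2 by ring]
  ring

lemma ddn_zero (a : ℕ → ℂ) : ddn 0 a = a := by
  ext k
  simp [ddn]

lemma IsDisc.ddn {a : ℕ → ℂ} (ha : IsDisc a) (n : ℕ) : IsDisc (ddn n a) := by
  induction n with
  | zero => rwa [ddn_zero]
  | succ n ih => rw [← ddn_succ]; exact ih.dd

lemma iteratedDeriv_ev {a : ℕ → ℂ} (ha : IsDisc a) (n : ℕ) :
    ∀ z : ℂ, ‖z‖ < 1 → iteratedDeriv n (ev a) z = ev (ddn n a) z := by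
  induction n with
  | zero => intro z _; simp [ddn_zero]
  | succ n ih =>
    intro z hz
    rw [iteratedDeriv_succ]
    have h1 : iteratedDeriv n (ev a) =ᶠ[𝓝 z] ev (ddn n a) := by
      have : ball (0 : ℂ) 1 ∈ 𝓝 z := isOpen_ball.mem_nhds (by simpa using hz)
      filter_upwards [this] with w hw
      exact ih w (by simpa using hw)
    rw [h1.deriv_eq, (hasDerivAt_ev (ha.ddn n) hz).deriv, ddn_succ]

lemma ev_zero_pt (a : ℕ → ℂ) : ev a 0 = a 0 := by
  unfold ev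
  rw [tsum_eq_single 0]
  · simp
  · intro k hk
    simp [hk]

lemma iteratedDeriv_zero {a : ℕ → ℂ} (ha : IsDisc a) (n : ℕ) :
    iteratedDeriv n (ev a) 0 = (n.factorial : ℂ) * a n := by
  rw [iteratedDeriv_ev ha n 0 (by simp), ev_zero_pt]
  simp [ddn, Nat.one_ascFactorial]

lemma continuousAt_ev {a : ℕ → ℂ} (ha : IsDisc a) {z : ℂ} (hz : ‖z‖ < 1) :
    ContinuousAt (ev a) z := (hasDerivAt_ev ha hz).continuousAt

lemma continuousOn_ev {a : ℕ → ℂ} (ha : IsDisc a) : ContinuousOn (ev a) (ball 0 1) :=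
  fun z hz => (continuousAt_ev ha (by simpa using hz)).continuousWithinAt

lemma differentiableOn_ev {a : ℕ → ℂ} (ha : IsDisc a) : DifferentiableOn ℂ (ev a) (ball 0 1) :=
  fun z hz => (hasDerivAt_ev ha (by simpa using hz)).differentiableAt.differentiableWithinAt

/-- Cauchy's estimate. -/
lemma cauchy {a : ℕ → ℂ} (ha : IsDisc a) {r C : ℝ} (h0 : 0 < r) (h1 : r < 1)
    (hC : ∀ z : ℂ, ‖z‖ = r → ‖ev a z‖ ≤ C) (k : ℕ) : ‖a k‖ * r ^ k ≤ C := by
  have hd : DiffContOnCl ℂ (ev a) (ball 0 r) := by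
    apply DifferentiableOn.diffContOnCl
    apply (differentiableOn_ev ha).mono
    rw [closure_ball _ h0.ne']
    exact closedBall_subset_ball h1
  have h2 := Complex.norm_iteratedDeriv_le_of_forall_mem_sphere_norm_le k h0 hd
    (fun z hz => hC z (by simpa using hz))
  rw [iteratedDeriv_zero ha, norm_mul, Complex.norm_natCast, mul_div_assoc] at h2
  have h3 : (0 : ℝ) < k.factorial := by exact_mod_cast k.factorial_pos
  have h4 := le_of_mul_le_mul_left h2 h3
  rwa [le_div_iff₀ (by positivity)] at h4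

end Pool.Agent.H758R2.Besov
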