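import Pool.Agent.H758R2.Besov.Kernel

set_option autoImplicit false

open Finset Metric Filter Topology MeasureTheory Real

namespace Pool.Agent.H758R2.Besov

/-! ### special test sequences -/

lemma one_le_weight {α : ℝ} (hα : 0 ≤ α) {z : ℂ} (hz : ‖z‖ < 1) : 1 ≤ (1 - ‖z‖) ^ (-α) :=
  Real.one_le_rpow_of_pos_of_le_one_of_nonpos (by linarith) (by linarith [norm_nonneg z])
    (by linarith)

lemma bdd_disc {C : ℝ} {ψ : ℕ → ℂ} (h : ∀ k, ‖ψ k‖ ≤ C) : IsDisc ψ := by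
  apply IsDisc.of_le (C := C) (c := 0)
  intro k
  rw [Real.rpow_zero, mul_one]
  exact h k

lemma bdd_Gr {α C : ℝ} (hα : 1 ≤ α) {ψ : ℕ → ℂ} (h : ∀ k, ‖ψ k‖ ≤ C) : Gr α C ψ := by
  intro z hz
  have hC : 0 ≤ C := (norm_nonneg _).trans (h 0)
  have hp : 0 < 1 - ‖z‖ := by linarith
  have h1 : ‖ev ψ z‖ ≤ C * (1 - ‖z‖)⁻¹ := by
    unfold ev
    apply tsum_of_norm_bounded ((hasSum_geometric_of_lt_one (norm_nonneg z) hz).mul_left C)
    intro k
    rw [norm_mul, norm_pow]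
    have := h k
    gcongr
  refine h1.trans ?_
  rw [← Real.rpow_neg_one]
  have h2 : (1 - ‖z‖) ^ (-1 : ℝ) ≤ (1 - ‖z‖) ^ (-α) :=
    Real.rpow_le_rpow_of_exponent_ge hp (by linarith [norm_nonneg z]) (by linarith)
  gcongr

lemma fin_Gr {α : ℝ} (hα : 0 ≤ α) {ψ : ℕ → ℂ} {K : ℕ} (h : ∀ k, K ≤ k → ψ k = 0) :
    Gr α (∑ k ∈ range K, ‖ψ k‖) ψ := by
  intro z hz
  have h1 : ev ψ z = ∑ k ∈ range K, ψ k * z ^ k := by
    unfold ev
    apply tsum_eq_sum
    intro k hk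
    rw [h k (by simpa using hk), zero_mul]
  have h2 : ‖ev ψ z‖ ≤ ∑ k ∈ range K, ‖ψ k‖ := by
    rw [h1]
    refine (norm_sum_le _ _).trans (sum_le_sum fun k _ => ?_)
    rw [norm_mul, norm_pow]
    exact mul_le_of_le_one_right (norm_nonneg _) (pow_le_one₀ (norm_nonneg _) hz.le)
  have h3 := one_le_weight hα hz
  have h4 : 0 ≤ ∑ k ∈ range K, ‖ψ k‖ := sum_nonneg fun k _ => norm_nonneg _
  nlinarith

lemma fin_disc {ψ : ℕ → ℂ} {K : ℕ} (h : ∀ k, K ≤ k → ψ k = 0) : IsDisc ψ := by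
  intro z _
  apply summable_of_ne_finset_zero (s := range K)
  intro k hk
  rw [h k (by simpa using hk), zero_mul]

/-- For finitely supported sequences the pairing is the finite sum. -/
lemma L_finite {α : ℝ} (hα : 0 ≤ α) {ν : ℕ} {ψ : ℕ → ℂ} {K : ℕ} (h : ∀ k, K ≤ k → ψ k = 0)
    (x : B1 α (ν + 1)) : L ν ψ x.c = ∑ k ∈ range K, ψ k * x.c k := by
  have h1 := abel hα (fin_disc h) (fin_Gr hα h) x
  have h2 : ∀ r : ℝ, ∑' k, ψ k * x.c k * (r : ℂ) ^ k = ∑ k ∈ range K, ψ k * x.c k * (r : ℂ) ^ k := by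
    intro r
    apply tsum_eq_sum
    intro k hk
    rw [h k (by simpa using hk), zero_mul, zero_mul]
  simp_rw [h2] at h1
  have h3 : Tendsto (fun r : ℝ => ∑ k ∈ range K, ψ k * x.c k * (r : ℂ) ^ k) (𝓝[<] 1)
      (𝓝 (∑ k ∈ range K, ψ k * x.c k * ((1 : ℝ) : ℂ) ^ k)) := by
    have h4 : Continuous fun r : ℝ => ∑ k ∈ range K, ψ k * x.c k * (r : ℂ) ^ k := by fun_prop
    exact (h4.tendsto 1).mono_left nhdsWithin_le_nhds
  have h5 := tendsto_nhds_unique h1 h3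
  rw [h5]
  simp

lemma mono_aux {α : ℝ} {t : ℕ} (ht : α ≤ t) {x : ℝ} (hx : 0 < x) (hα : 0 ≤ α) :
    x ^ α ≤ t.factorial * Real.exp x := by
  have h1 : (1 : ℝ) ≤ t.factorial := by exact_mod_cast t.factorial_pos
  rcases le_or_gt x 1 with h | h
  · have h2 : x ^ α ≤ 1 := Real.rpow_le_one hx.le h hα
    have h3 : (1 : ℝ) ≤ Real.exp x := Real.one_le_exp hx.le
    nlinarith
  · have h2 : x ^ α ≤ x ^ t := by
      rw [← Real.rpow_natCast]
      exact Real.rpow_le_rpow_of_exponent_le h.le ht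
    have h3 := Real.pow_div_factorial_le_exp x hx.le t
    rw [div_le_iff₀ (by positivity)] at h3
    linarith

lemma mono_bound {α : ℝ} (hα : 0 ≤ α) {t : ℕ} (ht : α ≤ t) (N : ℕ) {s : ℝ} (h0 : 0 ≤ s)
    (h1 : s < 1) :
    s ^ N ≤ Real.exp 1 * t.factorial * ((N : ℝ) + 1) ^ (-α) * (1 - s) ^ (-α) := by
  have hu : 0 < 1 - s := by linarith
  have hN : (0 : ℝ) < (N : ℝ) + 1 := by positivity
  rw [← div_le_iff₀ (Real.rpow_pos_of_pos hu _), Real.rpow_neg hu.le, div_inv_eq_mul,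
    ← div_le_iff₀ (Real.rpow_pos_of_pos hN _), Real.rpow_neg hN.le, div_inv_eq_mul]
  have h2 : s ^ N ≤ Real.exp (-(N * (1 - s))) := by
    have h3 : s ≤ Real.exp (-(1 - s)) := by
      have := Real.add_one_le_exp (-(1 - s))
      linarith
    calc s ^ N ≤ (Real.exp (-(1 - s))) ^ N := by gcongr
      _ = _ := by rw [← Real.exp_nat_mul]; congr 1; ring
  have h3 := mono_aux (α := α) ht (x := ((N : ℝ) + 1) * (1 - s)) (by positivity) hα
  rw [Real.mul_rpow hN.le hu.le] at h3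
  have h4 : Real.exp (-(N * (1 - s))) * Real.exp (((N : ℝ) + 1) * (1 - s)) ≤ Real.exp 1 := by
    rw [← Real.exp_add]
    apply Real.exp_le_exp.2
    nlinarith
  have hpos1 := Real.rpow_pos_of_pos hu α
  have hpos2 := Real.rpow_pos_of_pos hN α
  calc s ^ N * (1 - s) ^ α * ((N : ℝ) + 1) ^ α
      = s ^ N * (((N : ℝ) + 1) ^ α * (1 - s) ^ α) := by ring
    _ ≤ Real.exp (-(N * (1 - s))) * (t.factorial * Real.exp (((N : ℝ) + 1) * (1 - s))) := by
        gcongr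
    _ = t.factorial * (Real.exp (-(N * (1 - s))) * Real.exp (((N : ℝ) + 1) * (1 - s))) := by ring
    _ ≤ t.factorial * Real.exp 1 := by gcongr
    _ = _ := by ring

/-- unit sequence -/
def un (N : ℕ) (k : ℕ) : ℂ := if k = N then 1 else 0

lemma un_zero {N k : ℕ} (h : N + 1 ≤ k) : un N k = 0 := by
  unfold un
  rw [if_neg (by omega)]

lemma ev_un (N : ℕ) (z : ℂ) : ev (un N) z = z ^ N := by
  unfold ev un
  rw [tsum_eq_single N]
  · simp
  · intro k hk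
    simp [hk]

lemma un_Gr {α : ℝ} (hα : 0 ≤ α) {t : ℕ} (ht : α ≤ t) (N : ℕ) :
    Gr α (Real.exp 1 * t.factorial * ((N : ℝ) + 1) ^ (-α)) (un N) := by
  intro z hz
  rw [ev_un, norm_pow]
  exact mono_bound hα ht N (norm_nonneg z) hz

lemma L_un {α : ℝ} (hα : 0 ≤ α) {ν : ℕ} (N : ℕ) (x : B1 α (ν + 1)) : L ν (un N) x.c = x.c N := by
  rw [L_finite hα (fun k hk => un_zero hk) x, sum_range_succ, sum_eq_zero]
  · simp [un]
  · intro k hk
    have : k ≠ N := by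
      have := mem_range.1 hk
      omega
    simp [un, this]

/-- the constant in the coefficient bound -/
noncomputable def cC (α : ℝ) (ν t : ℕ) : ℝ := cL α ν * (Real.exp 1 * t.factorial)

lemma cC_nonneg (α : ℝ) (ν t : ℕ) : 0 ≤ cC α ν t := by
  unfold cC
  have := cL_nonneg α ν
  positivity

lemma coord_le {α : ℝ} (hα : 0 ≤ α) {ν t : ℕ} (ht : α ≤ t) (N : ℕ) (x : B1 α (ν + 1)) :
    ‖x.c N‖ ≤ cC α ν t * ((N : ℝ) + 1) ^ (-α) * ‖x‖ := by
  have h1 := L_le hα (fin_disc (fun _ hk => un_zero (N := N) hk)) (un_Gr hα ht N) x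
  rw [L_un hα] at h1
  unfold cC
  calc ‖x.c N‖ ≤ _ := h1
    _ = _ := by ring

lemma sum_abs_le {α : ℝ} (hα : 1 ≤ α) {ν : ℕ} (x : B1 α (ν + 1)) (K : ℕ) :
    ∑ k ∈ range K, ‖x.c k‖ ≤ cL α ν * ‖x‖ := by
  have hα0 : 0 ≤ α := by linarith
  let ψ : ℕ → ℂ := fun k => if k < K then (starRingEnd ℂ) (x.c k) / (‖x.c k‖ : ℂ) else 0
  have hψ1 : ∀ k, ‖ψ k‖ ≤ 1 := by
    intro k
    simp only [ψ]
    split_ifs
    · rw [norm_div, RCLike.norm_conj, Complex.norm_real, norm_norm]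
      exact div_self_le_one _
    · simp
  have hψ2 : ∀ k, K ≤ k → ψ k = 0 := by
    intro k hk
    simp only [ψ]
    rw [if_neg (by omega)]
  have h1 := L_le hα0 (bdd_disc hψ1) (bdd_Gr hα hψ1) x
  rw [L_finite hα0 hψ2 x] at h1
  have h2 : ∑ k ∈ range K, ψ k * x.c k = ((∑ k ∈ range K, ‖x.c k‖ : ℝ) : ℂ) := by
    push_cast
    refine sum_congr rfl fun k hk => ?_
    simp only [ψ]
    rw [if_pos (mem_range.1 hk)]
    by_cases h0 : x.c k = 0
    · simp [h0]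
    · have h3 : (‖x.c k‖ : ℂ) ≠ 0 := by
        exact_mod_cast norm_ne_zero_iff.2 h0
      field_simp
      rw [mul_comm, Complex.mul_conj, Complex.normSq_eq_norm_sq]
      push_cast
      ring
  rw [h2, Complex.norm_real, Real.norm_of_nonneg (sum_nonneg fun k _ => norm_nonneg _)] at h1
  linarith

lemma summable_coord {α : ℝ} (hα : 1 ≤ α) {ν : ℕ} (x : B1 α (ν + 1)) :
    Summable fun k => ‖x.c k‖ :=
  summable_of_sum_range_le (fun k => norm_nonneg _) (fun K => sum_abs_le hα x K)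

lemma tsum_coord_le {α : ℝ} (hα : 1 ≤ α) {ν : ℕ} (x : B1 α (ν + 1)) :
    ∑' k, ‖x.c k‖ ≤ cL α ν * ‖x‖ :=
  (summable_coord hα x).tsum_le_of_sum_range_le fun K => sum_abs_le hα x K

/-! ### linearity of the pairing -/

lemma L_add {α M : ℝ} {ν : ℕ} (hα : 0 ≤ α) {ψ : ℕ → ℂ} (hψ : IsDisc ψ) (h : Gr α M ψ)
    (x y : B1 α (ν + 1)) : L ν ψ (x + y).c = L ν ψ x.c + L ν ψ y.c := by
  have hsh := h.sh hα hψ (ν + 1)
  have h1 : ∫ z in ball (0 : ℂ) 1, pint ν ψ (x + y).c z =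
      (∫ z in ball (0 : ℂ) 1, pint ν ψ x.c z) + ∫ z in ball (0 : ℂ) 1, pint ν ψ y.c z := by
    rw [← integral_add (pint_integrable hψ hsh x) (pint_integrable hψ hsh y)]
    apply setIntegral_congr_fun measurableSet_ball
    intro z hz
    have hz' : ‖z‖ < 1 := by simpa using hz
    simp only [pint]
    rw [B1.c_add, ddn_add, ev_add (x.disc.ddn _) (y.disc.ddn _) hz']
    ring
  unfold L
  rw [h1]
  have h2 : ∑ j ∈ range (ν + 1), ψ j * (x + y).c j =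
      ∑ j ∈ range (ν + 1), ψ j * x.c j + ∑ j ∈ range (ν + 1), ψ j * y.c j := by
    rw [← sum_add_distrib]
    refine sum_congr rfl fun j _ => ?_
    rw [B1.c_add, Pi.add_apply]
    ring
  rw [h2]
  ring

lemma L_smul {α : ℝ} {ν : ℕ} {ψ : ℕ → ℂ} (c : ℂ)
    (x : B1 α (ν + 1)) : L ν ψ (c • x).c = c * L ν ψ x.c := by
  have h1 : ∫ z in ball (0 : ℂ) 1, pint ν ψ (c • x).c z =
      c * ∫ z in ball (0 : ℂ) 1, pint ν ψ x.c z := by
    rw [← integral_const_mul]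
    congr 1
    ext z
    simp only [pint]
    rw [B1.c_smul, ddn_smul, ev_smul]
    ring
  unfold L
  rw [h1]
  have h2 : ∑ j ∈ range (ν + 1), ψ j * (c • x).c j = c * ∑ j ∈ range (ν + 1), ψ j * x.c j := by
    rw [mul_sum]
    refine sum_congr rfl fun j _ => ?_
    rw [B1.c_smul, Pi.smul_apply, smul_eq_mul]
    ring
  rw [h2]
  ring

/-! ### the Hankel operator -/

/-- The coefficients of the image of `x` under the Hankel operator. -/
noncomputable def hc (ν t : ℕ) (φ x : ℕ → ℂ) (m : ℕ) : ℂ :=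
  ∑' k, x k * G t φ k m + L ν (G t φ m) x

lemma G_coeff {α M : ℝ} (hα : 0 < α) {t : ℕ} (ht : α ≤ t) {φ : ℕ → ℂ} (hφ : IsDisc φ)
    (h : Gr α M φ) (k m : ℕ) : ‖G t φ k m‖ ≤ cA α * (cG α t * M) * ((m : ℝ) + 1) ^ α :=
  coeff_le hα.le (G_disc t hφ k) (Gr_G hα ht hφ h k) m

lemma summable_T1 {α M : ℝ} (hα : 1 ≤ α) {ν t : ℕ} (ht : α ≤ t) {φ : ℕ → ℂ} (hφ : IsDisc φ)
    (h : Gr α M φ) (x : B1 α (ν + 1)) (m : ℕ) : Summable fun k => x.c k * G t φ k m := by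
  have hα0 : 0 < α := by linarith
  apply Summable.of_norm_bounded
    ((summable_coord hα x).mul_right (cA α * (cG α t * M) * ((m : ℝ) + 1) ^ α))
  intro k
  rw [norm_mul]
  have := G_coeff hα0 ht hφ h k m
  gcongr

lemma T1_disc {α M : ℝ} (hα : 1 ≤ α) {ν t : ℕ} (ht : α ≤ t) {φ : ℕ → ℂ} (hφ : IsDisc φ)
    (h : Gr α M φ) (x : B1 α (ν + 1)) : IsDisc fun m => ∑' k, x.c k * G t φ k m := by
  have hα0 : 0 < α := by linarith
  apply IsDisc.of_le (C := (∑' k, ‖x.c k‖) * (cA α * (cG α t * M))) (c := α)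
  intro m
  have h1 : HasSum (fun k => ‖x.c k‖ * (cA α * (cG α t * M) * ((m : ℝ) + 1) ^ α))
      ((∑' k, ‖x.c k‖) * (cA α * (cG α t * M) * ((m : ℝ) + 1) ^ α)) :=
    (summable_coord hα x).hasSum.mul_right _
  rw [mul_assoc]
  apply tsum_of_norm_bounded h1
  intro k
  rw [norm_mul]
  have := G_coeff hα0 ht hφ h k m
  gcongr

lemma T1_Gr {α M : ℝ} (hα : 1 ≤ α) {ν t : ℕ} (ht : α ≤ t) {φ : ℕ → ℂ} (hφ : IsDisc φ)
    (h : Gr α M φ) (x : B1 α (ν + 1)) :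
    Gr α ((cG α t * M) * ∑' k, ‖x.c k‖) fun m => ∑' k, x.c k * G t φ k m := by
  have hα0 : 0 < α := by linarith
  intro z hz
  have hM := h.nonneg
  have hA := cA_pos α
  have hGn := cG_nonneg hα0 t
  have h1 : ev (fun m => ∑' k, x.c k * G t φ k m) z = ∑' k, x.c k * ev (G t φ k) z := by
    unfold ev
    have h2 : ∀ m, (∑' k, x.c k * G t φ k m) * z ^ m = ∑' k, x.c k * G t φ k m * z ^ m :=
      fun m => tsum_mul_right.symm
    have h3 : ∀ k, x.c k * ∑' m, G t φ k m * z ^ m = ∑' m, x.c k * G t φ k m * z ^ m := by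
      intro k
      rw [← tsum_mul_left]
      congr 1
      ext m
      ring
    simp_rw [h2, h3]
    apply Summable.tsum_comm
    have hs1 : Summable fun m : ℕ => cA α * (cG α t * M) * ((m : ℝ) + 1) ^ α * ‖z‖ ^ m := by
      have h4 : IsDisc fun m : ℕ => ((cA α * (cG α t * M) * ((m : ℝ) + 1) ^ α : ℝ) : ℂ) := by
        apply IsDisc.of_le (C := cA α * (cG α t * M)) (c := α)
        intro m
        rw [Complex.norm_real, Real.norm_of_nonneg (by positivity)]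
      refine (h4.abs (norm_nonneg z) hz).congr fun m => ?_
      rw [Complex.norm_real, Real.norm_of_nonneg (by positivity)]
    have hs2 := (summable_coord hα x).mul_of_nonneg hs1 (fun k => norm_nonneg _)
      (fun m => by positivity)
    apply Summable.of_norm_bounded hs2
    rintro ⟨k, m⟩
    show ‖x.c k * G t φ k m * z ^ m‖ ≤
      ‖x.c k‖ * (cA α * (cG α t * M) * ((m : ℝ) + 1) ^ α * ‖z‖ ^ m)
    rw [norm_mul, norm_mul, norm_pow]
    have := G_coeff hα0 ht hφ h k m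
    calc ‖x.c k‖ * ‖G t φ k m‖ * ‖z‖ ^ m
        ≤ ‖x.c k‖ * (cA α * (cG α t * M) * ((m : ℝ) + 1) ^ α) * ‖z‖ ^ m := by gcongr
      _ = _ := by ring
  rw [h1]
  have h4 : HasSum (fun k => ‖x.c k‖ * (cG α t * M * (1 - ‖z‖) ^ (-α)))
      ((∑' k, ‖x.c k‖) * (cG α t * M * (1 - ‖z‖) ^ (-α))) :=
    (summable_coord hα x).hasSum.mul_right _
  have h5 : ‖∑' k, x.c k * ev (G t φ k) z‖ ≤
      (∑' k, ‖x.c k‖) * (cG α t * M * (1 - ‖z‖) ^ (-α)) := by
    apply tsum_of_norm_bounded h4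
    intro k
    rw [norm_mul]
    have := Gr_G hα0 ht hφ h k z hz
    gcongr
  calc _ ≤ _ := h5
    _ = _ := by ring

lemma T2_le {α M : ℝ} (hα : 1 ≤ α) {ν t : ℕ} (ht : α ≤ t) {φ : ℕ → ℂ} (hφ : IsDisc φ)
    (h : Gr α M φ) (x : B1 α (ν + 1)) (m : ℕ) :
    ‖L ν (G t φ m) x.c‖ ≤ cL α ν * (cG α t * M) * ‖x‖ := by
  have hα0 : 0 < α := by linarith
  exact L_le hα0.le (G_disc t hφ m) (Gr_G hα0 ht hφ h m) x

/-- the constant in the bound of the Hankel operator -/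
noncomputable def cH (α : ℝ) (ν t : ℕ) (M : ℝ) : ℝ := 2 * (cL α ν * (cG α t * M))

lemma hc_add_split (ν t : ℕ) (φ x : ℕ → ℂ) :
    hc ν t φ x = (fun m => ∑' k, x k * G t φ k m) + fun m => L ν (G t φ m) x := rfl

lemma hc_disc {α M : ℝ} (hα : 1 ≤ α) {ν t : ℕ} (ht : α ≤ t) {φ : ℕ → ℂ} (hφ : IsDisc φ)
    (h : Gr α M φ) (x : B1 α (ν + 1)) : IsDisc (hc ν t φ x.c) := by
  rw [hc_add_split]
  exact (T1_disc hα ht hφ h x).add (bdd_disc fun m => T2_le hα ht hφ h x m)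

lemma Gr.add {α M N : ℝ} {a b : ℕ → ℂ} (ha : IsDisc a) (hb : IsDisc b) (h : Gr α M a)
    (h' : Gr α N b) : Gr α (M + N) (a + b) := by
  intro z hz
  rw [ev_add ha hb hz, add_mul]
  exact (norm_add_le _ _).trans (add_le_add (h z hz) (h' z hz))

lemma Gr.mono {α M N : ℝ} {a : ℕ → ℂ} (h : Gr α M a) (hMN : M ≤ N) : Gr α N a := by
  intro z hz
  have : 0 ≤ (1 - ‖z‖) ^ (-α) := Real.rpow_nonneg (by linarith) _
  exact (h z hz).trans (by gcongr)

lemma hc_Gr {α M : ℝ} (hα : 1 ≤ α) {ν t : ℕ} (ht : α ≤ t) {φ : ℕ → ℂ} (hφ : IsDisc φ)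
    (h : Gr α M φ) (x : B1 α (ν + 1)) : Gr α (cH α ν t M * ‖x‖) (hc ν t φ x.c) := by
  have hα0 : 0 < α := by linarith
  have hM := h.nonneg
  have hGn := cG_nonneg hα0 t
  rw [hc_add_split]
  have h1 := (T1_Gr hα ht hφ h x).add (T1_disc hα ht hφ h x)
    (bdd_disc fun m => T2_le hα ht hφ h x m) (bdd_Gr hα fun m => T2_le hα ht hφ h x m)
  apply h1.mono
  unfold cH
  have h2 := tsum_coord_le hα x
  calc cG α t * M * ∑' k, ‖x.c k‖ + cL α ν * (cG α t * M) * ‖x‖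
      ≤ cG α t * M * (cL α ν * ‖x‖) + cL α ν * (cG α t * M) * ‖x‖ := by gcongr
    _ = _ := by ring

/-- The coefficients of the image are the Abel sums. -/
lemma hc_abel {α M : ℝ} (hα : 1 ≤ α) {ν t : ℕ} (ht : α ≤ t) {φ : ℕ → ℂ} (hφ : IsDisc φ)
    (h : Gr α M φ) (x : B1 α (ν + 1)) (m : ℕ) :
    Tendsto (fun r : ℝ => ∑' k, φ (m + k) * x.c k * (r : ℂ) ^ k) (𝓝[<] 1)
      (𝓝 (hc ν t φ x.c m)) := by
  have hα0 : 0 < α := by linarith
  have h1 := abel hα0.le (G_disc t hφ m) (Gr_G hα0 ht hφ h m) x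
  have h2 : Tendsto (fun r : ℝ => ∑' k, x.c k * G t φ k m * (r : ℂ) ^ k) (𝓝[<] 1)
      (𝓝 (∑' k, x.c k * G t φ k m)) := by
    apply tendsto_tsum_of_dominated_convergence (summable_T1 hα ht hφ h x m).norm
    · intro k
      have h3 : Continuous fun r : ℝ => x.c k * G t φ k m * (r : ℂ) ^ k := by fun_prop
      have h4 := (h3.tendsto 1).mono_left (nhdsWithin_le_nhds (s := Set.Iio 1))
      simpa using h4
    · have h3 : ∀ᶠ r : ℝ in 𝓝[<] 1, r ∈ Set.Ioo (0 : ℝ) 1 := Ioo_mem_nhdsLT one_pos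
      filter_upwards [h3] with r hr k
      rw [norm_mul, norm_pow, Complex.norm_real, Real.norm_of_nonneg hr.1.le]
      exact mul_le_of_le_one_right (norm_nonneg _) (pow_le_one₀ hr.1.le hr.2.le)
  have h3 := h2.add h1
  refine h3.congr' ?_
  have h4 : ∀ᶠ r : ℝ in 𝓝[<] 1, r ∈ Set.Ioo (0 : ℝ) 1 := Ioo_mem_nhdsLT one_pos
  filter_upwards [h4] with r hr
  have hs1 : Summable fun k => x.c k * G t φ k m * (r : ℂ) ^ k := by
    apply Summable.of_norm_bounded (summable_T1 hα ht hφ h x m).norm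
    intro k
    rw [norm_mul, norm_pow, Complex.norm_real, Real.norm_of_nonneg hr.1.le]
    exact mul_le_of_le_one_right (norm_nonneg _) (pow_le_one₀ hr.1.le hr.2.le)
  have hs2 := (L_dil hα0.le (G_disc t hφ m) x hr.1.le hr.2).summable
  rw [← hs1.tsum_add hs2]
  congr 1
  ext k
  rw [G_add t φ k m]
  ring

/-- elements of the growth space -/
def Binf.mk' {α M : ℝ} (a : ℕ → ℂ) (ha : IsDisc a) (h : Gr α M a) : Binf α :=
  Subtype.mk a ⟨ha, M, h⟩

lemma Binf.mk'_c {α M : ℝ} (a : ℕ → ℂ) (ha : IsDisc a) (h : Gr α M a) :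
    (Binf.mk' a ha h).c = a := rfl

/-- The Hankel operator, as a linear map. -/
noncomputable def Hlin {α : ℝ} (hα : 1 ≤ α) (ν : ℕ) {t : ℕ} (ht : α ≤ t) (φ : Binf α) :
    B1 α (ν + 1) →ₗ[ℂ] Binf α where
  toFun x := Binf.mk' (hc ν t φ.c x.c) (hc_disc hα ht φ.disc φ.gr x) (hc_Gr hα ht φ.disc φ.gr x)
  map_add' := by
    intro x y
    apply Binf.ext'
    rw [Binf.c_add, Binf.mk'_c, Binf.mk'_c, Binf.mk'_c]
    ext m
    rw [Pi.add_apply]
    unfold hc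
    have hα0 : 0 < α := by linarith
    rw [L_add hα0.le (G_disc t φ.disc m) (Gr_G hα0 ht φ.disc φ.gr m)]
    have h1 : ∑' k, (x + y).c k * G t φ.c k m =
        ∑' k, x.c k * G t φ.c k m + ∑' k, y.c k * G t φ.c k m := by
      rw [← (summable_T1 hα ht φ.disc φ.gr x m).tsum_add (summable_T1 hα ht φ.disc φ.gr y m)]
      congr 1
      ext k
      rw [B1.c_add, Pi.add_apply]
      ring
    rw [h1]
    ring
  map_smul' := by
    intro c x
    apply Binf.ext'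
    rw [RingHom.id_apply, Binf.c_smul, Binf.mk'_c, Binf.mk'_c]
    ext m
    rw [Pi.smul_apply, smul_eq_mul]
    unfold hc
    rw [L_smul]
    have h1 : ∑' k, (c • x).c k * G t φ.c k m = c * ∑' k, x.c k * G t φ.c k m := by
      rw [← tsum_mul_left]
      congr 1
      ext k
      rw [B1.c_smul, Pi.smul_apply, smul_eq_mul]
      ring
    rw [h1]
    ring

/-- The Hankel operator. -/
noncomputable def Hop {α : ℝ} (hα : 1 ≤ α) (ν : ℕ) {t : ℕ} (ht : α ≤ t) (φ : Binf α) :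
    B1 α (ν + 1) →L[ℂ] Binf α :=
  (Hlin hα ν ht φ).mkContinuous (cH α ν t ‖φ‖) fun x =>
    Binf.norm_le (hc_Gr hα ht φ.disc φ.gr x)

lemma Hop_c {α : ℝ} (hα : 1 ≤ α) (ν : ℕ) {t : ℕ} (ht : α ≤ t) (φ : Binf α) (x : B1 α (ν + 1)) :
    (Hop hα ν ht φ x).c = hc ν t φ.c x.c := rfl

/-- `H` is the Hankel operator of symbol `φ`: for every `x` and `m` the `m`-th coefficient of
`H x` is the sum `∑_k φ̂(m + k) x̂(k)`, taken in the sense of Abel: the series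
`∑_k φ̂(m + k) x̂(k) r^k` converges for `0 ≤ r < 1`, and its sum tends to the `m`-th coefficient
of `H x` as `r` increases to `1`. (For polynomials `x` this is the finite sum.) -/
def IsHankel {α : ℝ} {n : ℕ} (φ : Binf α) (H : B1 α n →L[ℂ] Binf α) : Prop :=
  ∀ (x : B1 α n) (m : ℕ),
    (∀ r : ℝ, 0 ≤ r → r < 1 → Summable fun k => φ.c (m + k) * x.c k * (r : ℂ) ^ k) ∧
    Tendsto (fun r : ℝ => ∑' k, φ.c (m + k) * x.c k * (r : ℂ) ^ k) (𝓝[<] 1) (𝓝 ((H x).c m))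

lemma IsHankel_Hop {α : ℝ} (hα : 1 ≤ α) (ν : ℕ) {t : ℕ} (ht : α ≤ t) (φ : Binf α) :
    IsHankel φ (Hop hα ν ht φ) := fun x m =>
  ⟨fun r h0 h1 => by
    have h := (L_dil (by linarith) (φ.disc.sh m) x h0 h1).summable
    refine h.congr fun k => ?_
    unfold sh
    rw [add_comm k m], hc_abel hα ht φ.disc φ.gr x m⟩

lemma IsHankel.unique {α : ℝ} {n : ℕ} {φ : Binf α} {H H' : B1 α n →L[ℂ] Binf α}
    (h : IsHankel φ H) (h' : IsHankel φ H') : H = H' := by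
  ext x
  apply Binf.ext'
  ext m
  exact tendsto_nhds_unique (h x m).2 (h' x m).2

theorem exists_unique_hankel {α : ℝ} (hα : 1 ≤ α) {n : ℕ} (hn : α < n) (φ : Binf α) :
    ∃! H : B1 α n →L[ℂ] Binf α, IsHankel φ H := by
  obtain ⟨t, ht⟩ := exists_nat_ge α
  obtain ⟨ν, rfl⟩ : ∃ ν, n = ν + 1 := by
    cases n with
    | zero => simp at hn; linarith
    | succ ν => exact ⟨ν, rfl⟩
  exact ⟨Hop hα ν ht φ, IsHankel_Hop hα ν ht φ, fun H' h' => h'.unique (IsHankel_Hop hα ν ht φ)⟩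

end Pool.Agent.H758R2.Besov
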