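import Pool.Agent.H758R2.Besov.Polar

set_option autoImplicit false

open Finset Metric Filter Topology MeasureTheory Real

namespace Pool.Agent.H758R2.Besov

lemma one_sub_ne {w : ℂ} (hw : ‖w‖ < 1) : 1 - w ≠ 0 := by
  intro h
  have : w = 1 := by linear_combination -h
  rw [this] at hw
  simp at hw

lemma one_sub_norm_le {w : ℂ} : 1 - ‖w‖ ≤ ‖1 - w‖ := by
  have := norm_sub_norm_le (1 : ℂ) w
  simpa using this

/-- coefficients of `(1 + c z) / (1 - c z)` -/
noncomputable def pc (c : ℂ) (k : ℕ) : ℂ := if k = 0 then 1 else 2 * c ^ k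

lemma pc_disc {c : ℂ} (hc : ‖c‖ ≤ 1) : IsDisc (pc c) := by
  apply IsDisc.of_le (C := 2) (c := 0)
  intro k
  rw [Real.rpow_zero, mul_one]
  unfold pc
  split_ifs
  · simp
  · rw [norm_mul, norm_pow]
    have := pow_le_one₀ (n := k) (norm_nonneg c) hc
    simp
    linarith

lemma ev_pc {c z : ℂ} (h : ‖c * z‖ < 1) : ev (pc c) z = (1 + c * z) / (1 - c * z) := by
  unfold ev
  have h1 : HasSum (fun k : ℕ => (c * z) ^ k) (1 - c * z)⁻¹ := hasSum_geometric_of_norm_lt_one h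
  have h2 := (h1.mul_left 2).sub (hasSum_ite_eq (0 : ℕ) (1 : ℂ))
  have h3 : (fun k : ℕ => 2 * (c * z) ^ k - if k = 0 then (1 : ℂ) else 0)
      = fun k => pc c k * z ^ k := by
    ext k
    unfold pc
    split_ifs with hk
    · subst hk; simp; norm_num
    · rw [mul_pow]; ring
  rw [h3] at h2
  rw [h2.tsum_eq]
  have := one_sub_ne h
  field_simp
  ring

/-- The integral of the Poisson kernel. -/
lemma poisson {c : ℂ} (hc : ‖c‖ ≤ 1) {r : ℝ} (h0 : 0 ≤ r) (h1 : r < 1) :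
    ∫ θ in (-π)..π, (‖1 - c * circleMap 0 r θ‖ ^ 2)⁻¹ = 2 * π / (1 - (‖c‖ * r) ^ 2) := by
  have hcr : ‖c‖ * r < 1 := by nlinarith [norm_nonneg c]
  have hw : ∀ θ : ℝ, ‖c * circleMap 0 r θ‖ = ‖c‖ * r := by
    intro θ
    rw [norm_mul, norm_circleMap_zero, abs_of_nonneg h0]
  have h2 := circle_coeff (pc_disc hc) h0 h1 0
  simp only [pow_zero, mul_one, mul_zero] at h2
  have h3 : pc c 0 = 1 := by simp [pc]
  rw [h3, mul_one] at h2
  have hcont : Continuous fun θ : ℝ => (1 + c * circleMap 0 r θ) / (1 - c * circleMap 0 r θ) := by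
    have hcm : Continuous fun θ : ℝ => circleMap 0 r θ := continuous_circleMap 0 r
    apply Continuous.div (by fun_prop) (by fun_prop)
    intro θ
    exact one_sub_ne (by rw [hw]; exact hcr)
  have h4 : ∀ θ : ℝ, ev (pc c) (circleMap 0 r θ) =
      (1 + c * circleMap 0 r θ) / (1 - c * circleMap 0 r θ) :=
    fun θ => ev_pc (by rw [hw]; exact hcr)
  simp_rw [h4] at h2
  have h5 : (∫ θ in (-π)..π, ((1 + c * circleMap 0 r θ) / (1 - c * circleMap 0 r θ)).re)
      = 2 * π := by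
    have h6 := Complex.reCLM.intervalIntegral_comp_comm
      (hcont.intervalIntegrable (μ := volume) (-π) π)
    simp only [Complex.reCLM_apply] at h6
    rw [h6, h2]
    simp
  have hpos : 0 < 1 - (‖c‖ * r) ^ 2 := by
    have : 0 ≤ ‖c‖ * r := by positivity
    nlinarith
  have h7 : ∀ θ : ℝ, ((1 + c * circleMap 0 r θ) / (1 - c * circleMap 0 r θ)).re
      = (1 - (‖c‖ * r) ^ 2) * (‖1 - c * circleMap 0 r θ‖ ^ 2)⁻¹ := by
    intro θ
    rw [← hw θ, ← Complex.normSq_eq_norm_sq, ← Complex.normSq_eq_norm_sq]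
    set w := c * circleMap 0 r θ
    rw [Complex.div_re]
    simp only [Complex.normSq_apply, Complex.add_re, Complex.one_re, Complex.sub_re,
      Complex.add_im, Complex.one_im, Complex.sub_im]
    ring
  simp_rw [h7] at h5
  rw [intervalIntegral.integral_const_mul] at h5
  rw [eq_div_iff hpos.ne', mul_comm]
  exact h5

lemma radial {β s : ℝ} (hβ : 0 < β) (h0 : 0 ≤ s) (h1 : s < 1) :
    ∫ r in (0 : ℝ)..1, (1 - s * r) ^ (-(β + 1)) ≤ (2 / β + 2 ^ (β + 1)) * (1 - s) ^ (-β) := by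
  have hpos : ∀ r ∈ Set.Icc (0 : ℝ) 1, 0 < 1 - s * r := by
    intro r hr
    have := hr.1
    have := hr.2
    nlinarith
  have hs : 0 < 1 - s := by linarith
  have hB : 0 < (1 - s) ^ (-β) := Real.rpow_pos_of_pos hs _
  have hcont : ContinuousOn (fun r : ℝ => (1 - s * r) ^ (-(β + 1))) (Set.Icc 0 1) := by
    apply ContinuousOn.rpow_const (by fun_prop)
    intro r hr
    exact Or.inl (hpos r hr).ne'
  have hint : IntervalIntegrable (fun r : ℝ => (1 - s * r) ^ (-(β + 1))) volume 0 1 := by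
    apply ContinuousOn.intervalIntegrable
    rwa [Set.uIcc_of_le zero_le_one]
  rcases le_or_gt s (1 / 2) with h | h
  · have h2 : ∫ r in (0 : ℝ)..1, (1 - s * r) ^ (-(β + 1)) ≤ ∫ r in (0 : ℝ)..1, (2 : ℝ) ^ (β + 1) := by
      apply intervalIntegral.integral_mono_on zero_le_one hint (by simp)
      intro r hr
      have h3 : (1 / 2 : ℝ) ≤ 1 - s * r := by
        have := hr.1
        have := hr.2
        nlinarith
      rw [Real.rpow_neg (hpos r hr).le]
      have h4 : ((1 / 2 : ℝ)) ^ (β + 1) ≤ (1 - s * r) ^ (β + 1) :=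
        Real.rpow_le_rpow (by norm_num) h3 (by linarith)
      calc ((1 - s * r) ^ (β + 1))⁻¹ ≤ ((1 / 2 : ℝ) ^ (β + 1))⁻¹ := by
            apply inv_anti₀ (by positivity) h4
        _ = 2 ^ (β + 1) := by
            rw [one_div, Real.inv_rpow (by norm_num), inv_inv]
    rw [intervalIntegral.integral_const] at h2
    simp only [sub_zero, one_smul] at h2
    have h5 : (1 : ℝ) ≤ (1 - s) ^ (-β) := by
      apply Real.one_le_rpow_of_pos_of_le_one_of_nonpos hs (by linarith) (by linarith)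
    have h6 : (0 : ℝ) < 2 ^ (β + 1) := by positivity
    have h7 : 0 < 2 / β := by positivity
    nlinarith
  · have hs0 : 0 < s := by linarith
    have hderiv : ∀ r ∈ Set.uIcc (0 : ℝ) 1, HasDerivAt (fun r : ℝ => (1 - s * r) ^ (-β) / (β * s))
        ((1 - s * r) ^ (-(β + 1))) r := by
      intro r hr
      rw [Set.uIcc_of_le zero_le_one] at hr
      have h2 : HasDerivAt (fun r : ℝ => 1 - s * r) (-s) r := by
        have := ((hasDerivAt_id r).const_mul s).const_sub 1
        simpa using this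
      have h3 := (h2.rpow_const (p := -β) (Or.inl (hpos r hr).ne')).div_const (β * s)
      refine h3.congr_deriv ?_
      rw [show -β - 1 = -(β + 1) by ring]
      field_simp
    rw [intervalIntegral.integral_eq_sub_of_hasDerivAt hderiv hint]
    simp only [mul_one, mul_zero, sub_zero, Real.one_rpow]
    have h4 : (1 - s) ^ (-β) / (β * s) ≤ (2 / β) * (1 - s) ^ (-β) := by
      rw [div_le_iff₀ (by positivity)]
      have : 2 / β * (1 - s) ^ (-β) * (β * s) = 2 * s * (1 - s) ^ (-β) := by field_simp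
      rw [this]
      nlinarith
    have h5 : 0 ≤ 1 / (β * s) := by positivity
    have h6 : (0 : ℝ) < 2 ^ (β + 1) := by positivity
    nlinarith [mul_pos h6 hB]

/-- the constant in the next lemma -/
noncomputable def KJ (β : ℝ) : ℝ := 2 * π * (2 / β + 2 ^ (β + 1))

lemma KJ_pos {β : ℝ} (hβ : 0 < β) : 0 < KJ β := by
  unfold KJ
  have := Real.pi_pos
  positivity

lemma kernel_continuousOn {β : ℝ} {ζ : ℂ} (hζ : ‖ζ‖ < 1) :
    ContinuousOn (fun z : ℂ => ‖1 - ζ * z‖ ^ (-(β + 2))) (closedBall 0 1) := by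
  apply ContinuousOn.rpow_const (by fun_prop)
  intro z hz
  left
  have hz' : ‖z‖ ≤ 1 := by simpa using hz
  have : ‖ζ * z‖ < 1 := by
    rw [norm_mul]
    nlinarith [norm_nonneg ζ, norm_nonneg z]
  exact norm_ne_zero_iff.2 (one_sub_ne this)

lemma kernel_integrable {β : ℝ} {ζ : ℂ} (hζ : ‖ζ‖ < 1) :
    IntegrableOn (fun z : ℂ => ‖1 - ζ * z‖ ^ (-(β + 2))) (ball 0 1) :=
  ((kernel_continuousOn hζ).integrableOn_compact (isCompact_closedBall 0 1)).mono_set
    ball_subset_closedBall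

/-- The area integral of the kernel. -/
lemma kernel_integral {β : ℝ} (hβ : 0 < β) {ζ : ℂ} (hζ : ‖ζ‖ < 1) :
    ∫ z in ball (0 : ℂ) 1, ‖1 - ζ * z‖ ^ (-(β + 2)) ≤ KJ β * (1 - ‖ζ‖) ^ (-β) := by
  rw [polar_ball _ one_pos (kernel_continuousOn hζ)]
  have hpi : -π ≤ π := by linarith [Real.pi_pos]
  have hpos : ∀ r ∈ Set.Icc (0 : ℝ) 1, 0 < 1 - ‖ζ‖ * r := by
    intro r hr
    have := hr.1
    have := hr.2
    nlinarith [norm_nonneg ζ]
  have hint2 : IntervalIntegrable (fun r : ℝ => 2 * π * (1 - ‖ζ‖ * r) ^ (-(β + 1))) volume 0 1 := by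
    apply ContinuousOn.intervalIntegrable
    rw [Set.uIcc_of_le zero_le_one]
    apply ContinuousOn.mul continuousOn_const
    apply ContinuousOn.rpow_const (by fun_prop)
    intro r hr
    exact Or.inl (hpos r hr).ne'
  have key : ∀ r ∈ Set.Ioo (0 : ℝ) 1,
      ∫ θ in (-π)..π, r • ‖1 - ζ * circleMap 0 r θ‖ ^ (-(β + 2))
        ≤ 2 * π * (1 - ‖ζ‖ * r) ^ (-(β + 1)) := by
    intro r hr
    have hp := hpos r ⟨hr.1.le, hr.2.le⟩
    have hcm : Continuous fun θ : ℝ => circleMap 0 r θ := continuous_circleMap 0 r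
    have hne : ∀ θ : ℝ, ‖1 - ζ * circleMap 0 r θ‖ ≠ 0 := by
      intro θ
      apply norm_ne_zero_iff.2
      apply one_sub_ne
      rw [norm_mul, norm_circleMap_zero, abs_of_pos hr.1]
      linarith
    have hlow : ∀ θ : ℝ, 1 - ‖ζ‖ * r ≤ ‖1 - ζ * circleMap 0 r θ‖ := by
      intro θ
      have := @one_sub_norm_le (ζ * circleMap 0 r θ)
      rwa [norm_mul, norm_circleMap_zero, abs_of_pos hr.1] at this
    calc ∫ θ in (-π)..π, r • ‖1 - ζ * circleMap 0 r θ‖ ^ (-(β + 2))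
        ≤ ∫ θ in (-π)..π, (1 - ‖ζ‖ * r) ^ (-β) * (‖1 - ζ * circleMap 0 r θ‖ ^ 2)⁻¹ := by
          apply intervalIntegral.integral_mono_on hpi
          · apply Continuous.intervalIntegrable
            simp only [smul_eq_mul]
            apply Continuous.mul continuous_const
            apply Continuous.rpow_const (by fun_prop)
            intro θ
            exact Or.inl (hne θ)
          · apply Continuous.intervalIntegrable
            apply Continuous.mul continuous_const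
            apply Continuous.inv₀ (by fun_prop)
            intro θ
            exact pow_ne_zero _ (hne θ)
          · intro θ _
            have hn := lt_of_le_of_ne (norm_nonneg _) (hne θ).symm
            have e1 : ‖1 - ζ * circleMap 0 r θ‖ ^ (-(β + 2))
                = ‖1 - ζ * circleMap 0 r θ‖ ^ (-β) * (‖1 - ζ * circleMap 0 r θ‖ ^ 2)⁻¹ := by
              rw [neg_add, Real.rpow_add hn, Real.rpow_neg hn.le 2]
              norm_num
            have e2 : ‖1 - ζ * circleMap 0 r θ‖ ^ (-β) ≤ (1 - ‖ζ‖ * r) ^ (-β) :=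
              Real.rpow_le_rpow_of_nonpos hp (hlow θ) (by linarith)
            have e3 : 0 ≤ ‖1 - ζ * circleMap 0 r θ‖ ^ (-(β + 2)) := by positivity
            calc r • ‖1 - ζ * circleMap 0 r θ‖ ^ (-(β + 2))
                ≤ ‖1 - ζ * circleMap 0 r θ‖ ^ (-(β + 2)) := by
                  rw [smul_eq_mul]
                  nlinarith [hr.2]
              _ ≤ _ := by
                  rw [e1]
                  gcongr
      _ = (1 - ‖ζ‖ * r) ^ (-β) * (2 * π / (1 - (‖ζ‖ * r) ^ 2)) := by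
          rw [intervalIntegral.integral_const_mul, poisson hζ.le hr.1.le hr.2]
      _ ≤ (1 - ‖ζ‖ * r) ^ (-β) * (2 * π / (1 - ‖ζ‖ * r)) := by
          have h2 : 1 - ‖ζ‖ * r ≤ 1 - (‖ζ‖ * r) ^ 2 := by
            have : 0 ≤ ‖ζ‖ * r := mul_nonneg (norm_nonneg _) hr.1.le
            nlinarith
          have h3 : 0 ≤ (1 - ‖ζ‖ * r) ^ (-β) := Real.rpow_nonneg hp.le _
          have h4 : 0 ≤ 2 * π := by linarith [Real.pi_pos]
          gcongr
      _ = 2 * π * (1 - ‖ζ‖ * r) ^ (-(β + 1)) := by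
          rw [neg_add, Real.rpow_add hp, Real.rpow_neg_one]
          ring
  calc ∫ r in (0 : ℝ)..1, ∫ θ in (-π)..π, r • ‖1 - ζ * circleMap 0 r θ‖ ^ (-(β + 2))
      ≤ ∫ r in (0 : ℝ)..1, 2 * π * (1 - ‖ζ‖ * r) ^ (-(β + 1)) := by
        apply intervalIntegral.integral_mono_on_of_le_Ioo zero_le_one
          (polar_intervalIntegrable _ one_pos (kernel_continuousOn hζ)) hint2 key
    _ = 2 * π * ∫ r in (0 : ℝ)..1, (1 - ‖ζ‖ * r) ^ (-(β + 1)) := by
        rw [intervalIntegral.integral_const_mul]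
    _ ≤ 2 * π * ((2 / β + 2 ^ (β + 1)) * (1 - ‖ζ‖) ^ (-β)) := by
        have := Real.pi_pos
        gcongr
        exact radial hβ (norm_nonneg _) hζ
    _ = _ := by unfold KJ; ring

lemma beta_real (k ν : ℕ) :
    ∫ t in (0 : ℝ)..1, ((t : ℂ) ^ k * (1 - (t : ℂ)) ^ ν) =
      (ν.factorial : ℂ) / ((k + 1).ascFactorial (ν + 1) : ℂ) := by
  have h1 := Complex.betaIntegral_eval_nat_add_one_right (u := (k : ℂ) + 1)
    (by simp; positivity) ν
  have h2 : ∏ j ∈ range (ν + 1), ((k : ℂ) + 1 + j) = ((k + 1).ascFactorial (ν + 1) : ℂ) := by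
    rw [Nat.ascFactorial_eq_prod_range]
    push_cast
    rfl
  rw [h2] at h1
  rw [← h1, Complex.betaIntegral]
  apply intervalIntegral.integral_congr
  intro t _
  simp only [add_sub_cancel_right, Complex.cpow_natCast]

lemma radial_moment (k ν : ℕ) :
    ∫ r in (0 : ℝ)..1, ((r : ℂ) ^ (2 * k + 1) * (1 - (r : ℂ) ^ 2) ^ ν) =
      (ν.factorial : ℂ) / (2 * ((k + 1).ascFactorial (ν + 1) : ℂ)) := by
  have h1 := intervalIntegral.integral_deriv_smul_comp (a := (0 : ℝ)) (b := 1)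
    (f := fun r : ℝ => r ^ 2) (f' := fun r => 2 * r)
    (g := fun t : ℝ => ((t : ℂ) ^ k * (1 - (t : ℂ)) ^ ν))
    (fun x _ => by simpa using hasDerivAt_pow 2 x) (by fun_prop) (by fun_prop)
  simp only [Function.comp_def] at h1
  norm_num at h1
  rw [beta_real] at h1
  have h2 : ∀ r : ℝ, ((r : ℂ) ^ (2 * k + 1) * (1 - (r : ℂ) ^ 2) ^ ν)
      = (1 / 2 : ℂ) * (2 * (r : ℂ) * (((r : ℂ) ^ 2) ^ k * (1 - (r : ℂ) ^ 2) ^ ν)) := by
    intro r
    rw [← pow_mul, pow_succ]
    ring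
  simp_rw [h2]
  rw [intervalIntegral.integral_const_mul, h1]
  have : (((k + 1).ascFactorial (ν + 1) : ℕ) : ℂ) ≠ 0 := by
    exact_mod_cast (Nat.ascFactorial_pos _ _).ne'
  field_simp

/-- The moments on a smaller disc. -/
lemma area_moment_R (ν : ℕ) {a : ℕ → ℂ} (ha : IsDisc a) (k : ℕ) {R : ℝ} (h0 : 0 < R) (h1 : R < 1) :
    ∫ z in ball (0 : ℂ) R, ev a z * (starRingEnd ℂ) z ^ k * ((1 - ‖z‖ ^ 2 : ℝ) : ℂ) ^ ν
      = 2 * π * a k * ∫ r in (0 : ℝ)..R, ((r : ℂ) ^ (2 * k + 1) * (1 - (r : ℂ) ^ 2) ^ ν) := by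
  have hcont : ContinuousOn (fun z : ℂ => ev a z * (starRingEnd ℂ) z ^ k *
      ((1 - ‖z‖ ^ 2 : ℝ) : ℂ) ^ ν) (closedBall 0 R) := by
    apply ContinuousOn.mul
    · apply ContinuousOn.mul
      · exact (continuousOn_ev ha).mono (closedBall_subset_ball h1)
      · have : Continuous fun z : ℂ => (starRingEnd ℂ) z ^ k := by
          have := Complex.continuous_conj
          fun_prop
        exact this.continuousOn
    · have : Continuous fun z : ℂ => ((1 - ‖z‖ ^ 2 : ℝ) : ℂ) ^ ν := by fun_prop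
      exact this.continuousOn
  rw [polar_ball _ h0 hcont, ← intervalIntegral.integral_const_mul]
  apply intervalIntegral.integral_congr
  intro r hr
  rw [Set.uIcc_of_le h0.le] at hr
  simp only
  have h2 : ∀ θ : ℝ, r • (ev a (circleMap 0 r θ) * (starRingEnd ℂ) (circleMap 0 r θ) ^ k *
      ((1 - ‖circleMap 0 r θ‖ ^ 2 : ℝ) : ℂ) ^ ν)
      = ((r : ℂ) * (1 - (r : ℂ) ^ 2) ^ ν) *
        (ev a (circleMap 0 r θ) * (starRingEnd ℂ) (circleMap 0 r θ) ^ k) := by
    intro θ
    rw [norm_circleMap_zero, sq_abs, Complex.real_smul]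
    push_cast
    ring
  simp_rw [h2]
  rw [intervalIntegral.integral_const_mul, circle_coeff ha hr.1 (by linarith [hr.2]) k]
  rw [pow_succ]
  ring

/-- The moments of an analytic function with respect to the area measure. -/
lemma area_moment (ν : ℕ) {a : ℕ → ℂ} (ha : IsDisc a) (k : ℕ)
    (hint : IntegrableOn (fun z : ℂ => ev a z * (starRingEnd ℂ) z ^ k *
      ((1 - ‖z‖ ^ 2 : ℝ) : ℂ) ^ ν) (ball 0 1)) :
    ∫ z in ball (0 : ℂ) 1, ev a z * (starRingEnd ℂ) z ^ k * ((1 - ‖z‖ ^ 2 : ℝ) : ℂ) ^ ν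
      = a k * (π * ν.factorial / ((k + 1).ascFactorial (ν + 1) : ℂ)) := by
  let s : ℕ → Set ℂ := fun m => ball 0 (1 - 1 / ((m : ℝ) + 2))
  have hs : ⋃ m, s m = ball (0 : ℂ) 1 := by
    ext z
    simp only [s, Set.mem_iUnion, mem_ball_zero_iff]
    constructor
    · rintro ⟨m, hm⟩
      have : (0 : ℝ) < 1 / ((m : ℝ) + 2) := by positivity
      linarith
    · intro hz
      obtain ⟨m, hm⟩ := exists_nat_gt (1 / (1 - ‖z‖))
      refine ⟨m, ?_⟩
      have h3 : 0 < 1 - ‖z‖ := by linarith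
      rw [div_lt_iff₀ h3] at hm
      have h4 : (0 : ℝ) < (m : ℝ) + 2 := by positivity
      have h5 : 1 / ((m : ℝ) + 2) < 1 - ‖z‖ := by
        rw [div_lt_iff₀ h4]
        nlinarith
      linarith
  have hmono : Monotone s := by
    intro m m' h
    apply ball_subset_ball
    have : (m : ℝ) ≤ m' := by exact_mod_cast h
    have h2 : 1 / ((m' : ℝ) + 2) ≤ 1 / ((m : ℝ) + 2) := by
      apply one_div_le_one_div_of_le (by positivity)
      linarith
    linarith
  have hlim1 := tendsto_setIntegral_of_monotone (μ := volume) (s := s)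
    (f := fun z : ℂ => ev a z * (starRingEnd ℂ) z ^ k * ((1 - ‖z‖ ^ 2 : ℝ) : ℂ) ^ ν)
    (fun m => measurableSet_ball) hmono (by rw [hs]; exact hint)
  rw [hs] at hlim1
  have hR : Tendsto (fun m : ℕ => 1 - 1 / ((m : ℝ) + 2)) atTop (𝓝 1) := by
    have h1 : Tendsto (fun m : ℕ => 1 / ((m : ℝ) + 2)) atTop (𝓝 0) := by
      have := tendsto_one_div_add_atTop_nhds_zero_nat (𝕜 := ℝ)
      have h2 := (tendsto_add_atTop_iff_nat 1).2 this
      refine h2.congr fun m => ?_
      push_cast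
      ring
    simpa using h1.const_sub 1
  have hcont : Continuous fun R : ℝ =>
      ∫ r in (0 : ℝ)..R, ((r : ℂ) ^ (2 * k + 1) * (1 - (r : ℂ) ^ 2) ^ ν) := by
    apply intervalIntegral.continuous_primitive
    intro a b
    apply Continuous.intervalIntegrable
    fun_prop
  have hlim2 : Tendsto (fun m : ℕ => 2 * π * a k *
      ∫ r in (0 : ℝ)..(1 - 1 / ((m : ℝ) + 2)), ((r : ℂ) ^ (2 * k + 1) * (1 - (r : ℂ) ^ 2) ^ ν))
      atTop (𝓝 (2 * π * a k *
        ∫ r in (0 : ℝ)..1, ((r : ℂ) ^ (2 * k + 1) * (1 - (r : ℂ) ^ 2) ^ ν))) :=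
    ((hcont.tendsto 1).comp hR).const_mul _
  rw [radial_moment] at hlim2
  have heq : ∀ m : ℕ, ∫ z in s m, ev a z * (starRingEnd ℂ) z ^ k *
      ((1 - ‖z‖ ^ 2 : ℝ) : ℂ) ^ ν = 2 * π * a k *
      ∫ r in (0 : ℝ)..(1 - 1 / ((m : ℝ) + 2)), ((r : ℂ) ^ (2 * k + 1) * (1 - (r : ℂ) ^ 2) ^ ν) := by
    intro m
    apply area_moment_R ν ha k
    · have : 1 / ((m : ℝ) + 2) ≤ 1 / 2 := by
        apply one_div_le_one_div_of_le (by norm_num)
        linarith [(Nat.cast_nonneg m : (0:ℝ) ≤ m)]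
      linarith
    · have : (0 : ℝ) < 1 / ((m : ℝ) + 2) := by positivity
      linarith
  simp_rw [heq] at hlim1
  rw [tendsto_nhds_unique hlim1 hlim2]
  have : (((k + 1).ascFactorial (ν + 1) : ℕ) : ℂ) ≠ 0 := by
    exact_mod_cast (Nat.ascFactorial_pos _ _).ne'
  field_simp

end Pool.Agent.H758R2.Besov
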