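import Pool.Agent.H758R2.Besov.Pairing

set_option autoImplicit false

open Finset Metric Filter Topology MeasureTheory Real

namespace Pool.Agent.H758R2.Besov

/-! ### rising factorials -/

lemma rising_add (a b p : ℕ) :
    (a + b).ascFactorial p =
      ∑ ij ∈ antidiagonal p, p.choose ij.1 * (a.ascFactorial ij.1 * b.ascFactorial ij.2) := by
  induction p with
  | zero => simp
  | succ p ih =>
    have h := Finset.sum_antidiagonal_choose_succ_mul (R := ℕ)
      (fun i j => a.ascFactorial i * b.ascFactorial j) p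
    simp only [Nat.cast_id] at h
    rw [h, Nat.ascFactorial_succ, ih, mul_sum, ← sum_add_distrib]
    refine sum_congr rfl fun ij hij => ?_
    have hp := HasAntidiagonal.mem_antidiagonal.1 hij
    have hc : p.choose ij.2 = p.choose ij.1 := by
      rw [← hp]
      exact Nat.choose_symm_add.symm
    rw [hc, Nat.ascFactorial_succ, Nat.ascFactorial_succ, ← hp]
    ring

lemma gen_rising (i : ℕ) {v : ℂ} (hv : ‖v‖ < 1) :
    HasSum (fun m : ℕ => ((m + 1).ascFactorial i : ℂ) * v ^ m)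
      ((i.factorial : ℂ) / (1 - v) ^ (i + 1)) := by
  have h := (hasSum_choose_mul_geometric_of_norm_lt_one i hv).mul_left (i.factorial : ℂ)
  rw [mul_one_div] at h
  refine h.congr_fun fun m => ?_
  rw [Nat.ascFactorial_eq_factorial_mul_choose]
  push_cast
  ring

lemma rising_le (k j : ℕ) {s : ℝ} (h0 : 0 ≤ s) (h1 : s < 1) :
    ((k + 1).ascFactorial j : ℝ) * s ^ k * (1 - s) ^ j ≤ j.factorial := by
  have h2 : ((k + j).choose k : ℝ) * s ^ k * (1 - s) ^ j ≤ 1 := by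
    have h3 := add_pow s (1 - s) (k + j)
    rw [add_sub_cancel, one_pow] at h3
    have h4 : s ^ k * (1 - s) ^ (k + j - k) * ((k + j).choose k : ℝ) ≤ 1 := by
      refine le_of_le_of_eq ?_ h3.symm
      apply Finset.single_le_sum
        (f := fun m => s ^ m * (1 - s) ^ (k + j - m) * ((k + j).choose m : ℝ))
      · intro m _
        have : 0 ≤ 1 - s := by linarith
        positivity
      · rw [Finset.mem_range]; omega
    rw [Nat.add_sub_cancel_left] at h4
    linarith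
  rw [Nat.ascFactorial_eq_factorial_mul_choose]
  have h5 : (k + j).choose j = (k + j).choose k := Nat.choose_symm_add.symm
  rw [h5]
  push_cast
  have h6 : (0 : ℝ) < j.factorial := by exact_mod_cast j.factorial_pos
  calc (j.factorial : ℝ) * ((k + j).choose k : ℝ) * s ^ k * (1 - s) ^ j
      = j.factorial * (((k + j).choose k : ℝ) * s ^ k * (1 - s) ^ j) := by ring
    _ ≤ j.factorial * 1 := by gcongr
    _ = _ := mul_one _

/-! ### the splitting -/

/-- The splitting function. -/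
noncomputable def U (t m k : ℕ) : ℝ :=
  ∑ ij ∈ (antidiagonal (2 * t + 1)).filter (fun ij => ij.2 ≤ t),
    ((2 * t + 1).choose ij.1 : ℝ) * (((m + 1).ascFactorial ij.1 : ℝ) *
      ((k + 1).ascFactorial ij.2 : ℝ)) / ((m + k + 2).ascFactorial (2 * t + 1) : ℝ)

lemma U_nonneg (t m k : ℕ) : 0 ≤ U t m k := by
  unfold U
  exact sum_nonneg fun ij _ => by positivity

lemma U_swap (t m k : ℕ) : U t k m =
    ∑ ij ∈ (antidiagonal (2 * t + 1)).filter (fun ij => ¬ ij.2 ≤ t),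
    ((2 * t + 1).choose ij.1 : ℝ) * (((m + 1).ascFactorial ij.1 : ℝ) *
      ((k + 1).ascFactorial ij.2 : ℝ)) / ((m + k + 2).ascFactorial (2 * t + 1) : ℝ) := by
  unfold U
  refine Finset.sum_nbij' Prod.swap Prod.swap ?_ ?_ ?_ ?_ ?_
  · rintro ⟨i, j⟩ h
    simp only [mem_filter, HasAntidiagonal.mem_antidiagonal, Prod.swap] at h ⊢
    omega
  · rintro ⟨i, j⟩ h
    simp only [mem_filter, HasAntidiagonal.mem_antidiagonal, Prod.swap] at h ⊢
    omega
  · rintro ⟨i, j⟩ _; rfl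
  · rintro ⟨i, j⟩ _; rfl
  · rintro ⟨i, j⟩ h
    simp only [mem_filter, HasAntidiagonal.mem_antidiagonal] at h
    simp only [Prod.swap]
    have hc : (2 * t + 1).choose j = (2 * t + 1).choose i := by
      rw [← h.1]
      exact Nat.choose_symm_add.symm
    rw [hc, show k + m + 2 = m + k + 2 by ring]
    ring

lemma U_add (t m k : ℕ) : U t m k + U t k m = 1 := by
  rw [U_swap t m k]
  unfold U
  rw [sum_filter_add_sum_filter_not, ← sum_div, div_eq_one_iff_eq]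
  · have h := rising_add (m + 1) (k + 1) (2 * t + 1)
    rw [show m + 1 + (k + 1) = m + k + 2 by ring] at h
    rw [h]
    push_cast
    rfl
  · exact_mod_cast (Nat.ascFactorial_pos _ _).ne'

lemma U_le_one (t m k : ℕ) : U t m k ≤ 1 := by
  have := U_add t m k
  have := U_nonneg t k m
  linarith

/-- The half of the Hankel matrix. -/
noncomputable def G (t : ℕ) (φ : ℕ → ℂ) (k m : ℕ) : ℂ := φ (m + k) * (U t m k : ℂ)

lemma G_add (t : ℕ) (φ : ℕ → ℂ) (k m : ℕ) : φ (m + k) = G t φ k m + G t φ m k := by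
  unfold G
  rw [add_comm k m, ← mul_add, ← Complex.ofReal_add, U_add]
  simp

lemma G_norm_le (t : ℕ) (φ : ℕ → ℂ) (k m : ℕ) : ‖G t φ k m‖ ≤ ‖φ (m + k)‖ := by
  unfold G
  rw [norm_mul, Complex.norm_real, Real.norm_of_nonneg (U_nonneg t m k)]
  have := U_le_one t m k
  have := norm_nonneg (φ (m + k))
  nlinarith

lemma G_disc (t : ℕ) {φ : ℕ → ℂ} (hφ : IsDisc φ) (k : ℕ) : IsDisc (G t φ k) := by
  apply IsDisc.of_abs
  intro r h0 h1
  refine Summable.of_nonneg_of_le (fun m => by positivity) (fun m => ?_) ((hφ.sh k).abs h0 h1)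
  have := G_norm_le t φ k m
  unfold sh
  gcongr

/-- forward shift -/
def fs (a : ℕ → ℂ) : ℕ → ℂ
  | 0 => 0
  | (k + 1) => a k

lemma IsDisc.fs {a : ℕ → ℂ} (ha : IsDisc a) : IsDisc (fs a) := by
  intro z hz
  rw [← summable_nat_add_iff 1]
  refine ((ha z hz).mul_right z).congr fun k => ?_
  simp only [Besov.fs]
  rw [pow_succ]
  ring

lemma ev_fs {a : ℕ → ℂ} (ha : IsDisc a) {z : ℂ} (hz : ‖z‖ < 1) : ev (fs a) z = z * ev a z := by
  unfold ev
  rw [(ha.fs z hz).tsum_eq_zero_add, ← tsum_mul_left]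
  simp only [fs, zero_mul, zero_add]
  congr 1
  ext k
  rw [pow_succ]
  ring

/-- the integrand in the moment formula -/
noncomputable def gint (ν : ℕ) (φ : ℕ → ℂ) (N : ℕ) (z : ℂ) : ℂ :=
  ev (fs φ) z * (starRingEnd ℂ) z ^ (N + 1) * ((1 - ‖z‖ ^ 2 : ℝ) : ℂ) ^ ν

lemma gint_le {α M : ℝ} {ν : ℕ} {φ : ℕ → ℂ} (hφ : IsDisc φ) (h : Gr α M φ) (N : ℕ) {z : ℂ}
    (hz : ‖z‖ < 1) : ‖gint ν φ N z‖ ≤ M * 2 ^ ν * (‖z‖ ^ N * (1 - ‖z‖) ^ ((ν : ℝ) - α)) := by
  have hM := h.nonneg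
  have hp : 0 < 1 - ‖z‖ := by linarith
  unfold gint
  rw [norm_mul, norm_mul, norm_pow, RCLike.norm_conj, ev_fs hφ hz, norm_mul]
  calc ‖z‖ * ‖ev φ z‖ * ‖z‖ ^ (N + 1) * ‖((1 - ‖z‖ ^ 2 : ℝ) : ℂ) ^ ν‖
      ≤ 1 * (M * (1 - ‖z‖) ^ (-α)) * (‖z‖ ^ N * 1) * (2 ^ ν * (1 - ‖z‖) ^ ν) := by
        rw [pow_succ]
        gcongr
        · exact h z hz
        · exact weight_le hz
    _ = M * 2 ^ ν * (‖z‖ ^ N * ((1 - ‖z‖) ^ (-α) * (1 - ‖z‖) ^ (ν : ℝ))) := by
        rw [Real.rpow_natCast]; ring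
    _ = _ := by
        rw [← Real.rpow_add hp]
        congr 3
        ring

lemma gint_le' {α M : ℝ} {ν : ℕ} (hν : α ≤ ν) {φ : ℕ → ℂ} (hφ : IsDisc φ) (h : Gr α M φ) (N : ℕ)
    {z : ℂ} (hz : ‖z‖ < 1) : ‖gint ν φ N z‖ ≤ M * 2 ^ ν := by
  have hM := h.nonneg
  refine (gint_le hφ h N hz).trans ?_
  have h1 : ‖z‖ ^ N ≤ 1 := pow_le_one₀ (norm_nonneg _) hz.le
  have h2 : (1 - ‖z‖) ^ ((ν : ℝ) - α) ≤ 1 :=
    Real.rpow_le_one (by linarith) (by linarith [norm_nonneg z]) (by linarith)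
  calc M * 2 ^ ν * (‖z‖ ^ N * (1 - ‖z‖) ^ ((ν : ℝ) - α)) ≤ M * 2 ^ ν * (1 * 1) := by
        have : 0 ≤ (1 - ‖z‖) ^ ((ν : ℝ) - α) := Real.rpow_nonneg (by linarith) _
        gcongr
    _ = _ := by ring

lemma gint_continuousOn (ν : ℕ) {φ : ℕ → ℂ} (hφ : IsDisc φ) (N : ℕ) :
    ContinuousOn (gint ν φ N) (ball 0 1) := by
  unfold gint
  apply ContinuousOn.mul
  · apply (continuousOn_ev hφ.fs).mul
    have : Continuous fun z : ℂ => (starRingEnd ℂ) z ^ (N + 1) := by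
      have := Complex.continuous_conj
      fun_prop
    exact this.continuousOn
  · exact (weight_continuous ν).continuousOn

lemma gint_integrable {α M : ℝ} {ν : ℕ} (hν : α ≤ ν) {φ : ℕ → ℂ} (hφ : IsDisc φ) (h : Gr α M φ)
    (N : ℕ) : IntegrableOn (gint ν φ N) (ball 0 1) := by
  apply Integrable.mono' (g := fun _ => M * 2 ^ ν) _
    ((gint_continuousOn ν hφ N).aestronglyMeasurable measurableSet_ball)
  · exact (ae_restrict_iff' measurableSet_ball).2 (Filter.Eventually.of_forall fun z hz =>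
      gint_le' hν hφ h N (by simpa using hz))
  · exact integrableOn_const measure_ball_lt_top.ne

lemma gint_integral {α M : ℝ} {ν : ℕ} (hν : α ≤ ν) {φ : ℕ → ℂ} (hφ : IsDisc φ) (h : Gr α M φ)
    (N : ℕ) : ∫ z in ball (0 : ℂ) 1, gint ν φ N z =
      φ N * (π * ν.factorial / ((N + 2).ascFactorial (ν + 1) : ℂ)) :=
  area_moment ν hφ.fs (N + 1) (gint_integrable hν hφ h N)

lemma gint_add (ν : ℕ) (φ : ℕ → ℂ) (m k : ℕ) (z : ℂ) :
    gint ν φ (m + k) z = gint ν φ k z * (starRingEnd ℂ) z ^ m := by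
  unfold gint
  rw [show m + k + 1 = m + (k + 1) by ring, pow_add _ m]
  ring

/-- The sum over `m` in the integral representation. -/
lemma sum_int {α M : ℝ} {ν : ℕ} (hν : α ≤ ν) {φ : ℕ → ℂ} (hφ : IsDisc φ) (h : Gr α M φ)
    (i k : ℕ) {ζ : ℂ} (hζ : ‖ζ‖ < 1) :
    HasSum (fun m : ℕ => ((m + 1).ascFactorial i : ℂ) * ζ ^ m *
        ∫ z in ball (0 : ℂ) 1, gint ν φ (m + k) z)
      (∫ z in ball (0 : ℂ) 1, gint ν φ k z *
        ((i.factorial : ℂ) / (1 - ζ * (starRingEnd ℂ) z) ^ (i + 1))) := by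
  let F : ℕ → ℂ → ℂ := fun m z => (((m + 1).ascFactorial i : ℂ) * ζ ^ m) * gint ν φ (m + k) z
  have hF1 : ∀ m, Integrable (F m) (volume.restrict (ball (0 : ℂ) 1)) :=
    fun m => (gint_integrable hν hφ h (m + k)).const_mul _
  have hs : Summable fun m : ℕ => ((m + 1).ascFactorial i : ℝ) * ‖ζ‖ ^ m := by
    have h1 := (gen_rising i hζ).summable.norm
    refine h1.congr fun m => ?_
    rw [norm_mul, norm_pow, Complex.norm_natCast]
  have hF2 : Summable fun m => ∫ z in ball (0 : ℂ) 1, ‖F m z‖ := by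
    refine Summable.of_nonneg_of_le (fun m => integral_nonneg fun z => norm_nonneg _)
      (fun m => ?_) (hs.mul_right (∫ z in ball (0 : ℂ) 1, M * 2 ^ ν))
    have e2 : ∀ z, ‖F m z‖ = (((m + 1).ascFactorial i : ℝ) * ‖ζ‖ ^ m) * ‖gint ν φ (m + k) z‖ := by
      intro z
      show ‖(((m + 1).ascFactorial i : ℂ) * ζ ^ m) * gint ν φ (m + k) z‖ = _
      rw [norm_mul, norm_mul, norm_pow, Complex.norm_natCast]
    simp_rw [e2]
    rw [integral_const_mul]
    apply mul_le_mul_of_nonneg_left _ (by positivity)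
    apply setIntegral_mono_on (gint_integrable hν hφ h (m + k)).norm
      (integrableOn_const measure_ball_lt_top.ne) measurableSet_ball
    intro z hz
    exact gint_le' hν hφ h _ (by simpa using hz)
  have h2 := hasSum_integral_of_summable_integral_norm hF1 hF2
  have h3 : ∀ m, ∫ z in ball (0 : ℂ) 1, F m z =
      (((m + 1).ascFactorial i : ℂ) * ζ ^ m) * ∫ z in ball (0 : ℂ) 1, gint ν φ (m + k) z := by
    intro m
    exact integral_const_mul _ _
  have h4 : ∫ z in ball (0 : ℂ) 1, ∑' m, F m z = ∫ z in ball (0 : ℂ) 1, gint ν φ k z *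
        ((i.factorial : ℂ) / (1 - ζ * (starRingEnd ℂ) z) ^ (i + 1)) := by
    apply setIntegral_congr_fun measurableSet_ball
    intro z hz
    have hz' : ‖z‖ < 1 := by simpa using hz
    have hv : ‖ζ * (starRingEnd ℂ) z‖ < 1 := by
      rw [norm_mul, RCLike.norm_conj]
      nlinarith [norm_nonneg ζ, norm_nonneg z]
    have h5 := (gen_rising i hv).mul_left (gint ν φ k z)
    have h6 : (fun m : ℕ => gint ν φ k z * (((m + 1).ascFactorial i : ℂ) *
        (ζ * (starRingEnd ℂ) z) ^ m)) = fun m => F m z := by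
      ext m
      show _ = (((m + 1).ascFactorial i : ℂ) * ζ ^ m) * gint ν φ (m + k) z
      rw [gint_add, mul_pow]
      ring
    rw [h6] at h5
    exact h5.tsum_eq
  rw [h4] at h2
  simp_rw [h3] at h2
  exact h2

lemma one_sub_conj_norm (ζ z : ℂ) : ‖1 - ζ * (starRingEnd ℂ) z‖ = ‖1 - (starRingEnd ℂ) ζ * z‖ := by
  rw [← RCLike.norm_conj (1 - ζ * (starRingEnd ℂ) z)]
  simp

/-- The bound of the integrals. -/
lemma int_bound {α M : ℝ} (hα : 0 < α) {ν : ℕ} {φ : ℕ → ℂ} (hφ : IsDisc φ)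
    (h : Gr α M φ) {i j : ℕ} (hij : i + j = ν + 1) (hj : (j : ℝ) + α ≤ ν) (k : ℕ) {ζ : ℂ}
    (hζ : ‖ζ‖ < 1) :
    ((k + 1).ascFactorial j : ℝ) * ‖∫ z in ball (0 : ℂ) 1, gint ν φ k z *
        ((i.factorial : ℂ) / (1 - ζ * (starRingEnd ℂ) z) ^ (i + 1))‖ ≤
      M * 2 ^ ν * i.factorial * j.factorial * KJ α * (1 - ‖ζ‖) ^ (-α) := by
  have hM := h.nonneg
  have hA : (0 : ℝ) < ((k + 1).ascFactorial j : ℝ) := by
    exact_mod_cast Nat.ascFactorial_pos _ _
  have hζ' : ‖(starRingEnd ℂ) ζ‖ < 1 := by rwa [RCLike.norm_conj]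
  have hK := kernel_integral hα hζ'
  rw [RCLike.norm_conj] at hK
  have hb : ∀ z ∈ ball (0 : ℂ) 1, ‖gint ν φ k z *
        ((i.factorial : ℂ) / (1 - ζ * (starRingEnd ℂ) z) ^ (i + 1))‖ ≤
      (M * 2 ^ ν * i.factorial * j.factorial / ((k + 1).ascFactorial j : ℝ)) *
        ‖1 - (starRingEnd ℂ) ζ * z‖ ^ (-(α + 2)) := by
    intro z hz
    have hz' : ‖z‖ < 1 := by simpa using hz
    have hp : 0 < 1 - ‖z‖ := by linarith
    have hv : ‖ζ * (starRingEnd ℂ) z‖ < 1 := by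
      rw [norm_mul, RCLike.norm_conj]
      nlinarith [norm_nonneg ζ, norm_nonneg z]
    have hd0 : 0 < ‖1 - ζ * (starRingEnd ℂ) z‖ := norm_pos_iff.2 (one_sub_ne hv)
    have hd1 : 1 - ‖z‖ ≤ ‖1 - ζ * (starRingEnd ℂ) z‖ := by
      have h1 := @one_sub_norm_le (ζ * (starRingEnd ℂ) z)
      rw [norm_mul, RCLike.norm_conj] at h1
      nlinarith [norm_nonneg ζ, norm_nonneg z]
    rw [← one_sub_conj_norm]
    set D := ‖1 - ζ * (starRingEnd ℂ) z‖ with hD
    have h1 := gint_le (ν := ν) hφ h k hz'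
    have h2 := rising_le k j (norm_nonneg z) hz'
    have h3 : (1 - ‖z‖) ^ ((ν : ℝ) - α) = (1 - ‖z‖) ^ j * (1 - ‖z‖) ^ ((ν : ℝ) - α - j) := by
      rw [← Real.rpow_natCast, ← Real.rpow_add hp]
      congr 1
      ring
    have h4 : (1 - ‖z‖) ^ ((ν : ℝ) - α - j) ≤ D ^ ((ν : ℝ) - α - j) :=
      Real.rpow_le_rpow hp.le hd1 (by linarith)
    have h5 : D ^ ((ν : ℝ) - α - j) / D ^ (i + 1) = D ^ (-(α + 2)) := by
      rw [← Real.rpow_natCast, ← Real.rpow_sub hd0]
      congr 1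
      have : (i : ℝ) + j = ν + 1 := by exact_mod_cast hij
      push_cast
      linarith
    rw [norm_mul, norm_div, norm_pow, Complex.norm_natCast]
    calc ‖gint ν φ k z‖ * ((i.factorial : ℝ) / D ^ (i + 1))
        ≤ (M * 2 ^ ν * (‖z‖ ^ k * (1 - ‖z‖) ^ ((ν : ℝ) - α))) * ((i.factorial : ℝ) / D ^ (i + 1)) := by
          gcongr
      _ = M * 2 ^ ν * i.factorial * (((k + 1).ascFactorial j : ℝ) * ‖z‖ ^ k * (1 - ‖z‖) ^ j) /
            ((k + 1).ascFactorial j : ℝ) * ((1 - ‖z‖) ^ ((ν : ℝ) - α - j) / D ^ (i + 1)) := by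
          rw [h3]
          field_simp
      _ ≤ M * 2 ^ ν * i.factorial * j.factorial /
            ((k + 1).ascFactorial j : ℝ) * (D ^ ((ν : ℝ) - α - j) / D ^ (i + 1)) := by
          have e1 : 0 ≤ (1 - ‖z‖) ^ ((ν : ℝ) - α - j) := Real.rpow_nonneg hp.le _
          gcongr
      _ = _ := by rw [h5]
  have hint := (kernel_integrable (β := α) hζ').const_mul
    (M * 2 ^ ν * i.factorial * j.factorial / ((k + 1).ascFactorial j : ℝ))
  have h6 := norm_integral_le_of_norm_le hint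
    ((ae_restrict_iff' measurableSet_ball).2 (Filter.Eventually.of_forall hb))
  rw [integral_const_mul] at h6
  calc ((k + 1).ascFactorial j : ℝ) * ‖∫ z in ball (0 : ℂ) 1, gint ν φ k z *
        ((i.factorial : ℂ) / (1 - ζ * (starRingEnd ℂ) z) ^ (i + 1))‖
      ≤ ((k + 1).ascFactorial j : ℝ) *
        (M * 2 ^ ν * i.factorial * j.factorial / ((k + 1).ascFactorial j : ℝ) *
          ∫ z in ball (0 : ℂ) 1, ‖1 - (starRingEnd ℂ) ζ * z‖ ^ (-(α + 2))) := by gcongr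
    _ = M * 2 ^ ν * i.factorial * j.factorial *
          ∫ z in ball (0 : ℂ) 1, ‖1 - (starRingEnd ℂ) ζ * z‖ ^ (-(α + 2)) := by
        field_simp
    _ ≤ M * 2 ^ ν * i.factorial * j.factorial * (KJ α * (1 - ‖ζ‖) ^ (-α)) := by gcongr
    _ = _ := by ring

/-- the constant -/
noncomputable def cG (α : ℝ) (t : ℕ) : ℝ :=
  ∑ ij ∈ (antidiagonal (2 * t + 1)).filter (fun ij => ij.2 ≤ t),
    ((2 * t + 1).choose ij.1 : ℝ) * (2 ^ (2 * t) * ij.1.factorial * ij.2.factorial * KJ α)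

lemma cG_nonneg {α : ℝ} (hα : 0 < α) (t : ℕ) : 0 ≤ cG α t := by
  unfold cG
  have := KJ_pos hα
  exact sum_nonneg fun ij _ => by positivity

/-- The rows of the halves of the Hankel matrix are uniformly bounded in the growth space. -/
lemma Gr_G {α M : ℝ} (hα : 0 < α) {t : ℕ} (ht : α ≤ t) {φ : ℕ → ℂ} (hφ : IsDisc φ)
    (h : Gr α M φ) (k : ℕ) : Gr α (cG α t * M) (G t φ k) := by
  intro ζ hζ
  have hM := h.nonneg
  have hν : α ≤ ((2 * t : ℕ) : ℝ) := by
    push_cast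
    have : (0 : ℝ) ≤ t := Nat.cast_nonneg t
    linarith
  have hfac : ((π : ℂ) * ((2 * t).factorial : ℂ)) ≠ 0 := by
    apply mul_ne_zero
    · exact_mod_cast Real.pi_ne_zero
    · exact_mod_cast (2 * t).factorial_ne_zero
  let I : ℕ → ℂ := fun i => ∫ z in ball (0 : ℂ) 1, gint (2 * t) φ k z *
        ((i.factorial : ℂ) / (1 - ζ * (starRingEnd ℂ) z) ^ (i + 1))
  let S := (antidiagonal (2 * t + 1)).filter (fun ij => ij.2 ≤ t)
  have h1 : HasSum (fun m : ℕ => G t φ k m * ζ ^ m)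
      (∑ ij ∈ S, ((π : ℂ) * ((2 * t).factorial : ℂ))⁻¹ * (((2 * t + 1).choose ij.1 : ℂ) *
        ((k + 1).ascFactorial ij.2 : ℂ) * I ij.1)) := by
    have h2 : HasSum (fun m : ℕ => ∑ ij ∈ S, ((π : ℂ) * ((2 * t).factorial : ℂ))⁻¹ *
        (((2 * t + 1).choose ij.1 : ℂ) * ((k + 1).ascFactorial ij.2 : ℂ) *
        (((m + 1).ascFactorial ij.1 : ℂ) * ζ ^ m *
        ∫ z in ball (0 : ℂ) 1, gint (2 * t) φ (m + k) z)))
        (∑ ij ∈ S, ((π : ℂ) * ((2 * t).factorial : ℂ))⁻¹ * (((2 * t + 1).choose ij.1 : ℂ) *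
        ((k + 1).ascFactorial ij.2 : ℂ) * I ij.1)) := by
      apply hasSum_sum
      intro ij _
      apply HasSum.mul_left
      apply HasSum.mul_left
      exact sum_int hν hφ h ij.1 k hζ
    refine h2.congr_fun fun m => ?_
    unfold G U
    push_cast
    rw [mul_sum, sum_mul]
    refine sum_congr rfl fun ij _ => ?_
    rw [gint_integral hν hφ h (m + k)]
    have h3 : (((m + k + 2).ascFactorial (2 * t + 1) : ℕ) : ℂ) ≠ 0 := by
      exact_mod_cast (Nat.ascFactorial_pos _ _).ne'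
    have h4 : (π : ℂ) ≠ 0 := by exact_mod_cast Real.pi_ne_zero
    have h5 : ((2 * t).factorial : ℂ) ≠ 0 := by exact_mod_cast (2 * t).factorial_ne_zero
    field_simp
  have h2 : ev (G t φ k) ζ = _ := h1.tsum_eq
  rw [h2]
  have hinv : ‖((π : ℂ) * ((2 * t).factorial : ℂ))⁻¹‖ ≤ 1 := by
    rw [norm_inv, norm_mul, Complex.norm_real, Real.norm_of_nonneg Real.pi_pos.le,
      Complex.norm_natCast]
    have h4 : (1 : ℝ) ≤ (2 * t).factorial := by exact_mod_cast (2 * t).factorial_pos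
    have h5 : (1 : ℝ) ≤ π := by linarith [Real.pi_gt_three]
    apply inv_le_one_of_one_le₀
    nlinarith
  have hB : 0 ≤ (1 - ‖ζ‖) ^ (-α) := Real.rpow_nonneg (by linarith) _
  calc ‖∑ ij ∈ S, ((π : ℂ) * ((2 * t).factorial : ℂ))⁻¹ * (((2 * t + 1).choose ij.1 : ℂ) *
        ((k + 1).ascFactorial ij.2 : ℂ) * I ij.1)‖
      ≤ ∑ ij ∈ S, ((2 * t + 1).choose ij.1 : ℝ) *
        (((k + 1).ascFactorial ij.2 : ℝ) * ‖I ij.1‖) := by
        refine (norm_sum_le _ _).trans (sum_le_sum fun ij _ => ?_)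
        rw [norm_mul, norm_mul, norm_mul, Complex.norm_natCast, Complex.norm_natCast]
        calc _ ≤ 1 * (((2 * t + 1).choose ij.1 : ℝ) *
              ((k + 1).ascFactorial ij.2 : ℝ) * ‖I ij.1‖) := by gcongr
          _ = _ := by ring
    _ ≤ ∑ ij ∈ S, ((2 * t + 1).choose ij.1 : ℝ) *
        (M * 2 ^ (2 * t) * ij.1.factorial * ij.2.factorial * KJ α * (1 - ‖ζ‖) ^ (-α)) := by
        refine sum_le_sum fun ij hij => ?_
        have hij' := mem_filter.1 hij
        have e1 := HasAntidiagonal.mem_antidiagonal.1 hij'.1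
        have e2 : (ij.2 : ℝ) ≤ t := by exact_mod_cast hij'.2
        apply mul_le_mul_of_nonneg_left _ (by positivity)
        apply int_bound hα hφ h e1 _ k hζ
        push_cast
        linarith
    _ = cG α t * M * (1 - ‖ζ‖) ^ (-α) := by
        unfold cG
        rw [sum_mul, sum_mul]
        refine sum_congr rfl fun ij _ => ?_
        ring

end Pool.Agent.H758R2.Besov
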