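import Pool.Agent.H758R2.Besov.Poly

set_option autoImplicit false

open Finset Metric Filter Topology MeasureTheory Real

namespace Pool.Agent.H758R2.Besov

/-! ### the lacunary symbol -/

open Classical in
/-- the values of the lacunary symbol -/
noncomputable def la (N : ℕ) : ℝ := if N ∈ Set.range (fun i : ℕ => 25 ^ i) then (N : ℝ) else 0

lemma la_nonneg (N : ℕ) : 0 ≤ la N := by
  unfold la
  split_ifs
  · positivity
  · exact le_rfl

lemma la_le (N : ℕ) : la N ≤ N := by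
  unfold la
  split_ifs
  · exact le_rfl
  · positivity

lemma la_pow (i : ℕ) : la (25 ^ i) = 25 ^ i := by
  unfold la
  rw [if_pos ⟨i, rfl⟩]
  push_cast
  rfl

lemma la_of_not {N : ℕ} (h : N ∉ Set.range (fun i : ℕ => 25 ^ i)) : la N = 0 := by
  unfold la
  rw [if_neg h]

lemma pow25_inj : Function.Injective (fun i : ℕ => 25 ^ i) :=
  Nat.pow_right_injective (by norm_num)

lemma la_tsum (f : ℕ → ℝ) : ∑' N, la N * f N = ∑' i : ℕ, (25 : ℝ) ^ i * f (25 ^ i) := by
  have h := pow25_inj.tsum_eq (f := fun N => la N * f N) (by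
    intro N hN
    by_contra hcon
    apply hN
    show la N * f N = 0
    rw [la_of_not hcon, zero_mul])
  rw [← h]
  congr 1
  ext i
  rw [la_pow]

lemma la_block {r : ℝ} (h0 : 0 ≤ r) (h1 : r ≤ 1) (I : ℕ) :
    ∑ i ∈ range (I + 1), (25 : ℝ) ^ i * r ^ (25 ^ i) ≤ 2 * ∑ j ∈ range (25 ^ I + 1), r ^ j := by
  induction I with
  | zero =>
    simp [sum_range_succ]
    nlinarith
  | succ I ih =>
    rw [sum_range_succ]
    have h2 : 25 ^ I + 1 ≤ 25 ^ (I + 1) + 1 := by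
      rw [pow_succ]; omega
    have h3 : ∑ j ∈ range (25 ^ (I + 1) + 1), r ^ j = ∑ j ∈ range (25 ^ I + 1), r ^ j +
        ∑ j ∈ Ico (25 ^ I + 1) (25 ^ (I + 1) + 1), r ^ j := by
      rw [Finset.sum_range_add_sum_Ico _ h2]
    rw [h3]
    have h4 : (25 : ℝ) ^ (I + 1) * r ^ (25 ^ (I + 1)) ≤
        2 * ∑ j ∈ Ico (25 ^ I + 1) (25 ^ (I + 1) + 1), r ^ j := by
      have h5 : ∑ j ∈ Ico (25 ^ I + 1) (25 ^ (I + 1) + 1), r ^ (25 ^ (I + 1)) ≤
          ∑ j ∈ Ico (25 ^ I + 1) (25 ^ (I + 1) + 1), r ^ j := by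
        refine sum_le_sum fun j hj => ?_
        have := (mem_Ico.1 hj).2
        exact pow_le_pow_of_le_one h0 h1 (by omega)
      rw [sum_const, Nat.card_Ico, nsmul_eq_mul] at h5
      have h6 : ((25 ^ (I + 1) + 1 - (25 ^ I + 1) : ℕ) : ℝ) = 24 * 25 ^ I := by
        have : 25 ^ (I + 1) + 1 - (25 ^ I + 1) = 24 * 25 ^ I := by
          rw [pow_succ]; omega
        rw [this]
        push_cast
        ring
      rw [h6] at h5
      have h7 : (0 : ℝ) ≤ 25 ^ I * r ^ (25 ^ (I + 1)) := by positivity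
      have h8 : (25 : ℝ) ^ (I + 1) * r ^ (25 ^ (I + 1)) = 25 * (25 ^ I * r ^ (25 ^ (I + 1))) := by
        rw [pow_succ]; ring
      rw [h8]
      nlinarith
    linarith

/-- The lacunary sequence of coefficients. -/
noncomputable def lac (N : ℕ) : ℂ := (la N : ℂ)

lemma lac_norm (N : ℕ) : ‖lac N‖ = la N := by
  unfold lac
  rw [Complex.norm_real, Real.norm_of_nonneg (la_nonneg N)]

lemma lac_disc : IsDisc lac := by
  apply IsDisc.of_le (C := 1) (c := 1)
  intro k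
  rw [lac_norm, Real.rpow_one]
  have := la_le k
  linarith

lemma summable_la {r : ℝ} (h0 : 0 ≤ r) (h1 : r < 1) : Summable fun N => la N * r ^ N := by
  refine (lac_disc.abs h0 h1).congr fun N => ?_
  rw [lac_norm]

lemma summable_pow25 {r : ℝ} (h0 : 0 ≤ r) (h1 : r < 1) :
    Summable fun i : ℕ => (25 : ℝ) ^ i * r ^ (25 ^ i) := by
  have h : Summable fun i : ℕ => la (25 ^ i) * r ^ (25 ^ i) :=
    (summable_la h0 h1).comp_injective pow25_inj
  simp_rw [la_pow] at h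
  exact h

lemma la_sum_le {r : ℝ} (h0 : 0 ≤ r) (h1 : r < 1) :
    ∑' i : ℕ, (25 : ℝ) ^ i * r ^ (25 ^ i) ≤ 2 * (1 - r)⁻¹ := by
  apply (summable_pow25 h0 h1).tsum_le_of_sum_range_le
  intro I
  have h2 : ∀ K, ∑ j ∈ range K, r ^ j ≤ (1 - r)⁻¹ := by
    intro K
    rw [← tsum_geometric_of_lt_one h0 h1]
    exact (summable_geometric_of_lt_one h0 h1).sum_le_tsum _ (fun j _ => by positivity)
  cases I with
  | zero =>
    have : 0 < 1 - r := by linarith
    simp
    linarith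
  | succ I =>
    have h3 := la_block h0 h1.le I
    have h4 := h2 (25 ^ I + 1)
    linarith

lemma lac_Gr : Gr 1 2 lac := by
  intro z hz
  have h0 := norm_nonneg z
  rw [Real.rpow_neg_one]
  have h1 : ‖ev lac z‖ ≤ ∑' N, la N * ‖z‖ ^ N := by
    unfold ev
    apply tsum_of_norm_bounded (summable_la h0 hz).hasSum
    intro N
    rw [norm_mul, norm_pow, lac_norm]
  refine h1.trans ?_
  rw [la_tsum]
  exact la_sum_le h0 hz

/-- The symbol. -/
noncomputable def Phi : Binf 1 := Binf.mk' lac lac_disc lac_Gr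

lemma Phi_c : Phi.c = lac := rfl

/-! ### the dominating term -/

lemma pow_lower {N : ℕ} (hN : 2 ≤ N) : (1 / 4 : ℝ) ≤ (1 - 1 / (N : ℝ)) ^ N := by
  obtain ⟨m, hm | hm⟩ : ∃ m, N = 2 * m ∨ N = 2 * m + 1 := ⟨N / 2, by omega⟩
  · subst hm
    have hm1 : (1 : ℝ) ≤ m := by
      have : 1 ≤ m := by omega
      exact_mod_cast this
    have h1 : (-2 : ℝ) ≤ -(1 / ((2 * m : ℕ) : ℝ)) := by
      push_cast
      have : 1 / (2 * (m : ℝ)) ≤ 1 := by
        rw [div_le_one (by positivity)]; linarith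
      linarith
    have h2 := one_add_mul_le_pow h1 m
    have h3 : 1 + (m : ℝ) * (-(1 / ((2 * m : ℕ) : ℝ))) = 1 / 2 := by
      push_cast
      field_simp
      norm_num
    rw [h3] at h2
    have h4 : (1 - 1 / ((2 * m : ℕ) : ℝ)) ^ (2 * m) = ((1 + -(1 / ((2 * m : ℕ) : ℝ))) ^ m) ^ 2 := by
      rw [← pow_mul, mul_comm m 2, sub_eq_add_neg]
    rw [h4]
    nlinarith
  · subst hm
    have hm1 : (1 : ℝ) ≤ m := by
      have : 1 ≤ m := by omega
      exact_mod_cast this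
    set u : ℝ := 1 / ((2 * m + 1 : ℕ) : ℝ) with hu
    have hu' : u = 1 / (2 * (m : ℝ) + 1) := by rw [hu]; push_cast; rfl
    have hu0 : 0 < u := by rw [hu']; positivity
    have hu1 : u ≤ 1 / 3 := by
      rw [hu']
      apply one_div_le_one_div_of_le (by norm_num)
      linarith
    have h1 : (-2 : ℝ) ≤ -u := by linarith
    have h2 := one_add_mul_le_pow h1 m
    have h3 : 1 + (m : ℝ) * (-u) = (1 + u) / 2 := by
      rw [hu']
      field_simp
      ring
    rw [h3] at h2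
    have h4 : (1 - u) ^ (2 * m + 1) = ((1 + -u) ^ m) ^ 2 * (1 - u) := by
      rw [pow_succ, ← pow_mul, mul_comm m 2, sub_eq_add_neg]
    rw [h4]
    have h5 : ((1 + u) / 2) ^ 2 ≤ ((1 + -u) ^ m) ^ 2 :=
      pow_le_pow_left₀ (by positivity) h2 2
    have h6 : ((1 + u) / 2) ^ 2 * (1 - u) ≤ ((1 + -u) ^ m) ^ 2 * (1 - u) :=
      mul_le_mul_of_nonneg_right h5 (by linarith)
    have h7 : (1 / 4 : ℝ) ≤ ((1 + u) / 2) ^ 2 * (1 - u) := by
      nlinarith [mul_pos hu0 hu0, mul_nonneg hu0.le (sub_nonneg.2 hu1)]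
    linarith

lemma exp_bound {x : ℝ} (hx : 0 < x) : x * Real.exp (-x) ≤ 2 / x := by
  have h1 := Real.pow_div_factorial_le_exp x hx.le 2
  norm_num at h1
  rw [Real.exp_neg, ← div_eq_mul_inv, div_le_div_iff₀ (Real.exp_pos x) hx]
  nlinarith

lemma sum_pow25 (I : ℕ) : ∑ i ∈ range I, (25 : ℝ) ^ i ≤ 25 ^ I / 24 := by
  induction I with
  | zero => simp
  | succ I ih =>
    rw [sum_range_succ, pow_succ]
    linarith

/-- The terms different from the dominating one. -/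
lemma rest_le (I : ℕ) (hI : 1 ≤ I) :
    ∑' i : ℕ, (if i = I then 0 else (25 : ℝ) ^ i * (1 - 1 / (25 : ℝ) ^ I) ^ (25 ^ i)) ≤
      25 ^ I / 8 := by
  have hQ : (25 : ℝ) ≤ 25 ^ I := by
    calc (25 : ℝ) = 25 ^ 1 := by norm_num
      _ ≤ 25 ^ I := pow_le_pow_right₀ (by norm_num) hI
  set Q : ℝ := 25 ^ I with hQdef
  have hQ0 : 0 < Q := by linarith
  set ρ : ℝ := 1 - 1 / Q with hρ
  have hρ0 : 0 ≤ ρ := by
    rw [hρ, sub_nonneg, div_le_one hQ0]; linarith
  have hρ1 : ρ < 1 := by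
    rw [hρ]
    have : 0 < 1 / Q := by positivity
    linarith
  have hs : Summable fun i : ℕ => (if i = I then 0 else (25 : ℝ) ^ i * ρ ^ (25 ^ i)) := by
    have hs0 := summable_pow25 hρ0 hρ1
    apply Summable.of_nonneg_of_le _ _ hs0
    · intro i
      split_ifs
      · exact le_rfl
      · positivity
    · intro i
      split_ifs
      · positivity
      · exact le_rfl
  rw [← hs.sum_add_tsum_nat_add (I + 1), sum_range_succ, if_pos rfl, add_zero]
  have h1 : ∑ i ∈ range I, (if i = I then 0 else (25 : ℝ) ^ i * ρ ^ (25 ^ i)) ≤ Q / 24 := by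
    have h0 := sum_pow25 I
    rw [← hQdef] at h0
    have h00 : ∑ i ∈ range I, (if i = I then 0 else (25 : ℝ) ^ i * ρ ^ (25 ^ i)) ≤
        ∑ i ∈ range I, (25 : ℝ) ^ i := by
      apply sum_le_sum
      intro i _
      split_ifs
      · positivity
      · exact mul_le_of_le_one_right (by positivity) (pow_le_one₀ hρ0 hρ1.le)
    exact h00.trans h0
  have h2 : ∑' i : ℕ, (if i + (I + 1) = I then 0 else (25 : ℝ) ^ (i + (I + 1)) *
      ρ ^ (25 ^ (i + (I + 1)))) ≤ Q / 12 := by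
    have h3 : HasSum (fun i : ℕ => Q * (2 / 25) * (1 / 25 : ℝ) ^ i)
        (Q * (2 / 25) * (1 - 1 / 25)⁻¹) :=
      (hasSum_geometric_of_lt_one (by norm_num) (by norm_num)).mul_left _
    have h4 : Q * (2 / 25) * (1 - 1 / 25)⁻¹ = Q / 12 := by norm_num; ring
    rw [h4] at h3
    rw [← h3.tsum_eq]
    have hs' : Summable fun i : ℕ => (if i + (I + 1) = I then 0 else (25 : ℝ) ^ (i + (I + 1)) *
      ρ ^ (25 ^ (i + (I + 1)))) :=
      (summable_nat_add_iff (f := fun i : ℕ =>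
        (if i = I then 0 else (25 : ℝ) ^ i * ρ ^ (25 ^ i))) (I + 1)).2 hs
    apply hs'.tsum_le_tsum _ h3.summable
    intro i
    rw [if_neg (by omega)]
    -- `ρ ^ (Q x) ≤ exp (-x)`
    have h5 : ρ ≤ Real.exp (-(1 / Q)) := by
      have := Real.add_one_le_exp (-(1 / Q))
      rw [hρ]; linarith
    have h6 : ρ ^ (25 ^ (i + (I + 1))) ≤ Real.exp (-((25 : ℝ) ^ (i + 1))) := by
      calc ρ ^ (25 ^ (i + (I + 1))) ≤ (Real.exp (-(1 / Q))) ^ (25 ^ (i + (I + 1))) := by gcongr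
        _ = _ := by
          rw [← Real.exp_nat_mul]
          congr 1
          push_cast
          rw [show i + (I + 1) = (i + 1) + I by ring, pow_add (25 : ℝ) (i + 1) I, ← hQdef]
          field_simp
    have h7 := exp_bound (x := (25 : ℝ) ^ (i + 1)) (by positivity)
    calc (25 : ℝ) ^ (i + (I + 1)) * ρ ^ (25 ^ (i + (I + 1)))
        ≤ (25 : ℝ) ^ (i + (I + 1)) * Real.exp (-((25 : ℝ) ^ (i + 1))) := by gcongr
      _ = Q * ((25 : ℝ) ^ (i + 1) * Real.exp (-((25 : ℝ) ^ (i + 1)))) := by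
          rw [show i + (I + 1) = (i + 1) + I by ring, pow_add (25 : ℝ) (i + 1) I, ← hQdef]
          ring
      _ ≤ Q * (2 / (25 : ℝ) ^ (i + 1)) := by gcongr
      _ = _ := by
          rw [one_div, inv_pow, pow_succ]
          field_simp
  linarith [h1, h2]

/-- The lacunary sequence without its dominating term. -/
noncomputable def lar (I N : ℕ) : ℂ := if N = 25 ^ I then 0 else lac N

lemma lar_norm_le (I N : ℕ) : ‖lar I N‖ ≤ la N := by
  unfold lar
  split_ifs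
  · rw [norm_zero]; exact la_nonneg N
  · rw [lac_norm]

lemma lar_disc (I : ℕ) : IsDisc (lar I) := by
  apply IsDisc.of_le (C := 1) (c := 1)
  intro k
  rw [Real.rpow_one]
  have := lar_norm_le I k
  have := la_le k
  linarith

lemma lar_sum (I : ℕ) (hI : 1 ≤ I) :
    ∑' N, ‖lar I N‖ * (1 - 1 / (25 : ℝ) ^ I) ^ N ≤ 25 ^ I / 8 := by
  have h : ∀ N, ‖lar I N‖ * (1 - 1 / (25 : ℝ) ^ I) ^ N =
      la N * (if N = 25 ^ I then 0 else (1 - 1 / (25 : ℝ) ^ I) ^ N) := by
    intro N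
    unfold lar
    split_ifs
    · simp
    · rw [lac_norm]
  simp_rw [h]
  rw [la_tsum]
  refine le_trans (le_of_eq ?_) (rest_le I hI)
  congr 1
  ext i
  by_cases hi : i = I
  · subst hi; simp
  · have : (25 : ℕ) ^ i ≠ 25 ^ I := fun h => hi (pow25_inj h)
    rw [if_neg this, if_neg hi]

lemma lac_eq (I : ℕ) : lac = lar I + (25 ^ I : ℂ) • un (25 ^ I) := by
  ext N
  simp only [Pi.add_apply, Pi.smul_apply, smul_eq_mul, lar, un]
  split_ifs with h
  · subst h
    unfold lac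
    rw [la_pow]
    push_cast
    ring
  · simp

/-- The value of the shifted lacunary function. -/
lemma ev_sh_lac (I : ℕ) (hI : 1 ≤ I) {k : ℕ} (hk : k ≤ 25 ^ I) {ζ : ℂ}
    (hζ : ‖ζ‖ = 1 - 1 / (25 : ℝ) ^ I) :
    ‖ζ ^ k * ev (sh k lac) ζ - (25 ^ I : ℂ) * ζ ^ (25 ^ I)‖ ≤ 25 ^ I / 8 := by
  have hQ0 : (0 : ℝ) < 25 ^ I := by positivity
  have hζ1 : ‖ζ‖ < 1 := by
    rw [hζ]
    have : 0 < 1 / (25 : ℝ) ^ I := by positivity
    linarith
  have h1 := ev_sh lac_disc k hζ1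
  have hun : IsDisc (un (25 ^ I)) := fin_disc fun _ hk => un_zero (N := 25 ^ I) hk
  have h2 : ev lac ζ = ev (lar I) ζ + (25 ^ I : ℂ) * ζ ^ (25 ^ I) := by
    conv_lhs => rw [lac_eq I]
    rw [ev_add (lar_disc I) (hun.smul _) hζ1, ev_smul, ev_un]
  have h3 : ∑ j ∈ range k, lac j * ζ ^ j = ∑ j ∈ range k, lar I j * ζ ^ j := by
    refine sum_congr rfl fun j hj => ?_
    have : j ≠ 25 ^ I := by
      have := mem_range.1 hj
      omega
    unfold lar
    rw [if_neg this]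
  have h4 := ev_sh (lar_disc I) k hζ1
  have h5 : ζ ^ k * ev (sh k lac) ζ - (25 ^ I : ℂ) * ζ ^ (25 ^ I) =
      ζ ^ k * ev (sh k (lar I)) ζ := by
    rw [h1, h4, h2, h3]
    ring
  rw [h5]
  have hs := (lar_disc I).abs (norm_nonneg ζ) hζ1
  have h6 : ‖ζ ^ k * ev (sh k (lar I)) ζ‖ ≤ ∑' N, ‖lar I (N + k)‖ * ‖ζ‖ ^ (N + k) := by
    unfold ev
    rw [← tsum_mul_left]
    apply tsum_of_norm_bounded ((summable_nat_add_iff k).2 hs).hasSum
    intro N
    unfold sh
    rw [norm_mul, norm_mul, norm_pow, norm_pow, pow_add]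
    apply le_of_eq
    ring
  refine h6.trans (le_trans ?_ (lar_sum I hI))
  rw [← hζ]
  have h7 := hs.sum_add_tsum_nat_add k
  rw [← h7]
  have : 0 ≤ ∑ N ∈ range k, ‖lar I N‖ * ‖ζ‖ ^ N := sum_nonneg fun N _ => by positivity
  linarith

end Pool.Agent.H758R2.Besov
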