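import Pool.Agent.H758R2.Besov.Lacunary

set_option autoImplicit false

open Finset Metric Filter Topology MeasureTheory Real

namespace Pool.Agent.H758R2.Besov

/-! ### Parseval's identity on the roots of unity -/

/-- roots of unity -/
noncomputable def om (L : ℕ) : ℂ := Complex.exp (2 * π * Complex.I / L)

lemma om_prim {L : ℕ} (hL : 0 < L) : IsPrimitiveRoot (om L) L :=
  Complex.isPrimitiveRoot_exp L hL.ne'

lemma om_norm {L : ℕ} (hL : 0 < L) : ‖om L‖ = 1 :=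
  Complex.norm_eq_one_of_pow_eq_one (om_prim hL).pow_eq_one hL.ne'

lemma char_sum {L : ℕ} (hL : 0 < L) {k l : ℕ} (hk : k < L) (hl : l < L) :
    ∑ j ∈ range L, (om L ^ j) ^ k * (starRingEnd ℂ) ((om L ^ j) ^ l) =
      if k = l then (L : ℂ) else 0 := by
  have hn := om_norm hL
  have h0 : om L ≠ 0 := by
    intro h
    rw [h] at hn
    simp at hn
  have hconj : (starRingEnd ℂ) (om L) = (om L)⁻¹ := (Complex.inv_eq_conj hn).symm
  have h1 : ∀ j, (om L ^ j) ^ k * (starRingEnd ℂ) ((om L ^ j) ^ l) =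
      (om L ^ k * ((om L)⁻¹) ^ l) ^ j := by
    intro j
    rw [map_pow, map_pow, hconj, mul_pow, ← pow_mul, ← pow_mul, ← pow_mul, ← pow_mul,
      mul_comm j k, mul_comm j l]
  simp_rw [h1]
  split_ifs with h
  · subst h
    have h2 : om L ^ k * (om L)⁻¹ ^ k = 1 := by
      rw [← mul_pow, mul_inv_cancel₀ h0, one_pow]
    rw [h2]
    simp
  · have h2 : om L ^ k * (om L)⁻¹ ^ l ≠ 1 := by
      intro h3
      apply h
      apply (om_prim hL).pow_inj hk hl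
      rw [inv_pow, mul_inv_eq_one₀ (pow_ne_zero _ h0)] at h3
      exact h3
    rw [geom_sum_eq h2]
    have h3 : (om L ^ k * (om L)⁻¹ ^ l) ^ L = 1 := by
      rw [mul_pow, ← pow_mul, ← pow_mul, mul_comm k L, mul_comm l L, pow_mul, pow_mul, inv_pow,
        (om_prim hL).pow_eq_one]
      simp
    rw [h3, sub_self, zero_div]

lemma parseval {L : ℕ} (hL : 0 < L) (c : ℕ → ℂ) {K : ℕ} (hK : K ≤ L) :
    ∑ j ∈ range L, ‖∑ k ∈ range K, c k * (om L ^ j) ^ k‖ ^ 2 =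
      L * ∑ k ∈ range K, ‖c k‖ ^ 2 := by
  have h1 : ((∑ j ∈ range L, ‖∑ k ∈ range K, c k * (om L ^ j) ^ k‖ ^ 2 : ℝ) : ℂ) =
      ((L * ∑ k ∈ range K, ‖c k‖ ^ 2 : ℝ) : ℂ) := by
    push_cast
    have h2 : ∀ a : ℂ, ((‖a‖ : ℝ) : ℂ) ^ 2 = a * (starRingEnd ℂ) a := by
      intro a
      rw [Complex.mul_conj, Complex.normSq_eq_norm_sq]
      push_cast
      rfl
    simp_rw [h2]
    have h3 : ∀ j, (∑ k ∈ range K, c k * (om L ^ j) ^ k) *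
        (starRingEnd ℂ) (∑ k ∈ range K, c k * (om L ^ j) ^ k) =
        ∑ k ∈ range K, ∑ l ∈ range K, (c k * (starRingEnd ℂ) (c l)) *
          ((om L ^ j) ^ k * (starRingEnd ℂ) ((om L ^ j) ^ l)) := by
      intro j
      rw [map_sum, sum_mul_sum]
      refine sum_congr rfl fun k _ => sum_congr rfl fun l _ => ?_
      rw [map_mul]
      ring
    simp_rw [h3]
    rw [sum_comm]
    rw [mul_sum]
    refine sum_congr rfl fun k hk => ?_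
    have hk' : k < L := lt_of_lt_of_le (mem_range.1 hk) hK
    rw [sum_comm]
    have h4 : ∀ l ∈ range K, ∑ j ∈ range L, (c k * (starRingEnd ℂ) (c l)) *
          ((om L ^ j) ^ k * (starRingEnd ℂ) ((om L ^ j) ^ l)) =
        if k = l then (c k * (starRingEnd ℂ) (c l)) * (L : ℂ) else 0 := by
      intro l hl
      have hl' : l < L := lt_of_lt_of_le (mem_range.1 hl) hK
      rw [← mul_sum, char_sum hL hk' hl']
      split_ifs <;> simp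
    rw [sum_congr rfl h4, sum_ite_eq, if_pos hk]
    ring
  exact_mod_cast h1

/-! ### the Hankel operator on polynomials -/

lemma IsHankel.coeff_pol {ν : ℕ} {φ : Binf 1} {H : B1 1 (ν + 2) →L[ℂ] Binf 1}
    (h : IsHankel φ H) (c : ℕ → ℂ) (K m : ℕ) :
    (H (pol ν c K)).c m = ∑ k ∈ range K, φ.c (m + k) * c k := by
  have h1 := (h (pol ν c K) m).2
  have h2 : ∀ r : ℝ, ∑' k, φ.c (m + k) * (pol ν c K).c k * (r : ℂ) ^ k =
      ∑ k ∈ range K, φ.c (m + k) * c k * (r : ℂ) ^ k := by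
    intro r
    rw [tsum_eq_sum (s := range K)]
    · refine sum_congr rfl fun k hk => ?_
      rw [pol_c]
      simp only [if_pos (mem_range.1 hk)]
    · intro k hk
      have hk' : ¬ k < K := by simpa using hk
      rw [pol_c]
      simp only [if_neg hk']
      simp
  simp_rw [h2] at h1
  have h3 : Tendsto (fun r : ℝ => ∑ k ∈ range K, φ.c (m + k) * c k * (r : ℂ) ^ k) (𝓝[<] 1)
      (𝓝 (∑ k ∈ range K, φ.c (m + k) * c k * ((1 : ℝ) : ℂ) ^ k)) := by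
    have h4 : Continuous fun r : ℝ => ∑ k ∈ range K, φ.c (m + k) * c k * (r : ℂ) ^ k := by
      fun_prop
    exact (h4.tendsto 1).mono_left nhdsWithin_le_nhds
  rw [tendsto_nhds_unique h1 h3]
  simp

lemma IsHankel.ev_pol {ν : ℕ} {φ : Binf 1} {H : B1 1 (ν + 2) →L[ℂ] Binf 1}
    (h : IsHankel φ H) (c : ℕ → ℂ) (K : ℕ) {ζ : ℂ} (hζ : ‖ζ‖ < 1) :
    ev (H (pol ν c K)).c ζ = ∑ k ∈ range K, c k * ev (sh k φ.c) ζ := by
  unfold ev
  have h1 : ∀ m, (H (pol ν c K)).c m * ζ ^ m =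
      ∑ k ∈ range K, c k * (sh k φ.c m * ζ ^ m) := by
    intro m
    rw [h.coeff_pol, sum_mul]
    refine sum_congr rfl fun k _ => ?_
    unfold sh
    ring
  simp_rw [h1]
  rw [Summable.tsum_finsetSum fun k _ => (φ.disc.sh k ζ hζ).mul_left _]
  refine sum_congr rfl fun k _ => ?_
  rw [tsum_mul_left]

/-- The lower bound. -/
lemma lower {ν : ℕ} {H : B1 1 (ν + 2) →L[ℂ] Binf 1} (h : IsHankel Phi H) {K I : ℕ} (hI : 1 ≤ I)
    (hK : K ≤ 25 ^ I) {w : ℂ} (hw : ‖w‖ = 1) :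
    (∑ k ∈ range K, ((k : ℝ))⁻¹) / 8 ≤ ‖H (pol ν (fun k => ((((k : ℝ))⁻¹ : ℝ) : ℂ) * w ^ k) K)‖ := by
  have hQ : (25 : ℝ) ≤ 25 ^ I := by
    calc (25 : ℝ) = 25 ^ 1 := by norm_num
      _ ≤ 25 ^ I := pow_le_pow_right₀ (by norm_num) hI
  have hlow := pow_lower (N := 25 ^ I) (by
    have : (25 : ℕ) ^ 1 ≤ 25 ^ I := Nat.pow_le_pow_right (by norm_num) hI
    omega)
  push_cast at hlow
  set Q : ℝ := 25 ^ I with hQdef
  have hQ0 : 0 < Q := by linarith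
  set ρ : ℝ := 1 - 1 / Q with hρ
  have hρ0 : 0 < ρ := by
    rw [hρ, sub_pos, div_lt_one hQ0]; linarith
  have hρ1 : ρ < 1 := by
    rw [hρ]
    have : 0 < 1 / Q := by positivity
    linarith
  let ζ : ℂ := (ρ : ℂ) * w
  have hζ : ‖ζ‖ = ρ := by
    show ‖(ρ : ℂ) * w‖ = ρ
    rw [norm_mul, hw, mul_one, Complex.norm_real, Real.norm_of_nonneg hρ0.le]
  have hζ1 : ‖ζ‖ < 1 := by rw [hζ]; exact hρ1
  set x := pol ν (fun k => ((((k : ℝ))⁻¹ : ℝ) : ℂ) * w ^ k) K with hx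
  have h1 := (H x).gr ζ hζ1
  rw [hζ, Real.rpow_neg_one] at h1
  have h2 : 1 - ρ = Q⁻¹ := by rw [hρ]; ring
  rw [h2, inv_inv] at h1
  -- the value at `ζ`
  have h3 : ∀ k ∈ range K, ((((k : ℝ))⁻¹ : ℝ) : ℂ) * w ^ k * ev (sh k Phi.c) ζ =
      ((((k : ℝ))⁻¹ * (ρ ^ k)⁻¹ : ℝ) : ℂ) * ((Q : ℂ) * ζ ^ (25 ^ I)) +
      ((((k : ℝ))⁻¹ * (ρ ^ k)⁻¹ : ℝ) : ℂ) *
        (ζ ^ k * ev (sh k lac) ζ - (25 ^ I : ℂ) * ζ ^ (25 ^ I)) := by
    intro k _
    have e1 : ζ ^ k = (ρ : ℂ) ^ k * w ^ k := mul_pow _ _ _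
    have e2 : (ρ : ℂ) ^ k ≠ 0 := by
      apply pow_ne_zero
      exact_mod_cast hρ0.ne'
    have e3 : ((Q : ℝ) : ℂ) = 25 ^ I := by rw [hQdef]; push_cast; rfl
    rw [← mul_add, e3, add_sub_cancel, e1, Phi_c]
    push_cast
    field_simp
  have h4 : ev (H x).c ζ = ((∑ k ∈ range K, ((k : ℝ))⁻¹ * (ρ ^ k)⁻¹ : ℝ) : ℂ) *
      ((Q : ℂ) * ζ ^ (25 ^ I)) + ∑ k ∈ range K, ((((k : ℝ))⁻¹ * (ρ ^ k)⁻¹ : ℝ) : ℂ) *
        (ζ ^ k * ev (sh k lac) ζ - (25 ^ I : ℂ) * ζ ^ (25 ^ I)) := by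
    rw [hx, h.ev_pol _ _ hζ1, sum_congr rfl h3, sum_add_distrib, ← sum_mul]
    push_cast
    rfl
  set W := ∑ k ∈ range K, ((k : ℝ))⁻¹ * (ρ ^ k)⁻¹ with hW
  have hW0 : 0 ≤ W := sum_nonneg fun k _ => by positivity
  have h5 : ‖∑ k ∈ range K, ((((k : ℝ))⁻¹ * (ρ ^ k)⁻¹ : ℝ) : ℂ) *
        (ζ ^ k * ev (sh k lac) ζ - (25 ^ I : ℂ) * ζ ^ (25 ^ I))‖ ≤ W * (Q / 8) := by
    refine (norm_sum_le _ _).trans ?_
    rw [hW, sum_mul]
    refine sum_le_sum fun k hk => ?_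
    rw [norm_mul, Complex.norm_real, Real.norm_of_nonneg (by positivity)]
    have e1 := ev_sh_lac I hI (k := k) ((mem_range.1 hk).le.trans hK) (ζ := ζ) hζ
    rw [← hQdef] at e1
    apply mul_le_mul_of_nonneg_left e1 (by positivity)
  have h6 : ‖((W : ℝ) : ℂ) * ((Q : ℂ) * ζ ^ (25 ^ I))‖ = W * (Q * ρ ^ (25 ^ I)) := by
    rw [norm_mul, norm_mul, norm_pow, Complex.norm_real, Complex.norm_real,
      Real.norm_of_nonneg hW0, Real.norm_of_nonneg hQ0.le, hζ]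
  have h7 : W * (Q * (1 / 4)) - W * (Q / 8) ≤ ‖ev (H x).c ζ‖ := by
    rw [h4]
    have e1 := norm_sub_le_norm_add (((W : ℝ) : ℂ) * ((Q : ℂ) * ζ ^ (25 ^ I)))
      (∑ k ∈ range K, ((((k : ℝ))⁻¹ * (ρ ^ k)⁻¹ : ℝ) : ℂ) *
        (ζ ^ k * ev (sh k lac) ζ - (25 ^ I : ℂ) * ζ ^ (25 ^ I)))
    rw [h6] at e1
    have e2 : W * (Q * (1 / 4)) ≤ W * (Q * ρ ^ (25 ^ I)) := by gcongr
    linarith
  have h8 : ∑ k ∈ range K, ((k : ℝ))⁻¹ ≤ W := by
    rw [hW]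
    refine sum_le_sum fun k _ => ?_
    have e1 : 1 ≤ (ρ ^ k)⁻¹ := by
      rw [one_le_inv₀ (by positivity)]
      exact pow_le_one₀ hρ0.le hρ1.le
    have e2 : (0 : ℝ) ≤ ((k : ℝ))⁻¹ := by positivity
    nlinarith
  have h9 : W * Q / 8 ≤ ‖H x‖ * Q := by
    calc W * Q / 8 = W * (Q * (1 / 4)) - W * (Q / 8) := by ring
      _ ≤ _ := h7.trans h1
  have h10 : W / 8 ≤ ‖H x‖ := by
    have : W / 8 * Q ≤ ‖H x‖ * Q := by linarith
    exact le_of_mul_le_mul_right this hQ0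
  linarith

lemma harm (M : ℕ) : (M : ℝ) / 2 ≤ ∑ k ∈ range (2 ^ M), ((k : ℝ))⁻¹ := by
  induction M with
  | zero => simp
  | succ M ih =>
    have h2 : 2 ^ M ≤ 2 ^ (M + 1) := Nat.pow_le_pow_right (by norm_num) (by omega)
    rw [← Finset.sum_range_add_sum_Ico _ h2]
    have h3 : ∑ k ∈ Ico ((2 : ℕ) ^ M) (2 ^ (M + 1)), ((2 : ℝ) ^ (M + 1))⁻¹ ≤
        ∑ k ∈ Ico ((2 : ℕ) ^ M) (2 ^ (M + 1)), ((k : ℝ))⁻¹ := by
      refine sum_le_sum fun k hk => ?_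
      have h4 := mem_Ico.1 hk
      have h5 : (0 : ℝ) < k := by
        have : 0 < 2 ^ M := by positivity
        exact_mod_cast lt_of_lt_of_le this h4.1
      apply inv_anti₀ h5
      exact_mod_cast h4.2.le
    rw [sum_const, Nat.card_Ico, nsmul_eq_mul] at h3
    have h6 : ((2 ^ (M + 1) - 2 ^ M : ℕ) : ℝ) * ((2 : ℝ) ^ (M + 1))⁻¹ = 1 / 2 := by
      have : 2 ^ (M + 1) - 2 ^ M = 2 ^ M := by rw [pow_succ]; omega
      rw [this, pow_succ]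
      push_cast
      field_simp
    rw [h6] at h3
    push_cast
    linarith

/-- The upper bound at one radius. -/
lemma upper_radius {ν L : ℕ} (hL : 0 < L) {s : ℝ} (h0 : 0 ≤ s) (h1 : s < 1)
    (ht : tau (ν + 2) s L * cV ≤ 1) {ξ : B1 1 (ν + 2) →L[ℂ] ℂ} (hξ : ‖ξ‖ ≤ 1) :
    ∑ k ∈ range L, (s ^ k) ^ 2 * ‖ξ (mon ν k)‖ ^ 2 ≤ (cB (ν + 2) * (1 - s)⁻¹ + 1) ^ 2 := by
  have hp := parseval hL (fun k => (s : ℂ) ^ k * ξ (mon ν k)) (le_refl L)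
  have h2 : ∀ j ∈ range L, ‖∑ k ∈ range L, (s : ℂ) ^ k * ξ (mon ν k) * (om L ^ j) ^ k‖ ^ 2 ≤
      (cB (ν + 2) * (1 - s)⁻¹ + 1) ^ 2 := by
    intro j _
    have e1 : ‖(s : ℂ) * om L ^ j‖ = s := by
      rw [norm_mul, norm_pow, om_norm hL, one_pow, mul_one, Complex.norm_real,
        Real.norm_of_nonneg h0]
    have e2 : ∑ k ∈ range L, (s : ℂ) ^ k * ξ (mon ν k) * (om L ^ j) ^ k =
        ξ (pol ν (fun k => ((s : ℂ) * om L ^ j) ^ k) L) := by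
      rw [apply_pol]
      refine sum_congr rfl fun k _ => ?_
      rw [mul_pow]
      ring
    rw [e2]
    have e3 := pol_geo_norm ν L (ζ := (s : ℂ) * om L ^ j) (by rw [e1]; exact h1)
    rw [e1] at e3
    have e4 : ‖ξ (pol ν (fun k => ((s : ℂ) * om L ^ j) ^ k) L)‖ ≤
        1 * ‖pol ν (fun k => ((s : ℂ) * om L ^ j) ^ k) L‖ := ξ.le_of_opNorm_le hξ _
    apply pow_le_pow_left₀ (norm_nonneg _)
    linarith
  have h3 := sum_le_sum h2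
  rw [sum_const, card_range, nsmul_eq_mul, hp] at h3
  have hL' : (0 : ℝ) < L := by exact_mod_cast hL
  have h4 := le_of_mul_le_mul_left h3 hL'
  refine le_trans (le_of_eq ?_) h4
  refine sum_congr rfl fun k _ => ?_
  rw [norm_mul, norm_pow, Complex.norm_real, Real.norm_of_nonneg h0, mul_pow]

/-- The dyadic radii. -/
noncomputable def sr (i : ℕ) : ℝ := 1 - 1 / ((2 ^ (i + 1) : ℕ) : ℝ)

lemma sr_nonneg (i : ℕ) : 0 ≤ sr i := by
  unfold sr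
  rw [sub_nonneg, div_le_one (by positivity)]
  have : 1 ≤ 2 ^ (i + 1) := Nat.one_le_two_pow
  exact_mod_cast this

lemma sr_lt (i : ℕ) : sr i < 1 := by
  unfold sr
  have : 0 < 1 / ((2 ^ (i + 1) : ℕ) : ℝ) := by positivity
  linarith

lemma sr_inv (i : ℕ) : (1 - sr i)⁻¹ = 2 ^ (i + 1) := by
  unfold sr
  rw [sub_sub_cancel, one_div, inv_inv]
  push_cast
  rfl

/-- The constant in the upper bound. -/
noncomputable def cD (n : ℕ) : ℝ := 64 * (cB n + 1) ^ 2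

lemma upper {ν L : ℕ} (hL : 0 < L) (M : ℕ) (hM : 2 ^ M ≤ L)
    (ht : ∀ i < M, tau (ν + 2) (sr i) L * cV ≤ 1) {ξ : B1 1 (ν + 2) →L[ℂ] ℂ} (hξ : ‖ξ‖ ≤ 1) :
    ∑ k ∈ range (2 ^ M), (((k : ℝ))⁻¹) ^ 2 * ‖ξ (mon ν k)‖ ^ 2 ≤ cD (ν + 2) * M := by
  induction M with
  | zero => simp
  | succ M ih =>
    have h2 : 2 ^ M ≤ 2 ^ (M + 1) := Nat.pow_le_pow_right (by norm_num) (by omega)
    have ih' := ih (h2.trans hM) (fun i hi => ht i (by omega))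
    rw [← Finset.sum_range_add_sum_Ico _ h2]
    have h3 := upper_radius hL (sr_nonneg M) (sr_lt M) (ht M (by omega)) hξ
    rw [sr_inv] at h3
    have h4 := pow_lower (N := 2 ^ (M + 1)) (by
      have : 2 ^ 1 ≤ 2 ^ (M + 1) := Nat.pow_le_pow_right (by norm_num) (by omega)
      omega)
    have h4' : (1 / 4 : ℝ) ≤ sr M ^ (2 ^ (M + 1)) := h4
    have h5 : ∑ k ∈ Ico ((2 : ℕ) ^ M) (2 ^ (M + 1)), (((k : ℝ))⁻¹) ^ 2 * ‖ξ (mon ν k)‖ ^ 2 ≤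
        (((2 : ℝ) ^ M)⁻¹) ^ 2 * 16 * ∑ k ∈ range L, (sr M ^ k) ^ 2 * ‖ξ (mon ν k)‖ ^ 2 := by
      calc ∑ k ∈ Ico ((2 : ℕ) ^ M) (2 ^ (M + 1)), (((k : ℝ))⁻¹) ^ 2 * ‖ξ (mon ν k)‖ ^ 2
          ≤ ∑ k ∈ Ico ((2 : ℕ) ^ M) (2 ^ (M + 1)), (((2 : ℝ) ^ M)⁻¹) ^ 2 * 16 *
              ((sr M ^ k) ^ 2 * ‖ξ (mon ν k)‖ ^ 2) := by
            refine sum_le_sum fun k hk => ?_
            have h6 := mem_Ico.1 hk
            have h7 : (2 : ℝ) ^ M ≤ k := by exact_mod_cast h6.1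
            have h8 : ((k : ℝ))⁻¹ ≤ ((2 : ℝ) ^ M)⁻¹ := inv_anti₀ (by positivity) h7
            have h9 : (1 / 4 : ℝ) ≤ sr M ^ k :=
              h4'.trans (pow_le_pow_of_le_one (sr_nonneg M) (sr_lt M).le h6.2.le)
            have h10 : (1 : ℝ) ≤ 16 * (sr M ^ k) ^ 2 := by nlinarith
            calc (((k : ℝ))⁻¹) ^ 2 * ‖ξ (mon ν k)‖ ^ 2
                ≤ (((2 : ℝ) ^ M)⁻¹) ^ 2 * ‖ξ (mon ν k)‖ ^ 2 := by gcongr
              _ = (((2 : ℝ) ^ M)⁻¹) ^ 2 * 1 * ‖ξ (mon ν k)‖ ^ 2 := by ring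
              _ ≤ (((2 : ℝ) ^ M)⁻¹) ^ 2 * (16 * (sr M ^ k) ^ 2) * ‖ξ (mon ν k)‖ ^ 2 := by gcongr
              _ = _ := by ring
        _ = (((2 : ℝ) ^ M)⁻¹) ^ 2 * 16 *
              ∑ k ∈ Ico ((2 : ℕ) ^ M) (2 ^ (M + 1)), (sr M ^ k) ^ 2 * ‖ξ (mon ν k)‖ ^ 2 := by
            rw [mul_sum]
        _ ≤ _ := by
            apply mul_le_mul_of_nonneg_left _ (by positivity)
            apply sum_le_sum_of_subset_of_nonneg
            · intro k hk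
              have := (mem_Ico.1 hk).2
              exact mem_range.2 (by omega)
            · intro k _ _
              positivity
    have h6 : (((2 : ℝ) ^ M)⁻¹) ^ 2 * 16 * (cB (ν + 2) * 2 ^ (M + 1) + 1) ^ 2 ≤ cD (ν + 2) := by
      have e1 : cB (ν + 2) * 2 ^ (M + 1) + 1 ≤ 2 ^ (M + 1) * (cB (ν + 2) + 1) := by
        have : (1 : ℝ) ≤ 2 ^ (M + 1) := one_le_pow₀ (by norm_num)
        linarith
      have e0 := cB_nonneg (ν + 2)
      calc (((2 : ℝ) ^ M)⁻¹) ^ 2 * 16 * (cB (ν + 2) * 2 ^ (M + 1) + 1) ^ 2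
          ≤ (((2 : ℝ) ^ M)⁻¹) ^ 2 * 16 * (2 ^ (M + 1) * (cB (ν + 2) + 1)) ^ 2 := by gcongr
        _ = cD (ν + 2) := by
            unfold cD
            rw [pow_succ (2 : ℝ) M]
            field_simp
            norm_num
    push_cast
    calc _ ≤ cD (ν + 2) * M + (((2 : ℝ) ^ M)⁻¹) ^ 2 * 16 *
          (cB (ν + 2) * 2 ^ (M + 1) + 1) ^ 2 := by
          apply add_le_add ih'
          exact h5.trans (mul_le_mul_of_nonneg_left h3 (by positivity))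
      _ ≤ _ := by linarith

lemma cD_nonneg (n : ℕ) : 0 ≤ cD n := by
  unfold cD
  positivity

/-- The Hankel operator of the lacunary symbol is not `2`-summing. -/
theorem not_twoSumming {ν : ℕ} {H : B1 1 (ν + 2) →L[ℂ] Binf 1} (h : IsHankel Phi H) :
    ¬ TwoSumming H := by
  rintro ⟨C, hC⟩
  obtain ⟨M, hM⟩ := exists_nat_gt (256 * C ^ 2 * cD (ν + 2))
  have hM0 : (0 : ℝ) < M := by
    have := cD_nonneg (ν + 2)
    exact lt_of_le_of_lt (by positivity) hM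
  -- the choice of the parameter
  have hev : ∀ᶠ L : ℕ in atTop, 2 ^ M ≤ L ∧ ∀ i ∈ range M, tau (ν + 2) (sr i) L * cV ≤ 1 := by
    apply (eventually_ge_atTop (2 ^ M)).and
    rw [Filter.eventually_all_finset]
    intro i _
    have h1 := (tau_tendsto (ν + 2) (sr_nonneg i) (sr_lt i)).mul_const cV
    rw [zero_mul] at h1
    exact h1.eventually (eventually_le_nhds one_pos)
  have hpow : Tendsto (fun I : ℕ => 25 ^ I) atTop atTop :=
    tendsto_pow_atTop_atTop_of_one_lt (by norm_num)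
  obtain ⟨I, hI, hI1⟩ := ((hpow.eventually hev).and (eventually_ge_atTop 1)).exists
  set L : ℕ := 25 ^ I with hLdef
  have hL : 0 < L := by positivity
  have hL' : (0 : ℝ) < L := by exact_mod_cast hL
  let x : Fin L → B1 1 (ν + 2) := fun j =>
    pol ν (fun k => ((((k : ℝ))⁻¹ : ℝ) : ℂ) * (om L ^ (j : ℕ)) ^ k) (2 ^ M)
  have h1 := hC L x
  have h2 : (L : ℝ) * (M / 16) ^ 2 ≤ ∑ j, ‖H (x j)‖ ^ 2 := by
    have h3 : ∀ j ∈ (Finset.univ : Finset (Fin L)), ((M : ℝ) / 16) ^ 2 ≤ ‖H (x j)‖ ^ 2 := by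
      intro j _
      have e1 : ‖om L ^ (j : ℕ)‖ = 1 := by rw [norm_pow, om_norm hL, one_pow]
      have e2 := lower h hI1 (K := 2 ^ M) hI.1 e1
      have e3 := harm M
      apply pow_le_pow_left₀ (by positivity)
      refine le_trans ?_ e2
      linarith
    have h4 := sum_le_sum h3
    rw [sum_const, card_univ, Fintype.card_fin, nsmul_eq_mul] at h4
    exact h4
  have h5 : (⨆ ξ : {ξ : B1 1 (ν + 2) →L[ℂ] ℂ // ‖ξ‖ ≤ 1}, ∑ j, ‖ξ.1 (x j)‖ ^ 2) ≤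
      L * (cD (ν + 2) * M) := by
    have : Nonempty {ξ : B1 1 (ν + 2) →L[ℂ] ℂ // ‖ξ‖ ≤ 1} := ⟨⟨0, by simp⟩⟩
    apply ciSup_le
    rintro ⟨ξ, hξ⟩
    have e1 : ∑ j : Fin L, ‖ξ (x j)‖ ^ 2 = ∑ j ∈ range L, ‖∑ k ∈ range (2 ^ M),
        (((((k : ℝ))⁻¹ : ℝ) : ℂ) * ξ (mon ν k)) * (om L ^ j) ^ k‖ ^ 2 := by
      rw [← Fin.sum_univ_eq_sum_range (fun j => ‖∑ k ∈ range (2 ^ M),
        (((((k : ℝ))⁻¹ : ℝ) : ℂ) * ξ (mon ν k)) * (om L ^ j) ^ k‖ ^ 2) L]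
      refine sum_congr rfl fun j _ => ?_
      show ‖ξ (pol ν (fun k => ((((k : ℝ))⁻¹ : ℝ) : ℂ) * (om L ^ (j : ℕ)) ^ k) (2 ^ M))‖ ^ 2 = _
      rw [apply_pol]
      congr 2
      refine sum_congr rfl fun k _ => ?_
      ring
    show ∑ j : Fin L, ‖ξ (x j)‖ ^ 2 ≤ _
    rw [e1, parseval hL _ hI.1]
    apply mul_le_mul_of_nonneg_left _ hL'.le
    refine le_trans (le_of_eq ?_) (upper hL M hI.1 (fun i hi => hI.2 i (mem_range.2 hi)) hξ)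
    refine sum_congr rfl fun k _ => ?_
    rw [norm_mul, Complex.norm_real, Real.norm_of_nonneg (by positivity), mul_pow]
  have h6 : (L : ℝ) * (M / 16) ^ 2 ≤ C ^ 2 * (L * (cD (ν + 2) * M)) :=
    (h2.trans h1).trans (mul_le_mul_of_nonneg_left h5 (sq_nonneg C))
  have h7 : (L : ℝ) * M * M ≤ (L : ℝ) * M * (256 * C ^ 2 * cD (ν + 2)) := by nlinarith
  have h8 := le_of_mul_le_mul_left h7 (by positivity)
  linarith

end Pool.Agent.H758R2.Besov
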