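import Pool.Agent.H758R2.Besov.Spaces

set_option autoImplicit false

open Finset Metric Filter Topology MeasureTheory Real

namespace Pool.Agent.H758R2.Besov

/-! ### coefficient bounds -/

lemma Gr.nonneg {α M : ℝ} {a : ℕ → ℂ} (h : Gr α M a) : 0 ≤ M := by
  have := (norm_nonneg _).trans (h 0 (by simp))
  simpa using this

/-- the constant in the coefficient bound -/
noncomputable def cA (α : ℝ) : ℝ := Real.exp 1 * 2 ^ α

lemma cA_pos (α : ℝ) : 0 < cA α := by unfold cA; positivity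

lemma one_le_cA {α : ℝ} (hα : 0 ≤ α) : 1 ≤ cA α := by
  unfold cA
  have h1 : (1 : ℝ) ≤ Real.exp 1 := Real.one_le_exp (by norm_num)
  have h2 : (1 : ℝ) ≤ 2 ^ α := Real.one_le_rpow (by norm_num) hα
  nlinarith

lemma coeff_le {α M : ℝ} (hα : 0 ≤ α) {a : ℕ → ℂ} (ha : IsDisc a) (h : Gr α M a) (k : ℕ) :
    ‖a k‖ ≤ cA α * M * ((k : ℝ) + 1) ^ α := by
  have hM := h.nonneg
  set r : ℝ := ((k : ℝ) + 1) / ((k : ℝ) + 2) with hr
  have hk : (0 : ℝ) ≤ k := Nat.cast_nonneg k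
  have hr0 : 0 < r := by positivity
  have hr1 : r < 1 := by rw [hr, div_lt_one (by positivity)]; linarith
  have h1r : 1 - r = ((k : ℝ) + 2)⁻¹ := by rw [hr]; field_simp; ring
  have h1 := cauchy ha hr0 hr1 (C := M * ((k : ℝ) + 2) ^ α) (fun z hz => by
    have := h z (by rw [hz]; exact hr1)
    rwa [hz, h1r, Real.inv_rpow (by positivity), Real.rpow_neg (by positivity), inv_inv] at this) k
  have h2 : (r⁻¹) ^ k ≤ Real.exp 1 := by
    have h3 : r⁻¹ ≤ Real.exp (1 / ((k : ℝ) + 1)) := by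
      have := Real.add_one_le_exp (1 / ((k : ℝ) + 1))
      refine le_trans (le_of_eq ?_) this
      rw [hr]
      field_simp
      ring
    calc (r⁻¹) ^ k ≤ (Real.exp (1 / ((k : ℝ) + 1))) ^ k := by gcongr
      _ = Real.exp (k * (1 / ((k : ℝ) + 1))) := by rw [← Real.exp_nat_mul]
      _ ≤ Real.exp 1 := by
          apply Real.exp_le_exp.2
          rw [mul_one_div, div_le_one (by positivity)]
          linarith
  have h4 : ((k : ℝ) + 2) ^ α ≤ 2 ^ α * ((k : ℝ) + 1) ^ α := by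
    rw [← Real.mul_rpow (by norm_num) (by positivity)]
    apply Real.rpow_le_rpow (by positivity) _ hα
    linarith
  calc ‖a k‖ = (‖a k‖ * r ^ k) * (r⁻¹) ^ k := by
        rw [mul_assoc, ← mul_pow, mul_inv_cancel₀ hr0.ne', one_pow, mul_one]
    _ ≤ (M * ((k : ℝ) + 2) ^ α) * Real.exp 1 := by gcongr
    _ ≤ (M * (2 ^ α * ((k : ℝ) + 1) ^ α)) * Real.exp 1 := by gcongr
    _ = _ := by unfold cA; ring

/-! ### shifts -/

/-- backward shift -/
def sh (n : ℕ) (a : ℕ → ℂ) (k : ℕ) : ℂ := a (k + n)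

lemma IsDisc.sh {a : ℕ → ℂ} (ha : IsDisc a) (n : ℕ) : IsDisc (sh n a) := by
  apply IsDisc.of_abs
  intro r h0 h1
  obtain ⟨ρ, hρ1, hρ2⟩ := exists_between h1
  have hρ0 : 0 < ρ := lt_of_le_of_lt h0 hρ1
  have h2 := (summable_nat_add_iff n).2 (ha.abs hρ0.le hρ2)
  refine Summable.of_nonneg_of_le (fun k => by positivity) (fun k => ?_)
    (h2.mul_left (ρ ^ n)⁻¹)
  unfold Besov.sh
  rw [pow_add]
  have : r ^ k ≤ ρ ^ k := by gcongr
  calc ‖a (k + n)‖ * r ^ k ≤ ‖a (k + n)‖ * ρ ^ k := by gcongr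
    _ = _ := by field_simp

lemma ev_sh {a : ℕ → ℂ} (ha : IsDisc a) (n : ℕ) {z : ℂ} (hz : ‖z‖ < 1) :
    z ^ n * ev (sh n a) z = ev a z - ∑ k ∈ range n, a k * z ^ k := by
  have h1 := (ha z hz).sum_add_tsum_nat_add n
  unfold ev
  rw [← h1, add_sub_cancel_left, ← tsum_mul_left]
  congr 1
  ext k
  unfold Besov.sh
  rw [pow_add]
  ring

lemma summable_aux (α : ℝ) (n : ℕ) :
    Summable fun k : ℕ => ((k : ℝ) + n + 1) ^ α * (1 / 2) ^ k := by
  have h1 : IsDisc fun k : ℕ => ((((k : ℝ) + n + 1) ^ α : ℝ) : ℂ) := by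
    rcases le_or_gt 0 α with hα | hα
    · apply IsDisc.of_le (C := ((n : ℝ) + 1) ^ α) (c := α)
      intro k
      rw [Complex.norm_real, Real.norm_of_nonneg (by positivity),
        ← Real.mul_rpow (by positivity) (by positivity)]
      apply Real.rpow_le_rpow (by positivity) _ hα
      have : (0 : ℝ) ≤ k := Nat.cast_nonneg k
      have : (0 : ℝ) ≤ n := Nat.cast_nonneg n
      nlinarith
    · apply IsDisc.of_le (C := 1) (c := 0)
      intro k
      rw [Complex.norm_real, Real.norm_of_nonneg (by positivity), Real.rpow_zero, mul_one]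
      apply Real.rpow_le_one_of_one_le_of_nonpos _ hα.le
      have : (0 : ℝ) ≤ k := Nat.cast_nonneg k
      have : (0 : ℝ) ≤ n := Nat.cast_nonneg n
      linarith
  have h2 := h1.abs (r := 1 / 2) (by norm_num) (by norm_num)
  refine h2.congr fun k => ?_
  rw [Complex.norm_real, Real.norm_of_nonneg (by positivity)]

/-- the constant for the shift -/
noncomputable def cS (α : ℝ) (n : ℕ) : ℝ :=
  2 ^ n * (1 + ∑ k ∈ range n, cA α * ((k : ℝ) + 1) ^ α) +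
    cA α * ∑' k : ℕ, ((k : ℝ) + n + 1) ^ α * (1 / 2) ^ k

lemma cS_nonneg (α : ℝ) (n : ℕ) : 0 ≤ cS α n := by
  unfold cS
  have h1 := cA_pos α
  have h2 : 0 ≤ ∑' k : ℕ, ((k : ℝ) + n + 1) ^ α * (1 / 2) ^ k := tsum_nonneg fun k => by positivity
  have h3 : 0 ≤ ∑ k ∈ range n, cA α * ((k : ℝ) + 1) ^ α := sum_nonneg fun k _ => by positivity
  positivity

lemma Gr.sh {α M : ℝ} (hα : 0 ≤ α) {a : ℕ → ℂ} (ha : IsDisc a) (h : Gr α M a) (n : ℕ) :
    Gr α (cS α n * M) (sh n a) := by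
  have hM := h.nonneg
  have hcA := cA_pos α
  have hT : 0 ≤ ∑' k : ℕ, ((k : ℝ) + n + 1) ^ α * (1 / 2) ^ k := tsum_nonneg fun k => by positivity
  have hS : 0 ≤ ∑ k ∈ range n, cA α * ((k : ℝ) + 1) ^ α := sum_nonneg fun k _ => by positivity
  intro z hz
  have h1 : (1 : ℝ) ≤ (1 - ‖z‖) ^ (-α) :=
    Real.one_le_rpow_of_pos_of_le_one_of_nonpos (by linarith) (by linarith [norm_nonneg z])
      (by linarith)
  rcases le_or_gt (1 / 2) ‖z‖ with hz2 | hz2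
  · have h2 := ev_sh ha n hz
    have h3 : ‖z‖ ^ n * ‖ev (Besov.sh n a) z‖ ≤
        (1 + ∑ k ∈ range n, cA α * ((k : ℝ) + 1) ^ α) * M * (1 - ‖z‖) ^ (-α) := by
      rw [← norm_pow, ← norm_mul, h2]
      calc ‖ev a z - ∑ k ∈ range n, a k * z ^ k‖
          ≤ ‖ev a z‖ + ∑ k ∈ range n, ‖a k * z ^ k‖ :=
            (norm_sub_le _ _).trans (by gcongr; exact norm_sum_le _ _)
        _ ≤ M * (1 - ‖z‖) ^ (-α) + ∑ k ∈ range n, cA α * M * ((k : ℝ) + 1) ^ α := by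
            gcongr with k _
            · exact h z hz
            · rw [norm_mul, norm_pow]
              calc ‖a k‖ * ‖z‖ ^ k ≤ ‖a k‖ * 1 := by
                    gcongr
                    exact pow_le_one₀ (norm_nonneg _) hz.le
                _ ≤ _ := by rw [mul_one]; exact coeff_le hα ha h k
        _ = M * (1 - ‖z‖) ^ (-α) + (∑ k ∈ range n, cA α * ((k : ℝ) + 1) ^ α) * M := by
            rw [sum_mul]
            congr 1
            refine sum_congr rfl fun k _ => ?_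
            ring
        _ ≤ M * (1 - ‖z‖) ^ (-α) + (∑ k ∈ range n, cA α * ((k : ℝ) + 1) ^ α) * M
              * (1 - ‖z‖) ^ (-α) := by
            have : 0 ≤ (∑ k ∈ range n, cA α * ((k : ℝ) + 1) ^ α) * M := by positivity
            nlinarith
        _ = _ := by ring
    have h4 : (1 / 2 : ℝ) ^ n ≤ ‖z‖ ^ n := by gcongr
    have h5 : (1 / 2 : ℝ) ^ n * ‖ev (Besov.sh n a) z‖ ≤
        (1 + ∑ k ∈ range n, cA α * ((k : ℝ) + 1) ^ α) * M * (1 - ‖z‖) ^ (-α) :=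
      le_trans (by gcongr) h3
    have h6 : ‖ev (Besov.sh n a) z‖ ≤
        2 ^ n * ((1 + ∑ k ∈ range n, cA α * ((k : ℝ) + 1) ^ α) * M * (1 - ‖z‖) ^ (-α)) := by
      have h7 : (2 : ℝ) ^ n * (1 / 2 : ℝ) ^ n = 1 := by rw [← mul_pow]; norm_num
      calc ‖ev (Besov.sh n a) z‖ = 2 ^ n * ((1 / 2 : ℝ) ^ n * ‖ev (Besov.sh n a) z‖) := by
            rw [← mul_assoc, h7, one_mul]
        _ ≤ _ := by gcongr
    refine h6.trans ?_
    unfold cS
    have h8 : 0 ≤ cA α * (∑' k : ℕ, ((k : ℝ) + n + 1) ^ α * (1 / 2) ^ k) * M * (1 - ‖z‖) ^ (-α) := by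
      positivity
    nlinarith
  · have h2 : ‖ev (Besov.sh n a) z‖ ≤ cA α * M * ∑' k : ℕ, ((k : ℝ) + n + 1) ^ α * (1 / 2) ^ k := by
      unfold ev
      rw [← tsum_mul_left]
      apply tsum_of_norm_bounded ((summable_aux α n).mul_left _).hasSum
      intro k
      rw [norm_mul, norm_pow]
      unfold Besov.sh
      calc ‖a (k + n)‖ * ‖z‖ ^ k ≤ (cA α * M * ((((k + n : ℕ) : ℝ)) + 1) ^ α) * (1 / 2) ^ k := by
            gcongr
            exact coeff_le hα ha h (k + n)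
        _ = _ := by push_cast; ring
    calc ‖ev (Besov.sh n a) z‖ ≤ _ := h2
      _ ≤ cS α n * M := by
          unfold cS
          have : 0 ≤ 2 ^ n * (1 + ∑ k ∈ range n, cA α * ((k : ℝ) + 1) ^ α) * M := by positivity
          nlinarith
      _ ≤ _ := by
          have : 0 ≤ cS α n * M := mul_nonneg (cS_nonneg _ _) hM
          nlinarith

/-! ### the pairing -/

/-- the integrand of the pairing -/
noncomputable def pint (ν : ℕ) (ψ x : ℕ → ℂ) (z : ℂ) : ℂ :=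
  ev (sh (ν + 1) ψ) ((starRingEnd ℂ) z) * ev (ddn (ν + 1) x) z * ((1 - ‖z‖ ^ 2 : ℝ) : ℂ) ^ ν

/-- the pairing between `B_∞^{-α}` and `B_1^α` -/
noncomputable def L (ν : ℕ) (ψ x : ℕ → ℂ) : ℂ :=
  ∑ j ∈ range (ν + 1), ψ j * x j +
    (π * (ν.factorial : ℂ))⁻¹ * ∫ z in ball (0 : ℂ) 1, pint ν ψ x z

lemma conj_continuousOn {ψ : ℕ → ℂ} (hψ : IsDisc ψ) :
    ContinuousOn (fun z : ℂ => ev ψ ((starRingEnd ℂ) z)) (ball 0 1) := by
  apply (continuousOn_ev hψ).comp Complex.continuous_conj.continuousOn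
  intro z hz
  simpa using hz

lemma weight_continuous (ν : ℕ) : Continuous fun z : ℂ => ((1 - ‖z‖ ^ 2 : ℝ) : ℂ) ^ ν := by
  fun_prop

lemma pint_continuousOn (ν : ℕ) {ψ x : ℕ → ℂ} (hψ : IsDisc ψ) (hx : IsDisc x) :
    ContinuousOn (pint ν ψ x) (ball 0 1) := by
  unfold pint
  apply ContinuousOn.mul
  · exact (conj_continuousOn (hψ.sh _)).mul (continuousOn_ev (hx.ddn _))
  · exact (weight_continuous ν).continuousOn

lemma weight_le {ν : ℕ} {z : ℂ} (hz : ‖z‖ < 1) :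
    ‖((1 - ‖z‖ ^ 2 : ℝ) : ℂ) ^ ν‖ ≤ 2 ^ ν * (1 - ‖z‖) ^ ν := by
  have h0 := norm_nonneg z
  rw [norm_pow, Complex.norm_real, Real.norm_of_nonneg (by nlinarith), ← mul_pow]
  gcongr
  · nlinarith
  · nlinarith

lemma pint_le {α M : ℝ} {ν : ℕ} {ψ x : ℕ → ℂ}
    (h : Gr α M (sh (ν + 1) ψ)) (hx : IsDisc x) {z : ℂ} (hz : ‖z‖ < 1) :
    ‖pint ν ψ x z‖ ≤ M * 2 ^ ν * wder α (ν + 1) x z := by
  have hM := h.nonneg
  have h1 : 0 < 1 - ‖z‖ := by linarith
  have h2 := h ((starRingEnd ℂ) z) (by simpa using hz)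
  rw [RCLike.norm_conj] at h2
  unfold pint
  rw [norm_mul, norm_mul, wder_eq hx hz]
  calc ‖ev (sh (ν + 1) ψ) ((starRingEnd ℂ) z)‖ * ‖ev (ddn (ν + 1) x) z‖ *
        ‖((1 - ‖z‖ ^ 2 : ℝ) : ℂ) ^ ν‖
      ≤ (M * (1 - ‖z‖) ^ (-α)) * ‖ev (ddn (ν + 1) x) z‖ * (2 ^ ν * (1 - ‖z‖) ^ ν) := by
        gcongr
        exact weight_le hz
    _ = M * 2 ^ ν * (‖ev (ddn (ν + 1) x) z‖ * ((1 - ‖z‖) ^ (-α) * (1 - ‖z‖) ^ (ν : ℝ))) := by
        rw [Real.rpow_natCast]; ring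
    _ = _ := by
        rw [← Real.rpow_add h1]
        congr 3
        push_cast
        ring

lemma pint_integrable {α M : ℝ} {ν : ℕ} {ψ : ℕ → ℂ} (hψ : IsDisc ψ)
    (h : Gr α M (sh (ν + 1) ψ)) (x : B1 α (ν + 1)) : IntegrableOn (pint ν ψ x.c) (ball 0 1) := by
  refine Integrable.mono' (x.int.const_mul (M * 2 ^ ν))
    ((pint_continuousOn ν hψ x.disc).aestronglyMeasurable measurableSet_ball) ?_
  refine (ae_restrict_iff' measurableSet_ball).2 (Filter.Eventually.of_forall fun z hz => ?_)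
  exact pint_le h x.disc (by simpa using hz)

/-- the constant in the bound for the pairing -/
noncomputable def cL (α : ℝ) (ν : ℕ) : ℝ := cA α * ((ν : ℝ) + 1) ^ α + 2 ^ ν * cS α (ν + 1)

lemma cL_nonneg (α : ℝ) (ν : ℕ) : 0 ≤ cL α ν := by
  unfold cL
  have := cA_pos α
  have := cS_nonneg α (ν + 1)
  positivity

lemma L_le {α M : ℝ} (hα : 0 ≤ α) {ν : ℕ} {ψ : ℕ → ℂ} (hψ : IsDisc ψ) (h : Gr α M ψ)
    (x : B1 α (ν + 1)) : ‖L ν ψ x.c‖ ≤ cL α ν * M * ‖x‖ := by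
  have hM := h.nonneg
  have hcA := cA_pos α
  have hcS := cS_nonneg α (ν + 1)
  have hsh := h.sh hα hψ (ν + 1)
  rw [B1.norm_def, besovNorm_eq α _ x.disc]
  have hI0 := wder_int_nonneg α (ν + 1) x.c
  have hS0 : 0 ≤ ∑ j ∈ range (ν + 1), (j.factorial : ℝ) * ‖x.c j‖ :=
    sum_nonneg fun j _ => by positivity
  have h1 : ‖∑ j ∈ range (ν + 1), ψ j * x.c j‖ ≤
      cA α * ((ν : ℝ) + 1) ^ α * M * ∑ j ∈ range (ν + 1), (j.factorial : ℝ) * ‖x.c j‖ := by
    refine (norm_sum_le _ _).trans ?_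
    rw [mul_sum]
    refine sum_le_sum fun j hj => ?_
    rw [norm_mul]
    have hj' : (j : ℝ) ≤ ν := by
      have := mem_range.1 hj
      exact_mod_cast Nat.lt_succ_iff.1 this
    have h2 : ‖ψ j‖ ≤ cA α * ((ν : ℝ) + 1) ^ α * M := by
      calc ‖ψ j‖ ≤ cA α * M * ((j : ℝ) + 1) ^ α := coeff_le hα hψ h j
        _ ≤ cA α * M * ((ν : ℝ) + 1) ^ α := by gcongr
        _ = _ := by ring
    have h3 : (1 : ℝ) ≤ j.factorial := by exact_mod_cast j.factorial_pos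
    calc ‖ψ j‖ * ‖x.c j‖ ≤ (cA α * ((ν : ℝ) + 1) ^ α * M) * (1 * ‖x.c j‖) := by
          rw [one_mul]; gcongr
      _ ≤ _ := by gcongr
  have h2 : ‖∫ z in ball (0 : ℂ) 1, pint ν ψ x.c z‖ ≤
      cS α (ν + 1) * M * 2 ^ ν * ∫ z in ball (0 : ℂ) 1, wder α (ν + 1) x.c z := by
    rw [← integral_const_mul]
    apply norm_integral_le_of_norm_le (x.int.const_mul _)
    refine (ae_restrict_iff' measurableSet_ball).2 (Filter.Eventually.of_forall fun z hz => ?_)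
    exact pint_le hsh x.disc (by simpa using hz)
  have h3 : ‖((π : ℂ) * (ν.factorial : ℂ))⁻¹‖ ≤ 1 := by
    rw [norm_inv, norm_mul, Complex.norm_real, Real.norm_of_nonneg Real.pi_pos.le,
      Complex.norm_natCast]
    have h4 : (1 : ℝ) ≤ ν.factorial := by exact_mod_cast ν.factorial_pos
    have h5 : (1 : ℝ) ≤ π := by linarith [Real.pi_gt_three]
    apply inv_le_one_of_one_le₀
    nlinarith
  unfold L
  calc ‖∑ j ∈ range (ν + 1), ψ j * x.c j +
        (π * (ν.factorial : ℂ))⁻¹ * ∫ z in ball (0 : ℂ) 1, pint ν ψ x.c z‖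
      ≤ cA α * ((ν : ℝ) + 1) ^ α * M * ∑ j ∈ range (ν + 1), (j.factorial : ℝ) * ‖x.c j‖ +
        1 * (cS α (ν + 1) * M * 2 ^ ν * ∫ z in ball (0 : ℂ) 1, wder α (ν + 1) x.c z) := by
        refine (norm_add_le _ _).trans (add_le_add h1 ?_)
        rw [norm_mul]
        gcongr
    _ ≤ _ := by
        unfold cL
        have e1 : 0 ≤ cA α * ((ν : ℝ) + 1) ^ α * M * ∫ z in ball (0 : ℂ) 1, wder α (ν + 1) x.c z := by
          positivity
        have e2 : 0 ≤ 2 ^ ν * cS α (ν + 1) * M * ∑ j ∈ range (ν + 1), (j.factorial : ℝ) * ‖x.c j‖ := by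
          positivity
        nlinarith

/-- dilation of a sequence -/
def dil (r : ℝ) (a : ℕ → ℂ) (k : ℕ) : ℂ := a k * (r : ℂ) ^ k

lemma ev_dil (r : ℝ) (a : ℕ → ℂ) (z : ℂ) : ev (dil r a) z = ev a (r * z) := by
  unfold ev dil
  congr 1
  ext k
  rw [mul_pow]
  ring

lemma IsDisc.dil {a : ℕ → ℂ} (ha : IsDisc a) {r : ℝ} (h0 : 0 ≤ r) (h1 : r ≤ 1) :
    IsDisc (dil r a) := by
  intro z hz
  have h2 : ‖(r : ℂ) * z‖ < 1 := by
    rw [norm_mul, Complex.norm_real, Real.norm_of_nonneg h0]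
    nlinarith [norm_nonneg z]
  refine (ha _ h2).congr fun k => ?_
  unfold Besov.dil
  rw [mul_pow]
  ring

lemma sh_dil (r : ℝ) (n : ℕ) (a : ℕ → ℂ) : sh n (dil r a) = ((r : ℂ) ^ n) • dil r (sh n a) := by
  ext k
  simp only [sh, dil, Pi.smul_apply, smul_eq_mul, pow_add]
  ring

lemma Gr.dil {α M : ℝ} (hα : 0 ≤ α) {a : ℕ → ℂ} (h : Gr α M a) {r : ℝ} (h0 : 0 ≤ r) (h1 : r ≤ 1) :
    Gr α M (dil r a) := by
  have hM := h.nonneg
  intro z hz
  have hn : ‖(r : ℂ) * z‖ = r * ‖z‖ := by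
    rw [norm_mul, Complex.norm_real, Real.norm_of_nonneg h0]
  have hz0 := norm_nonneg z
  have hle : r * ‖z‖ ≤ ‖z‖ := by nlinarith
  rw [ev_dil]
  refine (h _ (by rw [hn]; linarith)).trans ?_
  rw [hn]
  have : (1 - r * ‖z‖) ^ (-α) ≤ (1 - ‖z‖) ^ (-α) :=
    Real.rpow_le_rpow_of_nonpos (by linarith) (by linarith) (by linarith)
  gcongr

/-- the integrand of the moments -/
noncomputable def mint (ν : ℕ) (x : ℕ → ℂ) (k : ℕ) (z : ℂ) : ℂ :=
  ev (ddn (ν + 1) x) z * (starRingEnd ℂ) z ^ k * ((1 - ‖z‖ ^ 2 : ℝ) : ℂ) ^ ν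

lemma mint_le {α : ℝ} (hα : 0 ≤ α) {ν : ℕ} {x : ℕ → ℂ} (hx : IsDisc x) (k : ℕ) {z : ℂ}
    (hz : ‖z‖ < 1) : ‖mint ν x k z‖ ≤ 2 ^ ν * wder α (ν + 1) x z := by
  have hp : 0 < 1 - ‖z‖ := by linarith
  unfold mint
  rw [norm_mul, norm_mul, norm_pow, RCLike.norm_conj, wder_eq hx hz]
  calc ‖ev (ddn (ν + 1) x) z‖ * ‖z‖ ^ k * ‖((1 - ‖z‖ ^ 2 : ℝ) : ℂ) ^ ν‖
      ≤ ‖ev (ddn (ν + 1) x) z‖ * 1 * (2 ^ ν * (1 - ‖z‖) ^ ν) := by
        gcongr
        · exact pow_le_one₀ (norm_nonneg _) hz.le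
        · exact weight_le hz
    _ = 2 ^ ν * (‖ev (ddn (ν + 1) x) z‖ * (1 - ‖z‖) ^ (ν : ℝ)) := by
        rw [Real.rpow_natCast]; ring
    _ ≤ _ := by
        have : (1 - ‖z‖) ^ (ν : ℝ) ≤ (1 - ‖z‖) ^ (((ν + 1 : ℕ) : ℝ) - α - 1) := by
          apply Real.rpow_le_rpow_of_exponent_ge hp (by linarith [norm_nonneg z])
          push_cast
          linarith
        gcongr

lemma mint_continuousOn (ν : ℕ) {x : ℕ → ℂ} (hx : IsDisc x) (k : ℕ) :
    ContinuousOn (mint ν x k) (ball 0 1) := by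
  unfold mint
  apply ContinuousOn.mul
  · apply (continuousOn_ev (hx.ddn _)).mul
    have : Continuous fun z : ℂ => (starRingEnd ℂ) z ^ k := by
      have := Complex.continuous_conj
      fun_prop
    exact this.continuousOn
  · exact (weight_continuous ν).continuousOn

lemma mint_integrable {α : ℝ} (hα : 0 ≤ α) {ν : ℕ} (x : B1 α (ν + 1)) (k : ℕ) :
    IntegrableOn (mint ν x.c k) (ball 0 1) :=
  Integrable.mono' (x.int.const_mul (2 ^ ν))
    ((mint_continuousOn ν x.disc k).aestronglyMeasurable measurableSet_ball)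
    ((ae_restrict_iff' measurableSet_ball).2 (Filter.Eventually.of_forall fun z hz =>
      mint_le hα x.disc k (by simpa using hz)))

lemma mint_norm_integral {α : ℝ} (hα : 0 ≤ α) {ν : ℕ} (x : B1 α (ν + 1)) (k : ℕ) :
    ∫ z in ball (0 : ℂ) 1, ‖mint ν x.c k z‖ ≤
      2 ^ ν * ∫ z in ball (0 : ℂ) 1, wder α (ν + 1) x.c z := by
  rw [← integral_const_mul]
  exact setIntegral_mono_on (mint_integrable hα x k).norm (x.int.const_mul _) measurableSet_ball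
    fun z hz => mint_le hα x.disc k (by simpa using hz)

lemma mint_integral {α : ℝ} (hα : 0 ≤ α) {ν : ℕ} (x : B1 α (ν + 1)) (k : ℕ) :
    ∫ z in ball (0 : ℂ) 1, mint ν x.c k z = x.c (k + (ν + 1)) * (π * ν.factorial) := by
  have h := area_moment ν (x.disc.ddn (ν + 1)) k (mint_integrable hα x k)
  have h2 : ∫ z in ball (0 : ℂ) 1, mint ν x.c k z = _ := h
  rw [h2]
  unfold ddn
  have : (((k + 1).ascFactorial (ν + 1) : ℕ) : ℂ) ≠ 0 := by
    exact_mod_cast (Nat.ascFactorial_pos _ _).ne'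
  field_simp

lemma pint_dil_eq (ν : ℕ) (ψ x : ℕ → ℂ) (r : ℝ) (z : ℂ) :
    pint ν (dil r ψ) x z =
      ∑' k, (ψ (k + (ν + 1)) * (r : ℂ) ^ (k + (ν + 1))) * mint ν x k z := by
  unfold pint mint
  have : ev (sh (ν + 1) (dil r ψ)) ((starRingEnd ℂ) z) =
    ∑' k, ψ (k + (ν + 1)) * (r : ℂ) ^ (k + (ν + 1)) * (starRingEnd ℂ) z ^ k := rfl
  rw [this, ← tsum_mul_right, ← tsum_mul_right]
  congr 1
  ext k
  ring

/-- For dilated sequences the pairing is the sum of the series. -/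
lemma L_dil {α : ℝ} (hα : 0 ≤ α) {ν : ℕ} {ψ : ℕ → ℂ} (hψ : IsDisc ψ)
    (x : B1 α (ν + 1)) {r : ℝ} (h0 : 0 ≤ r) (h1 : r < 1) :
    HasSum (fun k => ψ k * x.c k * (r : ℂ) ^ k) (L ν (dil r ψ) x.c) := by
  have hfac : ((π : ℂ) * (ν.factorial : ℂ)) ≠ 0 := by
    apply mul_ne_zero
    · exact_mod_cast Real.pi_ne_zero
    · exact_mod_cast ν.factorial_ne_zero
  have hsumm := hψ.abs h0 h1
  have hsumm' : Summable fun k => ‖ψ (k + (ν + 1))‖ * r ^ (k + (ν + 1)) :=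
    (summable_nat_add_iff (ν + 1)).2 hsumm
  let F : ℕ → ℂ → ℂ := fun k z => (ψ (k + (ν + 1)) * (r : ℂ) ^ (k + (ν + 1))) * mint ν x.c k z
  have hF1 : ∀ k, Integrable (F k) (volume.restrict (ball (0 : ℂ) 1)) :=
    fun k => (mint_integrable hα x k).const_mul _
  have e1 : ∀ k, ‖ψ (k + (ν + 1)) * (r : ℂ) ^ (k + (ν + 1))‖ = ‖ψ (k + (ν + 1))‖ *
      r ^ (k + (ν + 1)) := by
    intro k
    rw [norm_mul, norm_pow, Complex.norm_real, Real.norm_of_nonneg h0]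
  have hF2 : Summable fun k => ∫ z in ball (0 : ℂ) 1, ‖F k z‖ := by
    refine Summable.of_nonneg_of_le (fun k => integral_nonneg fun z => norm_nonneg _)
      (fun k => ?_) (hsumm'.mul_right (2 ^ ν * ∫ z in ball (0 : ℂ) 1, wder α (ν + 1) x.c z))
    have e2 : ∀ z, ‖F k z‖ = ‖ψ (k + (ν + 1)) * (r : ℂ) ^ (k + (ν + 1))‖ * ‖mint ν x.c k z‖ :=
      fun z => norm_mul _ _
    simp_rw [e2]
    rw [integral_const_mul, e1]
    exact mul_le_mul_of_nonneg_left (mint_norm_integral hα x k) (by positivity)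
  have h2 := hasSum_integral_of_summable_integral_norm hF1 hF2
  have h3 : ∀ k, ∫ z in ball (0 : ℂ) 1, F k z =
      (ψ (k + (ν + 1)) * (r : ℂ) ^ (k + (ν + 1))) * (x.c (k + (ν + 1)) * (π * ν.factorial)) := by
    intro k
    show ∫ z in ball (0 : ℂ) 1,
      (ψ (k + (ν + 1)) * (r : ℂ) ^ (k + (ν + 1))) * mint ν x.c k z = _
    rw [integral_const_mul, mint_integral hα x k]
  have h4 : ∫ z in ball (0 : ℂ) 1, ∑' k, F k z = ∫ z in ball (0 : ℂ) 1, pint ν (dil r ψ) x.c z := by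
    congr 1
    ext z
    rw [pint_dil_eq]
  rw [h4] at h2
  simp_rw [h3] at h2
  have h5 := h2.mul_left ((π * (ν.factorial : ℂ))⁻¹)
  have h6 : HasSum (fun k => (fun k => ψ k * x.c k * (r : ℂ) ^ k) (k + (ν + 1)))
      ((π * (ν.factorial : ℂ))⁻¹ * ∫ z in ball (0 : ℂ) 1, pint ν (dil r ψ) x.c z) := by
    refine h5.congr_fun fun k => ?_
    have e3 : ((π : ℂ) * (ν.factorial : ℂ))⁻¹ * ((π : ℂ) * (ν.factorial : ℂ)) = 1 :=
      inv_mul_cancel₀ hfac
    show ψ (k + (ν + 1)) * x.c (k + (ν + 1)) * (r : ℂ) ^ (k + (ν + 1)) = _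
    linear_combination (-(ψ (k + (ν + 1)) * x.c (k + (ν + 1)) * (r : ℂ) ^ (k + (ν + 1)))) * e3
  have h6 := (hasSum_nat_add_iff (f := fun k => ψ k * x.c k * (r : ℂ) ^ k) (ν + 1)).1 h6
  have h7 : L ν (dil r ψ) x.c =
      ((π * (ν.factorial : ℂ))⁻¹ * ∫ z in ball (0 : ℂ) 1, pint ν (dil r ψ) x.c z) +
      ∑ j ∈ range (ν + 1), ψ j * x.c j * (r : ℂ) ^ j := by
    unfold L
    rw [add_comm]
    congr 1
    refine sum_congr rfl fun j _ => ?_
    unfold dil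
    ring
  rw [h7]
  exact h6

lemma L_tendsto {α M : ℝ} (hα : 0 ≤ α) {ν : ℕ} {ψ : ℕ → ℂ} (hψ : IsDisc ψ) (h : Gr α M ψ)
    (x : B1 α (ν + 1)) :
    Tendsto (fun r : ℝ => L ν (dil r ψ) x.c) (𝓝[<] 1) (𝓝 (L ν ψ x.c)) := by
  have hev : ∀ᶠ r : ℝ in 𝓝[<] 1, 0 ≤ r ∧ r < 1 := by
    have h1 : ∀ᶠ r : ℝ in 𝓝[<] 1, r ∈ Set.Ioo (0 : ℝ) 1 := Ioo_mem_nhdsLT one_pos
    exact h1.mono fun r hr => ⟨hr.1.le, hr.2⟩
  have hid : Tendsto (fun r : ℝ => r) (𝓝[<] 1) (𝓝 1) := tendsto_id.mono_left nhdsWithin_le_nhds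
  have hid' : Tendsto (fun r : ℝ => (r : ℂ)) (𝓝[<] 1) (𝓝 1) := by
    have := (Complex.continuous_ofReal.tendsto 1).comp hid
    rw [Complex.ofReal_one] at this
    exact this
  unfold L
  apply Tendsto.add
  · apply tendsto_finsetSum
    intro j _
    unfold dil
    have := ((hid'.pow j).const_mul (ψ j)).mul_const (x.c j)
    simpa using this
  · apply Tendsto.const_mul
    apply tendsto_integral_filter_of_dominated_convergence
      (fun z => (cS α (ν + 1) * M) * 2 ^ ν * wder α (ν + 1) x.c z)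
    · filter_upwards [hev] with r hr
      exact (pint_continuousOn ν (hψ.dil hr.1 hr.2.le) x.disc).aestronglyMeasurable
        measurableSet_ball
    · filter_upwards [hev] with r hr
      refine (ae_restrict_iff' measurableSet_ball).2
        (Filter.Eventually.of_forall fun z hz => ?_)
      exact pint_le ((h.dil hα hr.1 hr.2.le).sh hα (hψ.dil hr.1 hr.2.le) (ν + 1)) x.disc
        (by simpa using hz)
    · exact x.int.const_mul _
    · refine (ae_restrict_iff' measurableSet_ball).2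
        (Filter.Eventually.of_forall fun z hz => ?_)
      have hz' : ‖z‖ < 1 := by simpa using hz
      unfold pint
      apply Tendsto.mul_const
      apply Tendsto.mul_const
      have e1 : ∀ r : ℝ, ev (sh (ν + 1) (dil r ψ)) ((starRingEnd ℂ) z) =
          (r : ℂ) ^ (ν + 1) * ev (sh (ν + 1) ψ) ((r : ℂ) * (starRingEnd ℂ) z) := by
        intro r
        rw [sh_dil, ev_smul, ev_dil]
      simp_rw [e1]
      have h3 : Tendsto (fun r : ℝ => (r : ℂ) * (starRingEnd ℂ) z) (𝓝[<] 1)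
          (𝓝 ((starRingEnd ℂ) z)) := by
        have := hid'.mul_const ((starRingEnd ℂ) z)
        simpa using this
      have h4 : ContinuousAt (ev (sh (ν + 1) ψ)) ((starRingEnd ℂ) z) :=
        continuousAt_ev (hψ.sh _) (by simpa using hz')
      have h5 := (hid'.pow (ν + 1)).mul (h4.tendsto.comp h3)
      simpa using h5

/-- The pairing is the Abel sum of the series. -/
lemma abel {α M : ℝ} (hα : 0 ≤ α) {ν : ℕ} {ψ : ℕ → ℂ} (hψ : IsDisc ψ) (h : Gr α M ψ)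
    (x : B1 α (ν + 1)) :
    Tendsto (fun r : ℝ => ∑' k, ψ k * x.c k * (r : ℂ) ^ k) (𝓝[<] 1) (𝓝 (L ν ψ x.c)) := by
  refine (L_tendsto hα hψ h x).congr' ?_
  have h1 : ∀ᶠ r : ℝ in 𝓝[<] 1, r ∈ Set.Ioo (0 : ℝ) 1 := Ioo_mem_nhdsLT one_pos
  filter_upwards [h1] with r hr
  exact (L_dil hα hψ x hr.1.le hr.2).tsum_eq.symm

end Pool.Agent.H758R2.Besov
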