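import Pool.Agent.H758R2.Besov.Basic

set_option autoImplicit false

open Finset Metric Filter Topology MeasureTheory Real

namespace Pool.Agent.H758R2.Besov

lemma polar_symm (p : ℝ × ℝ) : Complex.polarCoord.symm p = circleMap 0 p.1 p.2 := by
  rw [Complex.polarCoord_symm_apply, circleMap, zero_add, Complex.exp_mul_I]
  push_cast
  rfl

lemma continuous_circle2 : Continuous fun p : ℝ × ℝ => circleMap 0 p.1 p.2 := by
  unfold circleMap
  fun_prop

lemma polar_integrable {E : Type*} [NormedAddCommGroup E] [NormedSpace ℝ E]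
    (F : ℂ → E) {R : ℝ} (hF : ContinuousOn F (closedBall 0 R)) :
    IntegrableOn (fun p : ℝ × ℝ => p.1 • F (circleMap 0 p.1 p.2)) (Set.Ioo 0 R ×ˢ Set.Ioo (-π) π)
      (volume.prod volume) := by
  have hcont : ContinuousOn (fun p : ℝ × ℝ => p.1 • F (circleMap 0 p.1 p.2))
      (Set.Icc 0 R ×ˢ Set.Icc (-π) π) := by
    apply continuousOn_fst.smul
    apply hF.comp continuous_circle2.continuousOn
    rintro p ⟨hp1, -⟩
    simp [abs_of_nonneg hp1.1, hp1.2]
  rw [← Measure.volume_eq_prod]
  apply (hcont.integrableOn_compact (isCompact_Icc.prod isCompact_Icc)).mono_set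
  exact Set.prod_mono Set.Ioo_subset_Icc_self Set.Ioo_subset_Icc_self

/-- Polar coordinates on a disc. -/
lemma polar_ball {E : Type*} [NormedAddCommGroup E] [NormedSpace ℝ E] [CompleteSpace E]
    (F : ℂ → E) {R : ℝ} (hR : 0 < R) (hF : ContinuousOn F (closedBall 0 R)) :
    ∫ z in ball (0 : ℂ) R, F z = ∫ r in (0 : ℝ)..R, ∫ θ in (-π)..π, r • F (circleMap 0 r θ) := by
  have hpi : -π ≤ π := by linarith [Real.pi_pos]
  set S : Set (ℝ × ℝ) := Set.Ioo 0 R ×ˢ Set.Ioo (-π) π with hS
  have hSm : MeasurableSet S := measurableSet_Ioo.prod measurableSet_Ioo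
  have h1 : ∫ z in ball (0 : ℂ) R, F z = ∫ p in S, p.1 • F (circleMap 0 p.1 p.2) := by
    rw [← integral_indicator measurableSet_ball, ← Complex.integral_comp_polarCoord_symm]
    have h2 : ∀ p ∈ polarCoord.target, p.1 • (ball (0 : ℂ) R).indicator F
        (Complex.polarCoord.symm p) = S.indicator (fun p => p.1 • F (circleMap 0 p.1 p.2)) p := by
      intro p hp
      have hp1 : 0 < p.1 := hp.1
      have hp2 : p.2 ∈ Set.Ioo (-π) π := hp.2
      rw [polar_symm]
      by_cases h : p.1 < R
      · have hb : circleMap 0 p.1 p.2 ∈ ball (0 : ℂ) R := by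
          simp [abs_of_pos hp1, h]
        have hs : p ∈ S := ⟨⟨hp1, h⟩, hp2⟩
        rw [Set.indicator_of_mem hb, Set.indicator_of_mem hs]
      · have hb : circleMap 0 p.1 p.2 ∉ ball (0 : ℂ) R := by
          simp [abs_of_pos hp1] at h ⊢
          exact h
        have hs : p ∉ S := fun h' => h h'.1.2
        rw [Set.indicator_of_notMem hb, Set.indicator_of_notMem hs, smul_zero]
    rw [setIntegral_congr_fun polarCoord.open_target.measurableSet h2,
      setIntegral_indicator hSm]
    congr 1
    congr 1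
    apply Set.inter_eq_right.2
    rintro p ⟨hp1, hp2⟩
    exact ⟨hp1.1, hp2⟩
  rw [h1, hS, Measure.volume_eq_prod, setIntegral_prod _ (polar_integrable F hF),
    intervalIntegral.integral_of_le hR.le, integral_Ioc_eq_integral_Ioo]
  apply setIntegral_congr_fun measurableSet_Ioo
  intro r _
  simp only
  rw [intervalIntegral.integral_of_le hpi, integral_Ioc_eq_integral_Ioo]

lemma polar_intervalIntegrable {E : Type*} [NormedAddCommGroup E] [NormedSpace ℝ E]
    [CompleteSpace E] (F : ℂ → E) {R : ℝ} (hR : 0 < R) (hF : ContinuousOn F (closedBall 0 R)) :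
    IntervalIntegrable (fun r : ℝ => ∫ θ in (-π)..π, r • F (circleMap 0 r θ)) volume 0 R := by
  have hpi : -π ≤ π := by linarith [Real.pi_pos]
  rw [intervalIntegrable_iff_integrableOn_Ioo_of_le hR.le]
  have h := polar_integrable F hF
  rw [IntegrableOn, ← Measure.prod_restrict] at h
  have h2 := h.integral_prod_left
  refine h2.congr ?_
  filter_upwards with r
  rw [intervalIntegral.integral_of_le hpi, integral_Ioc_eq_integral_Ioo]

lemma integral_exp_int (m : ℤ) :
    ∫ θ in (-π)..π, Complex.exp ((m : ℂ) * Complex.I * θ) = if m = 0 then 2 * (π : ℂ) else 0 := by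
  split_ifs with h
  · subst h
    simp
    ring
  · have hc : (m : ℂ) * Complex.I ≠ 0 := by
      simp [h, Complex.I_ne_zero]
    rw [integral_exp_mul_complex hc]
    have h1 : Complex.exp ((m : ℂ) * Complex.I * (π : ℝ)) =
        Complex.exp ((m : ℂ) * Complex.I * ((-π : ℝ) : ℂ)) := by
      rw [Complex.exp_eq_exp_iff_exists_int]
      refine ⟨m, ?_⟩
      push_cast
      ring
    rw [h1, sub_self, zero_div]

lemma circle_coeff {a : ℕ → ℂ} (ha : IsDisc a) {r : ℝ} (h0 : 0 ≤ r) (h1 : r < 1) (k : ℕ) :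
    ∫ θ in (-π)..π, ev a (circleMap 0 r θ) * (starRingEnd ℂ) (circleMap 0 r θ) ^ k
      = 2 * π * (a k * r ^ (2 * k)) := by
  let f : ℕ → C(ℝ, ℂ) := fun j => ⟨fun θ => a j * (circleMap 0 r θ) ^ j *
    (starRingEnd ℂ) (circleMap 0 r θ) ^ k, by
      have : Continuous fun θ : ℝ => circleMap 0 r θ := continuous_circleMap 0 r
      fun_prop⟩
  have hsum : Summable fun j =>
      ‖(f j).restrict (⟨Set.uIcc (-π) π, isCompact_uIcc⟩ : TopologicalSpace.Compacts ℝ)‖ := by
    refine Summable.of_nonneg_of_le (fun _ => norm_nonneg _) (fun j => ?_)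
      ((ha.abs h0 h1).mul_right (r ^ k))
    rw [ContinuousMap.norm_le _ (by positivity)]
    rintro ⟨θ, hθ⟩
    simp [f, abs_of_nonneg h0]
  have key := intervalIntegral.hasSum_intervalIntegral_of_summable_norm hsum
  have h2 : ∀ j, ∫ θ in (-π)..π, f j θ = if j = k then 2 * π * (a k * r ^ (2 * k)) else 0 := by
    intro j
    have h3 : ∀ θ : ℝ, f j θ = (a j * r ^ (j + k)) * Complex.exp (((j - k : ℤ) : ℂ)
        * Complex.I * θ) := by
      intro θ
      simp only [f, ContinuousMap.coe_mk, circleMap, zero_add, map_mul, mul_pow,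
        Complex.conj_ofReal, ← Complex.exp_conj, ← Complex.exp_nat_mul, Complex.conj_I]
      rw [pow_add]
      have : Complex.exp (((j - k : ℤ) : ℂ) * Complex.I * θ)
          = Complex.exp ((j : ℂ) * (θ * Complex.I)) * Complex.exp ((k : ℂ) * (θ * -Complex.I)) := by
        rw [← Complex.exp_add]
        congr 1
        push_cast
        ring
      rw [this]
      ring
    simp_rw [h3]
    rw [intervalIntegral.integral_const_mul, integral_exp_int]
    by_cases hjk : j = k
    · subst hjk
      simp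
      ring
    · have : ((j : ℤ) - k) ≠ 0 := by omega
      simp [hjk, this]
  simp_rw [h2] at key
  have h4 := key.unique (hasSum_ite_eq k (2 * π * (a k * r ^ (2 * k))))
  have h5 : ∀ θ : ℝ, ∑' j, f j θ = ev a (circleMap 0 r θ) *
      (starRingEnd ℂ) (circleMap 0 r θ) ^ k := by
    intro θ
    unfold ev
    rw [← tsum_mul_right]
    rfl
  rw [← h4]
  simp_rw [← h5]

end Pool.Agent.H758R2.Besov
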