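import Pool.Agent.H758R2.Besov.Summing

set_option autoImplicit false

open Finset Metric Filter Topology MeasureTheory Real

namespace Pool.Agent.H758R2.Besov

/-! ### polynomials in `B_1^1` -/

lemma weight_le_one {ν : ℕ} {z : ℂ} (hz : ‖z‖ < 1) :
    (1 - ‖z‖) ^ (((ν + 2 : ℕ) : ℝ) - 1 - 1) ≤ 1 := by
  apply Real.rpow_le_one (by linarith) (by linarith [norm_nonneg z])
  push_cast
  have : (0 : ℝ) ≤ ν := Nat.cast_nonneg ν
  linarith

lemma int_of_bdd {ν : ℕ} {a : ℕ → ℂ} (ha : IsDisc a) {B : ℝ}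
    (hB : ∀ z : ℂ, ‖z‖ < 1 → ‖ev (ddn (ν + 2) a) z‖ ≤ B) :
    IntegrableOn (wder 1 (ν + 2) a) (ball 0 1) := by
  apply Integrable.mono' (g := fun _ => B) (integrableOn_const measure_ball_lt_top.ne)
    ((wder_continuousOn 1 (ν + 2) ha).aestronglyMeasurable measurableSet_ball)
  refine (ae_restrict_iff' measurableSet_ball).2 (Filter.Eventually.of_forall fun z hz => ?_)
  have hz' : ‖z‖ < 1 := by simpa using hz
  rw [Real.norm_of_nonneg (wder_nonneg hz'), wder_eq ha hz']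
  have h1 := hB z hz'
  have h2 := weight_le_one (ν := ν) hz'
  have h3 : 0 ≤ (1 - ‖z‖) ^ (((ν + 2 : ℕ) : ℝ) - 1 - 1) := Real.rpow_nonneg (by linarith) _
  calc _ ≤ ‖ev (ddn (ν + 2) a) z‖ * 1 := by gcongr
    _ ≤ B := by rw [mul_one]; exact h1

lemma ddn_un_zero {n N k : ℕ} (h : N + 1 ≤ k) : ddn n (un N) k = 0 := by
  unfold ddn
  rw [un_zero (by omega), mul_zero]

/-- monomials -/
noncomputable def mon (ν N : ℕ) : B1 1 (ν + 2) :=
  Subtype.mk (un N) ⟨fin_disc fun _ hk => un_zero (N := N) hk,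
    int_of_bdd (fin_disc fun _ hk => un_zero (N := N) hk)
      (B := ∑ k ∈ range (N + 1), ‖ddn (ν + 2) (un N) k‖) fun z hz => by
        have h := fin_Gr (α := 0) le_rfl (fun k hk => ddn_un_zero (n := ν + 2) (N := N) hk) z hz
        simpa using h⟩

lemma mon_c (ν N : ℕ) : (mon ν N).c = un N := rfl

/-- polynomials -/
noncomputable def pol (ν : ℕ) (c : ℕ → ℂ) (K : ℕ) : B1 1 (ν + 2) := ∑ k ∈ range K, c k • mon ν k

lemma pol_c (ν : ℕ) (c : ℕ → ℂ) (K : ℕ) :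
    (pol ν c K).c = fun k => if k < K then c k else 0 := by
  induction K with
  | zero =>
    unfold pol
    rw [range_zero, sum_empty, B1.c_zero]
    ext k
    simp
  | succ K ih =>
    have h : pol ν c (K + 1) = pol ν c K + c K • mon ν K := by
      unfold pol
      rw [sum_range_succ]
    rw [h, B1.c_add, ih, B1.c_smul, mon_c]
    ext k
    simp only [Pi.add_apply, Pi.smul_apply, smul_eq_mul, un]
    rcases lt_trichotomy k K with h1 | h1 | h1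
    · rw [if_pos h1, if_neg h1.ne, if_pos (by omega)]; simp
    · subst h1
      simp
    · rw [if_neg (by omega), if_neg (by omega), if_neg (by omega)]; simp

lemma apply_pol (ν : ℕ) (c : ℕ → ℂ) (K : ℕ) (ξ : B1 1 (ν + 2) →L[ℂ] ℂ) :
    ξ (pol ν c K) = ∑ k ∈ range K, c k * ξ (mon ν k) := by
  unfold pol
  rw [map_sum]
  refine sum_congr rfl fun k _ => ?_
  rw [map_smul, smul_eq_mul]

/-- tail of the series of the derivative -/
noncomputable def tau (n : ℕ) (s : ℝ) (L : ℕ) : ℝ :=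
  ∑' k : ℕ, if L ≤ k + n then ((k + 1).ascFactorial n : ℝ) * s ^ k else 0

lemma summable_rising (n : ℕ) {s : ℝ} (h0 : 0 ≤ s) (h1 : s < 1) :
    Summable fun k : ℕ => ((k + 1).ascFactorial n : ℝ) * s ^ k := by
  have h2 : ‖(s : ℂ)‖ < 1 := by rwa [Complex.norm_real, Real.norm_of_nonneg h0]
  refine (gen_rising n h2).summable.norm.congr fun k => ?_
  rw [norm_mul, norm_pow, Complex.norm_natCast, Complex.norm_real, Real.norm_of_nonneg h0]

lemma summable_tau (n : ℕ) {s : ℝ} (h0 : 0 ≤ s) (h1 : s < 1) (L : ℕ) :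
    Summable fun k : ℕ => if L ≤ k + n then ((k + 1).ascFactorial n : ℝ) * s ^ k else 0 := by
  refine Summable.of_nonneg_of_le (fun k => ?_) (fun k => ?_) (summable_rising n h0 h1)
  · split_ifs
    · positivity
    · exact le_rfl
  · split_ifs
    · exact le_rfl
    · positivity

lemma tau_nonneg (n : ℕ) {s : ℝ} (h0 : 0 ≤ s) (L : ℕ) : 0 ≤ tau n s L := by
  unfold tau
  apply tsum_nonneg
  intro k
  split_ifs
  · positivity
  · exact le_rfl

lemma tau_tendsto (n : ℕ) {s : ℝ} (h0 : 0 ≤ s) (h1 : s < 1) :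
    Tendsto (fun L => tau n s L) atTop (𝓝 0) := by
  have h2 : Tendsto (fun L : ℕ => ∑' k : ℕ,
      if L ≤ k + n then ((k + 1).ascFactorial n : ℝ) * s ^ k else 0) atTop
      (𝓝 (∑' _ : ℕ, (0 : ℝ))) := by
    apply tendsto_tsum_of_dominated_convergence (summable_rising n h0 h1)
    · intro k
      apply tendsto_const_nhds.congr'
      filter_upwards [eventually_gt_atTop (k + n)] with L hL
      rw [if_neg (by omega)]
    · apply Filter.Eventually.of_forall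
      intro L k
      split_ifs
      · rw [Real.norm_of_nonneg (by positivity)]
      · rw [norm_zero]; positivity
  rw [tsum_zero] at h2
  exact h2

lemma geo_disc {ζ : ℂ} (hζ : ‖ζ‖ < 1) : IsDisc fun k => ζ ^ k :=
  bdd_disc (C := 1) fun k => by
    rw [norm_pow]; exact pow_le_one₀ (norm_nonneg _) hζ.le

lemma ev_ddn_geo (n : ℕ) {ζ z : ℂ} (hζ : ‖ζ‖ < 1) (hz : ‖z‖ < 1) :
    ev (ddn n fun k => ζ ^ k) z = ζ ^ n * ((n.factorial : ℂ) / (1 - ζ * z) ^ (n + 1)) := by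
  have hv : ‖ζ * z‖ < 1 := by
    rw [norm_mul]
    nlinarith [norm_nonneg ζ, norm_nonneg z]
  have h := (gen_rising n hv).mul_left (ζ ^ n)
  unfold ev ddn
  rw [← h.tsum_eq]
  congr 1
  ext k
  show ((k + 1).ascFactorial n : ℂ) * ζ ^ (k + n) * z ^ k = _
  rw [mul_pow, pow_add]
  ring

/-- The coefficients of the truncated geometric series. -/
noncomputable def tg (ζ : ℂ) (L k : ℕ) : ℂ := if k < L then ζ ^ k else 0

lemma tg_disc (ζ : ℂ) (L : ℕ) : IsDisc (tg ζ L) :=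
  fin_disc (K := L) fun k hk => by
    unfold tg
    rw [if_neg (by omega)]

lemma ev_ddn_tg (n L : ℕ) {ζ z : ℂ} (hζ : ‖ζ‖ < 1) (hz : ‖z‖ < 1) :
    ‖ev (ddn n (tg ζ L)) z‖ ≤
      n.factorial * ‖1 - ζ * z‖ ^ (-((n : ℝ) + 1)) + tau n ‖ζ‖ L := by
  have hv : ‖ζ * z‖ < 1 := by
    rw [norm_mul]
    nlinarith [norm_nonneg ζ, norm_nonneg z]
  have hd0 : 0 < ‖1 - ζ * z‖ := norm_pos_iff.2 (one_sub_ne hv)
  have h1 := ((geo_disc hζ).ddn n z hz).hasSum
  have h2 := ((tg_disc ζ L).ddn n z hz).hasSum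
  have h3 := h1.sub h2
  have h4 : ‖(∑' k, ddn n (fun k => ζ ^ k) k * z ^ k) - ∑' k, ddn n (tg ζ L) k * z ^ k‖ ≤
      tau n ‖ζ‖ L := by
    rw [← h3.tsum_eq]
    apply tsum_of_norm_bounded (summable_tau n (norm_nonneg ζ) hζ L).hasSum
    intro k
    unfold ddn tg
    rw [← sub_mul, ← mul_sub, norm_mul, norm_mul, norm_pow, Complex.norm_natCast]
    split_ifs with h5 h6 h6
    · omega
    · simp
    · rw [sub_zero, norm_pow]
      have e1 : ‖ζ‖ ^ (k + n) ≤ ‖ζ‖ ^ k :=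
        pow_le_pow_of_le_one (norm_nonneg _) hζ.le (by omega)
      have e2 : ‖z‖ ^ k ≤ 1 := pow_le_one₀ (norm_nonneg _) hz.le
      have e3 : (0 : ℝ) ≤ ((k + 1).ascFactorial n : ℝ) := by positivity
      calc ((k + 1).ascFactorial n : ℝ) * ‖ζ‖ ^ (k + n) * ‖z‖ ^ k
          ≤ ((k + 1).ascFactorial n : ℝ) * ‖ζ‖ ^ k * 1 :=
            mul_le_mul (mul_le_mul_of_nonneg_left e1 e3) e2 (by positivity) (by positivity)
        _ = _ := mul_one _
    · omega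
  have h5 : ∑' k, ddn n (fun k => ζ ^ k) k * z ^ k = ev (ddn n fun k => ζ ^ k) z := rfl
  have h6 : ∑' k, ddn n (tg ζ L) k * z ^ k = ev (ddn n (tg ζ L)) z := rfl
  rw [h5, h6, ev_ddn_geo n hζ hz] at h4
  have h7 : ‖ζ ^ n * ((n.factorial : ℂ) / (1 - ζ * z) ^ (n + 1))‖ ≤
      n.factorial * ‖1 - ζ * z‖ ^ (-((n : ℝ) + 1)) := by
    rw [norm_mul, norm_pow, norm_div, norm_pow, Complex.norm_natCast]
    have h8 : ‖1 - ζ * z‖ ^ (-((n : ℝ) + 1)) = (‖1 - ζ * z‖ ^ (n + 1))⁻¹ := by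
      rw [Real.rpow_neg hd0.le]
      congr 1
      rw [← Real.rpow_natCast]
      push_cast
      rfl
    rw [h8, ← div_eq_mul_inv]
    have h9 : ‖ζ‖ ^ n ≤ 1 := pow_le_one₀ (norm_nonneg _) hζ.le
    have h10 : 0 ≤ (n.factorial : ℝ) / ‖1 - ζ * z‖ ^ (n + 1) := by positivity
    nlinarith
  have h8 := norm_sub_norm_le (ev (ddn n (tg ζ L)) z)
    (ζ ^ n * ((n.factorial : ℂ) / (1 - ζ * z) ^ (n + 1)))
  rw [norm_sub_rev] at h8
  linarith

/-- the area of the disc -/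
noncomputable def cV : ℝ := ∫ _ in ball (0 : ℂ) 1, (1 : ℝ)

lemma cV_nonneg : 0 ≤ cV := integral_nonneg fun _ => zero_le_one

/-- the constant in the bound of the norms of geometric series -/
noncomputable def cB (n : ℕ) : ℝ := n.factorial * KJ 1 + ∑ j ∈ range n, (j.factorial : ℝ)

lemma cB_nonneg (n : ℕ) : 0 ≤ cB n := by
  unfold cB
  have := KJ_pos one_pos
  positivity

lemma pol_geo_norm (ν L : ℕ) {ζ : ℂ} (hζ : ‖ζ‖ < 1) :
    ‖pol ν (fun k => ζ ^ k) L‖ ≤ cB (ν + 2) * (1 - ‖ζ‖)⁻¹ + tau (ν + 2) ‖ζ‖ L * cV := by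
  have hc : (pol ν (fun k => ζ ^ k) L).c = tg ζ L := pol_c ν _ L
  rw [B1.norm_def, besovNorm_eq 1 _ (B1.disc _), hc]
  have hp : 0 < 1 - ‖ζ‖ := by linarith
  have hinv : 1 ≤ (1 - ‖ζ‖)⁻¹ := by
    rw [one_le_inv₀ hp]
    linarith [norm_nonneg ζ]
  have h1 : ∑ j ∈ range (ν + 2), (j.factorial : ℝ) * ‖tg ζ L j‖ ≤
      (∑ j ∈ range (ν + 2), (j.factorial : ℝ)) * (1 - ‖ζ‖)⁻¹ := by
    rw [sum_mul]
    refine sum_le_sum fun j _ => ?_
    have h2 : ‖tg ζ L j‖ ≤ 1 := by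
      unfold tg
      split_ifs
      · rw [norm_pow]; exact pow_le_one₀ (norm_nonneg _) hζ.le
      · simp
    have h3 : (0 : ℝ) ≤ j.factorial := by positivity
    nlinarith
  have hint := (kernel_integrable (β := 1) hζ).const_mul ((ν + 2).factorial : ℝ)
  have hint2 : IntegrableOn (fun _ : ℂ => tau (ν + 2) ‖ζ‖ L) (ball 0 1) :=
    integrableOn_const measure_ball_lt_top.ne
  have h2 : ∫ z in ball (0 : ℂ) 1, wder 1 (ν + 2) (tg ζ L) z ≤
      (ν + 2).factorial * (KJ 1 * (1 - ‖ζ‖)⁻¹) + tau (ν + 2) ‖ζ‖ L * cV := by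
    have h3 : ∫ z in ball (0 : ℂ) 1, wder 1 (ν + 2) (tg ζ L) z ≤
        ∫ z in ball (0 : ℂ) 1, (((ν + 2).factorial : ℝ) * ‖1 - ζ * z‖ ^ (-((1 : ℝ) + 2)) +
          tau (ν + 2) ‖ζ‖ L) := by
      have hi : IntegrableOn (wder 1 (ν + 2) (tg ζ L)) (ball 0 1) := by
        rw [← hc]; exact B1.int _
      apply setIntegral_mono_on hi (hint.add hint2) measurableSet_ball
      intro z hz
      have hz' : ‖z‖ < 1 := by simpa using hz
      have hv : ‖ζ * z‖ < 1 := by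
        rw [norm_mul]
        nlinarith [norm_nonneg ζ, norm_nonneg z]
      have hd0 : 0 < ‖1 - ζ * z‖ := norm_pos_iff.2 (one_sub_ne hv)
      have hd1 : 1 - ‖z‖ ≤ ‖1 - ζ * z‖ := by
        have h1 := @one_sub_norm_le (ζ * z)
        rw [norm_mul] at h1
        nlinarith [norm_nonneg ζ, norm_nonneg z]
      rw [wder_eq (tg_disc ζ L) hz']
      have h4 := ev_ddn_tg (ν + 2) L hζ hz'
      have h5 := weight_le_one (ν := ν) hz'
      have h6 : 0 ≤ (1 - ‖z‖) ^ (((ν + 2 : ℕ) : ℝ) - 1 - 1) := Real.rpow_nonneg (by linarith) _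
      have h7 : (1 - ‖z‖) ^ (((ν + 2 : ℕ) : ℝ) - 1 - 1) ≤
          ‖1 - ζ * z‖ ^ (((ν + 2 : ℕ) : ℝ) - 1 - 1) := by
        apply Real.rpow_le_rpow (by linarith) hd1
        push_cast
        have : (0 : ℝ) ≤ ν := Nat.cast_nonneg ν
        linarith
      have h8 : ‖1 - ζ * z‖ ^ (-(((ν + 2 : ℕ) : ℝ) + 1)) *
          ‖1 - ζ * z‖ ^ (((ν + 2 : ℕ) : ℝ) - 1 - 1) = ‖1 - ζ * z‖ ^ (-((1 : ℝ) + 2)) := by
        rw [← Real.rpow_add hd0]
        congr 1
        ring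
      have ht := tau_nonneg (ν + 2) (norm_nonneg ζ) L
      calc ‖ev (ddn (ν + 2) (tg ζ L)) z‖ * (1 - ‖z‖) ^ (((ν + 2 : ℕ) : ℝ) - 1 - 1)
          ≤ ((ν + 2).factorial * ‖1 - ζ * z‖ ^ (-(((ν + 2 : ℕ) : ℝ) + 1)) +
              tau (ν + 2) ‖ζ‖ L) * (1 - ‖z‖) ^ (((ν + 2 : ℕ) : ℝ) - 1 - 1) := by gcongr
        _ = (ν + 2).factorial * (‖1 - ζ * z‖ ^ (-(((ν + 2 : ℕ) : ℝ) + 1)) *
              (1 - ‖z‖) ^ (((ν + 2 : ℕ) : ℝ) - 1 - 1)) +
              tau (ν + 2) ‖ζ‖ L * (1 - ‖z‖) ^ (((ν + 2 : ℕ) : ℝ) - 1 - 1) := by ring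
        _ ≤ (ν + 2).factorial * (‖1 - ζ * z‖ ^ (-(((ν + 2 : ℕ) : ℝ) + 1)) *
              ‖1 - ζ * z‖ ^ (((ν + 2 : ℕ) : ℝ) - 1 - 1)) + tau (ν + 2) ‖ζ‖ L * 1 := by
            gcongr
        _ = ((ν + 2).factorial : ℝ) * ‖1 - ζ * z‖ ^ (-((1 : ℝ) + 2)) +
              tau (ν + 2) ‖ζ‖ L := by rw [h8, mul_one]
    have h4 : ∫ z in ball (0 : ℂ) 1, (((ν + 2).factorial : ℝ) * ‖1 - ζ * z‖ ^ (-((1 : ℝ) + 2)) +
          tau (ν + 2) ‖ζ‖ L) = (ν + 2).factorial *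
          (∫ z in ball (0 : ℂ) 1, ‖1 - ζ * z‖ ^ (-((1 : ℝ) + 2))) + tau (ν + 2) ‖ζ‖ L * cV := by
      rw [integral_add hint hint2, integral_const_mul]
      congr 1
      unfold cV
      rw [← integral_const_mul]
      simp
    rw [h4] at h3
    have h5 := kernel_integral one_pos hζ
    rw [Real.rpow_neg_one] at h5
    refine h3.trans ?_
    gcongr
  unfold cB
  linarith [h1, h2]

end Pool.Agent.H758R2.Besov
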