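import Pool.Agent.H758R2.Besov.Integrals

set_option autoImplicit false

open Finset Metric Filter Topology MeasureTheory Real

namespace Pool.Agent.H758R2.Besov

/-- The weighted modulus of the `n`-th derivative in the definition of the Besov space. -/
noncomputable def wder (α : ℝ) (n : ℕ) (a : ℕ → ℂ) (z : ℂ) : ℝ :=
  ‖iteratedDeriv n (ev a) z‖ * (1 - ‖z‖) ^ ((n : ℝ) - α - 1)

lemma wder_nonneg {α : ℝ} {n : ℕ} {a : ℕ → ℂ} {z : ℂ} (hz : ‖z‖ < 1) : 0 ≤ wder α n a z :=
  mul_nonneg (norm_nonneg _) (Real.rpow_nonneg (by linarith) _)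

lemma wder_eq {α : ℝ} {n : ℕ} {a : ℕ → ℂ} (ha : IsDisc a) {z : ℂ} (hz : ‖z‖ < 1) :
    wder α n a z = ‖ev (ddn n a) z‖ * (1 - ‖z‖) ^ ((n : ℝ) - α - 1) := by
  unfold wder
  rw [iteratedDeriv_ev ha n z hz]

lemma wder_continuousOn (α : ℝ) (n : ℕ) {a : ℕ → ℂ} (ha : IsDisc a) :
    ContinuousOn (wder α n a) (ball 0 1) := by
  have h1 : ContinuousOn (fun z : ℂ => ‖ev (ddn n a) z‖ * (1 - ‖z‖) ^ ((n : ℝ) - α - 1))
      (ball 0 1) := by
    apply ContinuousOn.mul (continuousOn_ev (ha.ddn n)).norm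
    apply ContinuousOn.rpow_const (by fun_prop)
    intro z hz
    left
    have : ‖z‖ < 1 := by simpa using hz
    linarith
  exact h1.congr fun z hz => wder_eq ha (by simpa using hz)

lemma ddn_add (n : ℕ) (a b : ℕ → ℂ) : ddn n (a + b) = ddn n a + ddn n b := by
  ext k
  simp [ddn, mul_add]

lemma ddn_smul (n : ℕ) (c : ℂ) (a : ℕ → ℂ) : ddn n (c • a) = c • ddn n a := by
  ext k
  simp [ddn, mul_left_comm]

lemma wder_add_le {α : ℝ} {n : ℕ} {a b : ℕ → ℂ} (ha : IsDisc a) (hb : IsDisc b) {z : ℂ}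
    (hz : ‖z‖ < 1) : wder α n (a + b) z ≤ wder α n a z + wder α n b z := by
  rw [wder_eq (ha.add hb) hz, wder_eq ha hz, wder_eq hb hz, ddn_add,
    ev_add (ha.ddn n) (hb.ddn n) hz, ← add_mul]
  have : 0 ≤ (1 - ‖z‖) ^ ((n : ℝ) - α - 1) := Real.rpow_nonneg (by linarith) _
  gcongr
  exact norm_add_le _ _

lemma wder_smul {α : ℝ} {n : ℕ} {a : ℕ → ℂ} (ha : IsDisc a) (c : ℂ) {z : ℂ}
    (hz : ‖z‖ < 1) : wder α n (c • a) z = ‖c‖ * wder α n a z := by
  rw [wder_eq (ha.smul c) hz, wder_eq ha hz, ddn_smul, ev_smul, norm_mul, mul_assoc]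

/-- The space `B_1^α`, in terms of Taylor coefficients, defined with derivatives of order `n`. -/
noncomputable def besovSub (α : ℝ) (n : ℕ) : Submodule ℂ (ℕ → ℂ) where
  carrier := {a | IsDisc a ∧ IntegrableOn (wder α n a) (ball 0 1)}
  add_mem' := by
    rintro a b ⟨ha, ha'⟩ ⟨hb, hb'⟩
    refine ⟨ha.add hb, ?_⟩
    refine Integrable.mono' (ha'.add hb') ((wder_continuousOn α n (ha.add hb)).aestronglyMeasurable
      measurableSet_ball) ?_
    refine (ae_restrict_iff' measurableSet_ball).2 (Filter.Eventually.of_forall fun z hz => ?_)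
    have hz' : ‖z‖ < 1 := by simpa using hz
    rw [Real.norm_of_nonneg (wder_nonneg hz')]
    exact wder_add_le ha hb hz'
  zero_mem' := by
    refine ⟨IsDisc.zero, ?_⟩
    have h : ∀ z ∈ ball (0 : ℂ) 1, wder α n 0 z = 0 := by
      intro z hz
      have hz' : ‖z‖ < 1 := by simpa using hz
      have := wder_smul (α := α) (n := n) IsDisc.zero 0 hz'
      simpa using this
    exact (integrableOn_congr_fun h measurableSet_ball).2 (integrable_zero _ _ _)
  smul_mem' := by
    rintro c a ⟨ha, ha'⟩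
    refine ⟨ha.smul c, ?_⟩
    have h : ∀ z ∈ ball (0 : ℂ) 1, wder α n (c • a) z = ‖c‖ * wder α n a z := by
      intro z hz
      exact wder_smul ha c (by simpa using hz)
    exact (integrableOn_congr_fun h measurableSet_ball).2 (ha'.const_mul _)

/-- The Banach space `B_1^α`. -/
def B1 (α : ℝ) (n : ℕ) : Type := besovSub α n

noncomputable instance (α : ℝ) (n : ℕ) : AddCommGroup (B1 α n) :=
  inferInstanceAs (AddCommGroup (besovSub α n))

noncomputable instance (α : ℝ) (n : ℕ) : Module ℂ (B1 α n) :=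
  inferInstanceAs (Module ℂ (besovSub α n))

/-- The Taylor coefficients of an element of `B_1^α`. -/
def B1.c {α : ℝ} {n : ℕ} (x : B1 α n) : ℕ → ℂ := Subtype.val x

lemma B1.c_add {α : ℝ} {n : ℕ} (x y : B1 α n) : (x + y).c = x.c + y.c := rfl
lemma B1.c_smul {α : ℝ} {n : ℕ} (t : ℂ) (x : B1 α n) : (t • x).c = t • x.c := rfl
lemma B1.c_zero {α : ℝ} {n : ℕ} : (0 : B1 α n).c = 0 := rfl
lemma B1.c_neg {α : ℝ} {n : ℕ} (x : B1 α n) : (-x).c = (-1 : ℂ) • x.c := by
  rw [← B1.c_smul]
  congr 1
  simp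
lemma B1.disc {α : ℝ} {n : ℕ} (x : B1 α n) : IsDisc x.c := x.2.1
lemma B1.int {α : ℝ} {n : ℕ} (x : B1 α n) : IntegrableOn (wder α n x.c) (ball 0 1) := x.2.2
lemma B1.ext' {α : ℝ} {n : ℕ} {x y : B1 α n} (h : x.c = y.c) : x = y := Subtype.ext h

/-- The norm of `B_1^α`:
`∫_{|z|<1} |f^{(n)}(z)| (1 - |z|)^{n - α - 1} dx dy + ∑_{j<n} |f^{(j)}(0)|`. -/
noncomputable def besovNorm (α : ℝ) (n : ℕ) (a : ℕ → ℂ) : ℝ :=
  (∫ z in ball (0 : ℂ) 1, ‖iteratedDeriv n (ev a) z‖ * (1 - ‖z‖) ^ ((n : ℝ) - α - 1)) +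
    ∑ j ∈ range n, ‖iteratedDeriv j (ev a) 0‖

lemma besovNorm_eq (α : ℝ) (n : ℕ) {a : ℕ → ℂ} (ha : IsDisc a) :
    besovNorm α n a = (∫ z in ball (0 : ℂ) 1, wder α n a z) +
      ∑ j ∈ range n, (j.factorial : ℝ) * ‖a j‖ := by
  unfold besovNorm wder
  congr 1
  refine sum_congr rfl fun j _ => ?_
  rw [iteratedDeriv_zero ha, norm_mul, Complex.norm_natCast]

lemma wder_int_nonneg (α : ℝ) (n : ℕ) (a : ℕ → ℂ) :
    0 ≤ ∫ z in ball (0 : ℂ) 1, wder α n a z :=
  setIntegral_nonneg measurableSet_ball fun z hz => wder_nonneg (by simpa using hz)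

noncomputable instance (α : ℝ) (n : ℕ) : NormedAddCommGroup (B1 α n) :=
  AddGroupNorm.toNormedAddCommGroup
    { toFun := fun x => besovNorm α n x.c
      map_zero' := by
        rw [besovNorm_eq α n (B1.disc 0), B1.c_zero]
        have h : ∀ z ∈ ball (0 : ℂ) 1, wder α n 0 z = 0 := by
          intro z hz
          have hz' : ‖z‖ < 1 := by simpa using hz
          have := wder_smul (α := α) (n := n) IsDisc.zero 0 hz'
          simpa using this
        rw [setIntegral_congr_fun measurableSet_ball h]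
        simp
      add_le' := by
        intro x y
        rw [besovNorm_eq α n (B1.disc _), besovNorm_eq α n (B1.disc _),
          besovNorm_eq α n (B1.disc _)]
        have h1 : ∫ z in ball (0 : ℂ) 1, wder α n (x + y).c z ≤
            (∫ z in ball (0 : ℂ) 1, wder α n x.c z) + ∫ z in ball (0 : ℂ) 1, wder α n y.c z := by
          rw [← integral_add x.int y.int]
          apply setIntegral_mono_on (B1.int _) (x.int.add y.int) measurableSet_ball
          intro z hz
          exact wder_add_le x.disc y.disc (by simpa using hz)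
        have h2 : ∑ j ∈ range n, (j.factorial : ℝ) * ‖(x + y).c j‖ ≤
            ∑ j ∈ range n, (j.factorial : ℝ) * ‖x.c j‖ +
              ∑ j ∈ range n, (j.factorial : ℝ) * ‖y.c j‖ := by
          rw [← sum_add_distrib]
          refine sum_le_sum fun j _ => ?_
          rw [← mul_add]
          gcongr
          exact norm_add_le _ _
        linarith
      neg' := by
        intro x
        rw [besovNorm_eq α n (B1.disc _), besovNorm_eq α n (B1.disc _), B1.c_neg]
        have h : ∀ z ∈ ball (0 : ℂ) 1, wder α n ((-1 : ℂ) • x.c) z = wder α n x.c z := by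
          intro z hz
          rw [wder_smul x.disc _ (by simpa using hz)]
          simp
        rw [setIntegral_congr_fun measurableSet_ball h]
        simp
      eq_zero_of_map_eq_zero' := by
        intro x hx
        have hx' : (∫ z in ball (0 : ℂ) 1, wder α n x.c z) +
            ∑ j ∈ range n, (j.factorial : ℝ) * ‖x.c j‖ = 0 := by
          rw [← besovNorm_eq α n (B1.disc _)]
          exact hx
        have h1 := wder_int_nonneg α n x.c
        have h2 : 0 ≤ ∑ j ∈ range n, (j.factorial : ℝ) * ‖x.c j‖ :=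
          sum_nonneg fun j _ => by positivity
        have h3 : ∑ j ∈ range n, (j.factorial : ℝ) * ‖x.c j‖ = 0 := by linarith
        have h4 : ∫ z in ball (0 : ℂ) 1, wder α n x.c z = 0 := by linarith
        have h5 : ∀ j < n, x.c j = 0 := by
          intro j hj
          have := (sum_eq_zero_iff_of_nonneg (fun j _ => by positivity)).1 h3 j (mem_range.2 hj)
          rcases mul_eq_zero.1 this with h | h
          · exact absurd h (by positivity)
          · exact norm_eq_zero.1 h
        have h6 : wder α n x.c =ᵐ[volume.restrict (ball 0 1)] (fun _ => (0 : ℝ)) := by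
          refine (setIntegral_eq_zero_iff_of_nonneg_ae ?_ x.int).1 h4
          refine (ae_restrict_iff' measurableSet_ball).2
            (Filter.Eventually.of_forall fun z hz => ?_)
          exact wder_nonneg (by simpa using hz)
        have h7 : Set.EqOn (wder α n x.c) (fun _ => (0 : ℝ)) (ball 0 1) :=
          MeasureTheory.Measure.eqOn_open_of_ae_eq h6 isOpen_ball
            (wder_continuousOn α n x.disc) continuousOn_const
        have h8 : ∀ z : ℂ, ‖z‖ < 1 → ev (ddn n x.c) z = 0 := by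
          intro z hz
          have := h7 (show z ∈ ball (0 : ℂ) 1 by simpa using hz)
          rw [wder_eq x.disc hz] at this
          have hp : 0 < (1 - ‖z‖) ^ ((n : ℝ) - α - 1) := Real.rpow_pos_of_pos (by linarith) _
          rcases mul_eq_zero.1 this with h | h
          · exact norm_eq_zero.1 h
          · exact absurd h hp.ne'
        have h9 : ∀ k, ddn n x.c k = 0 := by
          intro k
          have := cauchy (x.disc.ddn n) (r := 1 / 2) (C := 0) (by norm_num) (by norm_num)
            (fun z hz => by rw [h8 z (by rw [hz]; norm_num)]; simp) k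
          have hp : (0 : ℝ) < (1 / 2) ^ k := by positivity
          have h10 : ‖ddn n x.c k‖ ≤ 0 := by
            by_contra hcon
            push Not at hcon
            have := mul_pos hcon hp
            linarith
          exact norm_le_zero_iff.1 h10
        apply B1.ext'
        ext j
        rw [B1.c_zero, Pi.zero_apply]
        by_cases hj : j < n
        · exact h5 j hj
        · obtain ⟨k, rfl⟩ := Nat.exists_eq_add_of_le (not_lt.1 hj)
          have := h9 k
          unfold ddn at this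
          rcases mul_eq_zero.1 this with h | h
          · exact absurd (by exact_mod_cast h) (Nat.ascFactorial_pos k n).ne'
          · rwa [add_comm] at h }

lemma B1.norm_def {α : ℝ} {n : ℕ} (x : B1 α n) : ‖x‖ = besovNorm α n x.c := rfl

noncomputable instance (α : ℝ) (n : ℕ) : NormedSpace ℂ (B1 α n) where
  norm_smul_le := by
    intro t x
    rw [B1.norm_def, B1.norm_def, besovNorm_eq α n (B1.disc _), besovNorm_eq α n (B1.disc _),
      B1.c_smul]
    have h : ∀ z ∈ ball (0 : ℂ) 1, wder α n (t • x.c) z = ‖t‖ * wder α n x.c z := by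
      intro z hz
      exact wder_smul x.disc _ (by simpa using hz)
    rw [setIntegral_congr_fun measurableSet_ball h, integral_const_mul, mul_add, mul_sum]
    apply le_of_eq
    congr 1
    refine sum_congr rfl fun j _ => ?_
    rw [Pi.smul_apply, smul_eq_mul, norm_mul]
    ring

/-- growth condition of order `α` with constant `M` -/
def Gr (α M : ℝ) (a : ℕ → ℂ) : Prop := ∀ z : ℂ, ‖z‖ < 1 → ‖ev a z‖ ≤ M * (1 - ‖z‖) ^ (-α)

/-- The space `B_∞^{-α}`, in terms of Taylor coefficients: the analytic functions with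
`|f(z)| ≤ C (1 - |z|)^{-α}` for `|z| < 1`. -/
def growthSub (α : ℝ) : Submodule ℂ (ℕ → ℂ) where
  carrier := {a | IsDisc a ∧ ∃ C : ℝ, ∀ z : ℂ, ‖z‖ < 1 → ‖ev a z‖ ≤ C * (1 - ‖z‖) ^ (-α)}
  add_mem' := by
    rintro a b ⟨ha, C, hC⟩ ⟨hb, D, hD⟩
    refine ⟨ha.add hb, C + D, fun z hz => ?_⟩
    rw [ev_add ha hb hz, add_mul]
    exact (norm_add_le _ _).trans (add_le_add (hC z hz) (hD z hz))
  zero_mem' := ⟨IsDisc.zero, 0, fun z hz => by
    have : ev 0 z = 0 := by simp [ev]
    simp [this]⟩
  smul_mem' := by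
    rintro c a ⟨ha, C, hC⟩
    refine ⟨ha.smul c, ‖c‖ * C, fun z hz => ?_⟩
    rw [ev_smul, norm_mul, mul_assoc]
    exact mul_le_mul_of_nonneg_left (hC z hz) (norm_nonneg _)

/-- The Banach space `B_∞^{-α}`. -/
def Binf (α : ℝ) : Type := growthSub α

noncomputable instance (α : ℝ) : AddCommGroup (Binf α) :=
  inferInstanceAs (AddCommGroup (growthSub α))

noncomputable instance (α : ℝ) : Module ℂ (Binf α) :=
  inferInstanceAs (Module ℂ (growthSub α))

/-- The Taylor coefficients of an element of `B_∞^{-α}`. -/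
def Binf.c {α : ℝ} (x : Binf α) : ℕ → ℂ := Subtype.val x

lemma Binf.c_add {α : ℝ} (x y : Binf α) : (x + y).c = x.c + y.c := rfl
lemma Binf.c_smul {α : ℝ} (t : ℂ) (x : Binf α) : (t • x).c = t • x.c := rfl
lemma Binf.c_zero {α : ℝ} : (0 : Binf α).c = 0 := rfl
lemma Binf.c_neg {α : ℝ} (x : Binf α) : (-x).c = (-1 : ℂ) • x.c := by
  rw [← Binf.c_smul]
  congr 1
  simp
lemma Binf.disc {α : ℝ} (x : Binf α) : IsDisc x.c := x.2.1
lemma Binf.ext' {α : ℝ} {x y : Binf α} (h : x.c = y.c) : x = y := Subtype.ext h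

/-- The norm of `B_∞^{-α}`: the best constant `C` in `|f(z)| ≤ C (1 - |z|)^{-α}`. -/
noncomputable def growthNorm (α : ℝ) (a : ℕ → ℂ) : ℝ :=
  ⨆ z : ball (0 : ℂ) 1, ‖ev a z‖ * (1 - ‖(z : ℂ)‖) ^ α

lemma le_iff_aux {α t A B : ℝ} (ht : 0 < t) : A ≤ B * t ^ (-α) ↔ A * t ^ α ≤ B := by
  have : 0 < t ^ α := Real.rpow_pos_of_pos ht _
  rw [Real.rpow_neg ht.le, ← div_eq_mul_inv, le_div_iff₀ this]

lemma Binf.bdd {α : ℝ} (x : Binf α) :
    BddAbove (Set.range fun z : ball (0 : ℂ) 1 => ‖ev x.c z‖ * (1 - ‖(z : ℂ)‖) ^ α) := by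
  obtain ⟨C, hC⟩ := x.2.2
  refine ⟨C, ?_⟩
  rintro _ ⟨z, rfl⟩
  have hz : ‖(z : ℂ)‖ < 1 := mem_ball_zero_iff.1 z.2
  exact (le_iff_aux (by linarith)).1 (hC z hz)

lemma growthNorm_nonneg (α : ℝ) (a : ℕ → ℂ) : 0 ≤ growthNorm α a :=
  Real.iSup_nonneg fun z => by
    have hz : ‖(z : ℂ)‖ < 1 := mem_ball_zero_iff.1 z.2
    exact mul_nonneg (norm_nonneg _) (Real.rpow_nonneg (by linarith) _)

lemma Binf.gr_norm {α : ℝ} (x : Binf α) : Gr α (growthNorm α x.c) x.c := by
  intro z hz
  rw [le_iff_aux (by linarith)]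
  exact le_ciSup x.bdd ⟨z, by simpa using hz⟩

lemma growthNorm_le {α M : ℝ} {a : ℕ → ℂ} (h : Gr α M a) : growthNorm α a ≤ M := by
  have : Nonempty (ball (0 : ℂ) 1) := ⟨⟨0, by simp⟩⟩
  refine ciSup_le fun z => ?_
  have hz : ‖(z : ℂ)‖ < 1 := mem_ball_zero_iff.1 z.2
  exact (le_iff_aux (by linarith)).1 (h z hz)

noncomputable instance (α : ℝ) : NormedAddCommGroup (Binf α) :=
  AddGroupNorm.toNormedAddCommGroup
    { toFun := fun x => growthNorm α x.c
      map_zero' := by
        apply le_antisymm _ (growthNorm_nonneg _ _)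
        apply growthNorm_le
        intro z hz
        have : ev 0 z = 0 := by simp [ev]
        rw [Binf.c_zero]
        simp [this]
      add_le' := by
        intro x y
        apply growthNorm_le
        intro z hz
        rw [Binf.c_add, ev_add x.disc y.disc hz, add_mul]
        exact (norm_add_le _ _).trans (add_le_add (x.gr_norm z hz) (y.gr_norm z hz))
      neg' := by
        intro x
        have h : ∀ z : ℂ, ‖ev (-x).c z‖ = ‖ev x.c z‖ := by
          intro z
          rw [Binf.c_neg, ev_smul]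
          simp
        unfold growthNorm
        simp_rw [h]
      eq_zero_of_map_eq_zero' := by
        intro x hx
        have h1 : ∀ z : ℂ, ‖z‖ < 1 → ev x.c z = 0 := by
          intro z hz
          have := x.gr_norm z hz
          have h0 : growthNorm α x.c = 0 := hx
          rw [h0, zero_mul] at this
          exact norm_le_zero_iff.1 this
        apply Binf.ext'
        ext k
        have := cauchy x.disc (r := 1 / 2) (C := 0) (by norm_num) (by norm_num)
          (fun z hz => by rw [h1 z (by rw [hz]; norm_num)]; simp) k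
        have hp : (0 : ℝ) < (1 / 2) ^ k := by positivity
        have h10 : ‖x.c k‖ ≤ 0 := by
          by_contra hcon
          push Not at hcon
          have := mul_pos hcon hp
          linarith
        exact norm_le_zero_iff.1 h10 }

lemma Binf.norm_def {α : ℝ} (x : Binf α) : ‖x‖ = growthNorm α x.c := rfl

lemma Binf.gr {α : ℝ} (x : Binf α) : Gr α ‖x‖ x.c := x.gr_norm

lemma Binf.norm_le {α M : ℝ} {x : Binf α} (h : Gr α M x.c) : ‖x‖ ≤ M := growthNorm_le h

noncomputable instance (α : ℝ) : NormedSpace ℂ (Binf α) where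
  norm_smul_le := by
    intro t x
    apply Binf.norm_le
    intro z hz
    rw [Binf.c_smul, ev_smul, norm_mul, mul_assoc]
    exact mul_le_mul_of_nonneg_left (x.gr z hz) (norm_nonneg _)

end Pool.Agent.H758R2.Besov
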