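import Pool.Agent.H758R2.Besov.Hankel

set_option autoImplicit false

open Finset Metric Filter Topology MeasureTheory Real

namespace Pool.Agent.H758R2.Besov

/-- `u` is `2`-absolutely summing: there is a constant `C` such that
`∑ ‖u x_i‖² ≤ C² sup_{‖ξ‖ ≤ 1} ∑ |ξ(x_i)|²` for all finite families `(x_i)`, the supremum over the
unit ball of the dual space. -/
def TwoSumming {X Y : Type*} [NormedAddCommGroup X] [NormedSpace ℂ X] [NormedAddCommGroup Y]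
    [NormedSpace ℂ Y] (u : X →L[ℂ] Y) : Prop :=
  ∃ C : ℝ, ∀ (N : ℕ) (x : Fin N → X),
    ∑ i, ‖u (x i)‖ ^ 2 ≤ C ^ 2 * ⨆ ξ : {ξ : X →L[ℂ] ℂ // ‖ξ‖ ≤ 1}, ∑ i, ‖ξ.1 (x i)‖ ^ 2

section general

variable {X Y : Type*} [NormedAddCommGroup X] [NormedSpace ℂ X] [NormedAddCommGroup Y]
    [NormedSpace ℂ Y]

lemma dual_bdd {N : ℕ} (x : Fin N → X) :
    BddAbove (Set.range fun ξ : {ξ : X →L[ℂ] ℂ // ‖ξ‖ ≤ 1} => ∑ i, ‖ξ.1 (x i)‖ ^ 2) := by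
  refine ⟨∑ i, ‖x i‖ ^ 2, ?_⟩
  rintro _ ⟨ξ, rfl⟩
  refine sum_le_sum fun i _ => ?_
  have h1 : ‖ξ.1 (x i)‖ ≤ 1 * ‖x i‖ := ξ.1.le_of_opNorm_le ξ.2 (x i)
  rw [one_mul] at h1
  gcongr

lemma le_dual_sup {N : ℕ} (x : Fin N → X) {ξ : X →L[ℂ] ℂ} (h : ‖ξ‖ ≤ 1) :
    ∑ i, ‖ξ (x i)‖ ^ 2 ≤ ⨆ ξ : {ξ : X →L[ℂ] ℂ // ‖ξ‖ ≤ 1}, ∑ i, ‖ξ.1 (x i)‖ ^ 2 :=
  le_ciSup (dual_bdd x) ⟨ξ, h⟩

lemma cs_tsum {w a : ℕ → ℝ} (hw0 : ∀ k, 0 ≤ w k) (hw : Summable w) {B : ℝ}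
    (ha0 : ∀ k, 0 ≤ a k) (haB : ∀ k, a k ≤ B) :
    (∑' k, w k * a k) ^ 2 ≤ ((∑' k, w k) + 1) * ∑' k, w k * a k ^ 2 := by
  have hs1 : Summable fun k => w k * a k :=
    Summable.of_nonneg_of_le (fun k => mul_nonneg (hw0 k) (ha0 k))
      (fun k => mul_le_mul_of_nonneg_left (haB k) (hw0 k)) (hw.mul_right B)
  have hs2 : Summable fun k => w k * a k ^ 2 :=
    Summable.of_nonneg_of_le (fun k => mul_nonneg (hw0 k) (sq_nonneg _))
      (fun k => mul_le_mul_of_nonneg_left (pow_le_pow_left₀ (ha0 k) (haB k) 2) (hw0 k))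
      (hw.mul_right (B ^ 2))
  set s := ∑' k, w k * a k with hs
  set q := ∑' k, w k * a k ^ 2 with hq
  set Λ := ∑' k, w k with hΛ
  have hΛ0 : 0 ≤ Λ := tsum_nonneg hw0
  have hA : ∀ A : ℝ, 2 * A * s ≤ q + A ^ 2 * Λ := by
    intro A
    have h1 : ∑' k, 2 * A * (w k * a k) ≤ ∑' k, (w k * a k ^ 2 + A ^ 2 * w k) := by
      apply Summable.tsum_le_tsum _ (hs1.mul_left _) (hs2.add (hw.mul_left _))
      intro k
      nlinarith [mul_nonneg (hw0 k) (sq_nonneg (a k - A))]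
    rw [tsum_mul_left, hs2.tsum_add (hw.mul_left _), tsum_mul_left] at h1
    exact h1
  have h2 := hA (s / (Λ + 1))
  have hp : 0 < Λ + 1 := by linarith
  have h3 : (s / (Λ + 1)) ^ 2 * Λ ≤ s ^ 2 / (Λ + 1) := by
    rw [div_pow, div_mul_eq_mul_div, div_le_div_iff₀ (by positivity) hp]
    nlinarith [sq_nonneg s, mul_nonneg (sq_nonneg s) hp.le]
  have h4 : 2 * (s / (Λ + 1)) * s = 2 * (s ^ 2 / (Λ + 1)) := by ring
  rw [h4] at h2
  have h5 : s ^ 2 / (Λ + 1) ≤ q := by linarith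
  rw [div_le_iff₀ hp] at h5
  linarith

/-- Operators dominated by absolutely convergent sums of functionals are `2`-summing. -/
lemma TwoSumming.of_families {u : X →L[ℂ] Y} {w : ℕ → ℝ} (hw0 : ∀ k, 0 ≤ w k) (hw : Summable w)
    {F F' : ℕ → X →L[ℂ] ℂ} (hF : ∀ k, ‖F k‖ ≤ 1) (hF' : ∀ k, ‖F' k‖ ≤ 1)
    (hu : ∀ x, ‖u x‖ ≤ ∑' k, w k * (‖F k x‖ + ‖F' k x‖)) : TwoSumming u := by
  refine ⟨2 * ((∑' k, w k) + 1), fun N x => ?_⟩
  set S := ⨆ ξ : {ξ : X →L[ℂ] ℂ // ‖ξ‖ ≤ 1}, ∑ i, ‖ξ.1 (x i)‖ ^ 2 with hS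
  set Λ := ∑' k, w k with hΛ
  have hΛ0 : 0 ≤ Λ := tsum_nonneg hw0
  have hS0 : 0 ≤ S := Real.iSup_nonneg fun ξ => sum_nonneg fun i _ => sq_nonneg _
  let a : Fin N → ℕ → ℝ := fun i k => ‖F k (x i)‖ + ‖F' k (x i)‖
  have ha0 : ∀ i k, 0 ≤ a i k := fun i k => add_nonneg (norm_nonneg _) (norm_nonneg _)
  have haB : ∀ i k, a i k ≤ 2 * ‖x i‖ := by
    intro i k
    have h1 : ‖F k (x i)‖ ≤ 1 * ‖x i‖ := (F k).le_of_opNorm_le (hF k) (x i)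
    have h2 : ‖F' k (x i)‖ ≤ 1 * ‖x i‖ := (F' k).le_of_opNorm_le (hF' k) (x i)
    show ‖F k (x i)‖ + ‖F' k (x i)‖ ≤ _
    linarith
  have hs2 : ∀ i, Summable fun k => w k * a i k ^ 2 := fun i =>
    Summable.of_nonneg_of_le (fun k => mul_nonneg (hw0 k) (sq_nonneg _))
      (fun k => mul_le_mul_of_nonneg_left (pow_le_pow_left₀ (ha0 i k) (haB i k) 2) (hw0 k))
      (hw.mul_right ((2 * ‖x i‖) ^ 2))
  have hk : ∀ k, ∑ i, a i k ^ 2 ≤ 4 * S := by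
    intro k
    have h1 := le_dual_sup x (hF k)
    have h2 := le_dual_sup x (hF' k)
    calc ∑ i, a i k ^ 2 ≤ ∑ i, (2 * ‖F k (x i)‖ ^ 2 + 2 * ‖F' k (x i)‖ ^ 2) := by
          refine sum_le_sum fun i _ => ?_
          show (‖F k (x i)‖ + ‖F' k (x i)‖) ^ 2 ≤ _
          nlinarith [sq_nonneg (‖F k (x i)‖ - ‖F' k (x i)‖)]
      _ = 2 * ∑ i, ‖F k (x i)‖ ^ 2 + 2 * ∑ i, ‖F' k (x i)‖ ^ 2 := by
          rw [sum_add_distrib, mul_sum, mul_sum]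
      _ ≤ 2 * S + 2 * S := by gcongr
      _ = 4 * S := by ring
  calc ∑ i, ‖u (x i)‖ ^ 2 ≤ ∑ i, (Λ + 1) * ∑' k, w k * a i k ^ 2 := by
        refine sum_le_sum fun i _ => ?_
        calc ‖u (x i)‖ ^ 2 ≤ (∑' k, w k * a i k) ^ 2 :=
              pow_le_pow_left₀ (norm_nonneg _) (hu (x i)) 2
          _ ≤ _ := cs_tsum hw0 hw (ha0 i) (haB i)
    _ = (Λ + 1) * ∑ i, ∑' k, w k * a i k ^ 2 := by rw [mul_sum]
    _ = (Λ + 1) * ∑' k, ∑ i, w k * a i k ^ 2 := by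
        rw [Summable.tsum_finsetSum fun i _ => hs2 i]
    _ ≤ (Λ + 1) * ∑' k, w k * (4 * S) := by
        apply mul_le_mul_of_nonneg_left _ (by linarith)
        apply Summable.tsum_le_tsum _ (summable_sum fun i _ => hs2 i) (hw.mul_right _)
        intro k
        rw [← mul_sum]
        exact mul_le_mul_of_nonneg_left (hk k) (hw0 k)
    _ = (Λ + 1) * (Λ * (4 * S)) := by rw [tsum_mul_right]
    _ ≤ (2 * (Λ + 1)) ^ 2 * S := by nlinarith [mul_nonneg hΛ0 hS0]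

end general

/-- The functional given by the pairing. -/
noncomputable def Lfun {α M : ℝ} (hα : 0 ≤ α) (ν : ℕ) {ψ : ℕ → ℂ} (hψ : IsDisc ψ)
    (h : Gr α M ψ) : B1 α (ν + 1) →L[ℂ] ℂ :=
  LinearMap.mkContinuous
    { toFun := fun x => L ν ψ x.c
      map_add' := fun x y => L_add hα hψ h x y
      map_smul' := fun c x => L_smul c x } (cL α ν * M) fun x => L_le hα hψ h x

lemma Lfun_apply {α M : ℝ} (hα : 0 ≤ α) (ν : ℕ) {ψ : ℕ → ℂ} (hψ : IsDisc ψ)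
    (h : Gr α M ψ) (x : B1 α (ν + 1)) : Lfun hα ν hψ h x = L ν ψ x.c := rfl

lemma Lfun_norm {α M : ℝ} (hα : 0 ≤ α) (ν : ℕ) {ψ : ℕ → ℂ} (hψ : IsDisc ψ)
    (h : Gr α M ψ) : ‖Lfun hα ν hψ h‖ ≤ cL α ν * M :=
  LinearMap.mkContinuous_norm_le _ (mul_nonneg (cL_nonneg α ν) h.nonneg) _

lemma summable_weight {α : ℝ} (hα : 1 < α) : Summable fun k : ℕ => ((k : ℝ) + 1) ^ (-α) := by
  have h1 : Summable fun k : ℕ => (k : ℝ) ^ (-α) := Real.summable_nat_rpow.2 (by linarith)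
  refine ((summable_nat_add_iff 1).2 h1).congr fun k => ?_
  push_cast
  rfl

/-- For `α > 1` every Hankel operator is `2`-summing. -/
theorem twoSumming_Hop {α : ℝ} (hα : 1 < α) (ν : ℕ) {t : ℕ} (ht : α ≤ t) (φ : Binf α) :
    TwoSumming (Hop hα.le ν ht φ) := by
  have hα0 : 0 < α := by linarith
  have hφ := φ.disc
  have hG := φ.gr
  have hM := hG.nonneg
  have hGn := cG_nonneg hα0 t
  have hLn := cL_nonneg α ν
  have hCn := cC_nonneg α ν t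
  set M := ‖φ‖ with hMdef
  set E : ℝ := Real.exp 1 * t.factorial with hE
  have hE0 : 0 ≤ E := by positivity
  let D1 : ℝ := cC α ν t + 1
  let D2 : ℝ := cL α ν * (cG α t * M) + 1
  have hD1 : 0 < D1 := by positivity
  have hD2 : 0 < D2 := by positivity
  let F : ℕ → B1 α (ν + 1) →L[ℂ] ℂ := fun k =>
    ((D1⁻¹ * ((k : ℝ) + 1) ^ α : ℝ) : ℂ) •
      Lfun hα0.le ν (fin_disc (fun _ hk => un_zero (N := k) hk)) (un_Gr hα0.le ht k)
  let F' : ℕ → B1 α (ν + 1) →L[ℂ] ℂ := fun k =>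
    ((D2⁻¹ : ℝ) : ℂ) • Lfun hα0.le ν (G_disc t hφ k) (Gr_G hα0 ht hφ hG k)
  have hpow : ∀ k : ℕ, ((k : ℝ) + 1) ^ α * ((k : ℝ) + 1) ^ (-α) = 1 := by
    intro k
    rw [← Real.rpow_add (by positivity), add_neg_cancel, Real.rpow_zero]
  have hF : ∀ k, ‖F k‖ ≤ 1 := by
    intro k
    show ‖((D1⁻¹ * ((k : ℝ) + 1) ^ α : ℝ) : ℂ) •
      Lfun hα0.le ν (fin_disc (fun _ hk => un_zero (N := k) hk)) (un_Gr hα0.le ht k)‖ ≤ 1
    rw [norm_smul, Complex.norm_real, Real.norm_of_nonneg (by positivity)]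
    have h1 := Lfun_norm hα0.le ν (fin_disc (fun _ hk => un_zero (N := k) hk)) (un_Gr hα0.le ht k)
    calc _ ≤ D1⁻¹ * ((k : ℝ) + 1) ^ α *
          (cL α ν * (Real.exp 1 * t.factorial * ((k : ℝ) + 1) ^ (-α))) := by gcongr
      _ = D1⁻¹ * (cC α ν t) * (((k : ℝ) + 1) ^ α * ((k : ℝ) + 1) ^ (-α)) := by
          unfold cC; ring
      _ = D1⁻¹ * cC α ν t := by rw [hpow, mul_one]
      _ ≤ D1⁻¹ * D1 := by
          have : cC α ν t ≤ D1 := by simp [D1]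
          gcongr
      _ = 1 := inv_mul_cancel₀ hD1.ne'
  have hF' : ∀ k, ‖F' k‖ ≤ 1 := by
    intro k
    show ‖((D2⁻¹ : ℝ) : ℂ) • Lfun hα0.le ν (G_disc t hφ k) (Gr_G hα0 ht hφ hG k)‖ ≤ 1
    rw [norm_smul, Complex.norm_real, Real.norm_of_nonneg (by positivity)]
    have h1 := Lfun_norm hα0.le ν (G_disc t hφ k) (Gr_G hα0 ht hφ hG k)
    calc _ ≤ D2⁻¹ * (cL α ν * (cG α t * M)) := by gcongr
      _ ≤ D2⁻¹ * D2 := by
          have : cL α ν * (cG α t * M) ≤ D2 := by simp [D2]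
          gcongr
      _ = 1 := inv_mul_cancel₀ hD2.ne'
  let B : ℝ := cG α t * M * D1 + E * D2
  have hB1 : cG α t * M * D1 ≤ B := by
    have : 0 ≤ E * D2 := by positivity
    simp only [B]; linarith
  have hB2 : E * D2 ≤ B := by
    have : 0 ≤ cG α t * M * D1 := by positivity
    simp only [B]; linarith
  have hB0 : 0 ≤ B := le_trans (by positivity) hB2
  refine TwoSumming.of_families (w := fun k => B * ((k : ℝ) + 1) ^ (-α))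
    (fun k => by positivity) ((summable_weight hα).mul_left B) hF hF' fun x => ?_
  have hFx : ∀ k, ‖x.c k‖ = D1 * ((k : ℝ) + 1) ^ (-α) * ‖F k x‖ := by
    intro k
    have h1 : F k x = ((D1⁻¹ * ((k : ℝ) + 1) ^ α : ℝ) : ℂ) * x.c k := by
      show ((D1⁻¹ * ((k : ℝ) + 1) ^ α : ℝ) : ℂ) • L ν (un k) x.c = _
      rw [L_un hα0.le, smul_eq_mul]
    rw [h1, norm_mul, Complex.norm_real, Real.norm_of_nonneg (by positivity)]
    calc ‖x.c k‖ = (D1 * D1⁻¹) * (((k : ℝ) + 1) ^ α * ((k : ℝ) + 1) ^ (-α)) * ‖x.c k‖ := by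
          rw [hpow, mul_inv_cancel₀ hD1.ne']; ring
      _ = _ := by ring
  have hFx' : ∀ k, ‖L ν (G t φ.c k) x.c‖ = D2 * ‖F' k x‖ := by
    intro k
    have h1 : F' k x = ((D2⁻¹ : ℝ) : ℂ) * L ν (G t φ.c k) x.c := rfl
    rw [h1, norm_mul, Complex.norm_real, Real.norm_of_nonneg (by positivity), ← mul_assoc,
      mul_inv_cancel₀ hD2.ne', one_mul]
  have hsF : Summable fun k : ℕ => ((k : ℝ) + 1) ^ (-α) * ‖F k x‖ := by
    refine Summable.of_nonneg_of_le (fun k => by positivity) (fun k => ?_)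
      ((summable_weight hα).mul_right ‖x‖)
    have h1 : ‖F k x‖ ≤ 1 * ‖x‖ := (F k).le_of_opNorm_le (hF k) x
    rw [one_mul] at h1
    gcongr
  have hsF' : Summable fun k : ℕ => ((k : ℝ) + 1) ^ (-α) * ‖F' k x‖ := by
    refine Summable.of_nonneg_of_le (fun k => by positivity) (fun k => ?_)
      ((summable_weight hα).mul_right ‖x‖)
    have h1 : ‖F' k x‖ ≤ 1 * ‖x‖ := (F' k).le_of_opNorm_le (hF' k) x
    rw [one_mul] at h1
    gcongr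
  -- the second part
  have hT2 : Gr α (E * (∑' k : ℕ, ((k : ℝ) + 1) ^ (-α) * ‖L ν (G t φ.c k) x.c‖))
      (fun m => L ν (G t φ.c m) x.c) := by
    intro z hz
    have hsum : Summable fun k : ℕ => ((k : ℝ) + 1) ^ (-α) * ‖L ν (G t φ.c k) x.c‖ := by
      refine (hsF'.mul_left D2).congr fun k => ?_
      rw [hFx']
      ring
    have h1 := (hsum.hasSum.mul_left E).mul_right ((1 - ‖z‖) ^ (-α))
    unfold ev
    apply tsum_of_norm_bounded h1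
    intro k
    rw [norm_mul, norm_pow]
    have h2 := mono_bound hα0.le ht k (norm_nonneg z) hz
    calc ‖L ν (G t φ.c k) x.c‖ * ‖z‖ ^ k ≤ ‖L ν (G t φ.c k) x.c‖ *
          (Real.exp 1 * t.factorial * ((k : ℝ) + 1) ^ (-α) * (1 - ‖z‖) ^ (-α)) := by gcongr
      _ = _ := by rw [hE]; ring
  have hT1 := T1_Gr hα.le ht hφ hG x
  have hsum := hT1.add (T1_disc hα.le ht hφ hG x)
    (bdd_disc fun m => T2_le hα.le ht hφ hG x m) hT2
  have hn : ‖Hop hα.le ν ht φ x‖ ≤ cG α t * M * ∑' k, ‖x.c k‖ +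
      E * (∑' k : ℕ, ((k : ℝ) + 1) ^ (-α) * ‖L ν (G t φ.c k) x.c‖) := by
    apply Binf.norm_le
    rw [Hop_c, hc_add_split]
    exact hsum
  refine hn.trans ?_
  simp_rw [hFx, hFx']
  have e1 : ∑' k : ℕ, D1 * ((k : ℝ) + 1) ^ (-α) * ‖F k x‖ =
      D1 * ∑' k : ℕ, ((k : ℝ) + 1) ^ (-α) * ‖F k x‖ := by
    rw [← tsum_mul_left]; congr 1; ext k; ring
  have e2 : ∑' k : ℕ, ((k : ℝ) + 1) ^ (-α) * (D2 * ‖F' k x‖) =
      D2 * ∑' k : ℕ, ((k : ℝ) + 1) ^ (-α) * ‖F' k x‖ := by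
    rw [← tsum_mul_left]; congr 1; ext k; ring
  have e3 : ∑' k : ℕ, B * ((k : ℝ) + 1) ^ (-α) * (‖F k x‖ + ‖F' k x‖) =
      B * ∑' k : ℕ, ((k : ℝ) + 1) ^ (-α) * ‖F k x‖ +
      B * ∑' k : ℕ, ((k : ℝ) + 1) ^ (-α) * ‖F' k x‖ := by
    rw [← tsum_mul_left, ← tsum_mul_left, ← (hsF.mul_left B).tsum_add (hsF'.mul_left B)]
    congr 1; ext k; ring
  rw [e1, e2, e3]
  have p1 : 0 ≤ ∑' k : ℕ, ((k : ℝ) + 1) ^ (-α) * ‖F k x‖ := tsum_nonneg fun k => by positivity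
  have p2 : 0 ≤ ∑' k : ℕ, ((k : ℝ) + 1) ^ (-α) * ‖F' k x‖ := tsum_nonneg fun k => by positivity
  nlinarith [mul_le_mul_of_nonneg_right hB1 p1, mul_le_mul_of_nonneg_right hB2 p2]

theorem twoSumming_of_one_lt {α : ℝ} (hα : 1 < α) {n : ℕ} (hn : α < n) (φ : Binf α)
    (H : B1 α n →L[ℂ] Binf α) (hH : IsHankel φ H) : TwoSumming H := by
  obtain ⟨t, ht⟩ := exists_nat_ge α
  obtain ⟨ν, rfl⟩ : ∃ ν, n = ν + 1 := by
    cases n with
    | zero => simp at hn; linarith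
    | succ ν => exact ⟨ν, rfl⟩
  rw [hH.unique (IsHankel_Hop hα.le ν ht φ)]
  exact twoSumming_Hop hα ν ht φ

end Pool.Agent.H758R2.Besov
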